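import Pool.Agent.V11290.FD.Fam3

set_option autoImplicit false

/-! One dimension, with properties that depend on the exponent `A`. -/

namespace Pool.Agent.V11290.FD
open MeasureTheory Filter
open Pool.Agent.H373R2.T7 (energy)

/-- one dimension -/
theorem abs_one' (B C σ : ℝ) (hB : 0 < B) (hσ : 0 < σ) (μ : Measure ℝ) [IsProbabilityMeasure μ]
    (hdec : ∀ ξ : ℝ, 1 ≤ |ξ| → ‖charFun μ ξ‖ ≤ C * |ξ| ^ (-σ)) (hsup : ∀ᵐ α ∂μ, |α| ≤ B)
    {J : Type} (t s : J → ℝ) (ht2 : ∀ j, 2 ≤ t j) (V : ℕ) (hT : Summable fun j => 1 / Real.log (t j) ^ V)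
    (hs : ∀ j, |s j| ≤ B * t j) (p : ℕ) (hp1 : 1 ≤ p) (hp : 1 ≤ p * σ) (B₁ : ℕ) (hB₁ : 2 * B + 8 ≤ B₁)
    (P : ℕ → ℕ → J → ℤ → Prop)
    (H : ∀ A i : ℕ, ∃ t₀ : ℝ, ∀ j, t₀ ≤ t j → ∀ (x : ℕ) (v : ℕ → ℤ), 1 ≤ x →
      (∀ m ∈ Finset.Icc 1 x, |v m| ≤ B₁ * (⌈t j⌉₊ : ℤ)) →
      (energy p x v : ℝ) * (⌈t j⌉₊ : ℝ) ≤ Real.log (⌈t j⌉₊ : ℝ) * (x : ℝ) ^ (2 * p) →
      ∀ 𝒮 : Finset ℕ, 𝒮 ⊆ Finset.Icc 1 x → (∀ m ∈ 𝒮, ¬ P A i j (v m)) →
      (𝒮.card : ℝ) ≤ x / Real.log (⌈t j⌉₊ : ℝ) ^ (V + A + 2)) :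
    ∀ᵐ α ∂μ, ∀ A i : ℕ, {j | ¬ ∀ n : ℤ, |(n : ℝ) - (t j * α + s j)| ≤ Real.log (t j) ^ A → P A i j n}.Finite := by
  classical
  rw [ae_all_iff]
  intro A
  rw [ae_all_iff]
  intro i
  obtain ⟨K, hK, hfam⟩ := fam_one B C σ hB hσ p hp1 hp
  obtain ⟨t₀, h0⟩ := H A i
  obtain ⟨t1, ht1⟩ := log_pow_le A 1 one_pos
  have hmain := bc_abs μ t ht2 V hT (fun j => {α | ∃ n : ℤ, ¬ P A i j n ∧ |(n : ℝ) - (t j * α + s j)| ≤ Real.log (t j) ^ A})
    (max (max t₀ t1) (Real.exp (2 * K + 9))) (by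
    intro j hj
    have q0 : t₀ ≤ t j := ((le_max_left _ _).trans (le_max_left _ _)).trans hj
    have q1 : t1 ≤ t j := ((le_max_right _ _).trans (le_max_left _ _)).trans hj
    have q2 : Real.exp (2 * K + 9) ≤ t j := (le_max_right _ _).trans hj
    have htj2 := ht2 j
    have htj0 : 0 < t j := by linarith
    have hlog : 2 * K + 9 ≤ Real.log (t j) := by
      rw [Real.le_log_iff_exp_le htj0]
      exact q2
    have hlogA := ht1 (t j) q1
    rw [one_mul] at hlogA
    have hlt : 0 < Real.log (t j) := by linarith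
    have hLA : 1 ≤ Real.log (t j) ^ A := one_le_pow₀ (by linarith)
    obtain ⟨x, s', M, hM1, hMx, hxM, hs', hen, hfib⟩ := hfam μ hdec hsup (t j) (by linarith)
    have hM0 : (0 : ℝ) < M := by exact_mod_cast hM1
    have hx1 : 1 ≤ x := by omega
    have hx0 : (0 : ℝ) < x := by exact_mod_cast hx1
    obtain ⟨N, hN⟩ : ∃ N : ℕ, N = ⌈t j⌉₊ := ⟨_, rfl⟩
    have hN1 : t j ≤ N := by rw [hN]; exact Nat.le_ceil _
    have hN2 : (N : ℝ) ≤ 2 * t j := by
      rw [hN]
      have := (Nat.ceil_lt_add_one htj0.le).le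
      linarith
    have hlogN : Real.log (t j) ≤ Real.log N := Real.log_le_log htj0 hN1
    have hRle : (RR B (t j) : ℝ) ≤ B * t j + 2 := by
      unfold RR
      have := (Int.ceil_lt_add_one (B * t j + 1)).le
      linarith
    have hc₀1 := Int.floor_le (s j)
    have hc₀2 := Int.lt_floor_add_one (s j)
    have hq : ∀ c : ℤ, |(c : ℝ)| ≤ (Real.log (t j) ^ A + 1) + 1 → ∑ y ∈ Finset.Icc (-(RR B (t j))) (RR B (t j)),
        (if ¬ P A i j (⌊s j⌋ + (c + y)) then pp μ (t j) y else 0) ≤ 2 / Real.log (t j) ^ (V + A + 2) := by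
      intro c hc
      have h1 := h0 j q0 x (fun m => ⌊s j⌋ + (c + s' m)) hx1 (by
        intro m hm
        rw [← hN]
        have h2 := Finset.mem_Icc.1 (hs' m hm)
        have h3 : |((⌊s j⌋ + (c + s' m) : ℤ) : ℝ)| ≤ (B₁ : ℝ) * N := by
          have e1 : |(⌊s j⌋ : ℝ)| ≤ B * t j + 1 := by
            have := abs_le.1 (hs j)
            apply abs_le.2
            constructor <;> linarith [this.1, this.2]
          have e2 : |(s' m : ℝ)| ≤ B * t j + 2 := by
            apply abs_le.2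
            have h5 : -(RR B (t j) : ℝ) ≤ s' m := by exact_mod_cast h2.1
            have h6 : (s' m : ℝ) ≤ RR B (t j) := by exact_mod_cast h2.2
            constructor <;> linarith
          push_cast
          refine (abs_add_le _ _).trans ?_
          have e5 := abs_add_le (c : ℝ) (s' m : ℝ)
          have e3 : (2 * B + 8) * t j ≤ B₁ * N := by
            apply mul_le_mul hB₁ hN1 htj0.le (Nat.cast_nonneg _)
          nlinarith
        exact_mod_cast h3) (by
        rw [← hN]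
        have h2 := hen (⌊s j⌋ + c)
        have e1 : (fun m => ⌊s j⌋ + (c + s' m)) = fun m => ⌊s j⌋ + c + s' m := by
          funext m
          ring
        rw [e1]
        calc (energy p x (fun m => ⌊s j⌋ + c + s' m) : ℝ) * N ≤ energy p x (fun m => ⌊s j⌋ + c + s' m) * (2 * t j) :=
              mul_le_mul_of_nonneg_left hN2 (Nat.cast_nonneg _)
          _ = 2 * (energy p x (fun m => ⌊s j⌋ + c + s' m) * t j) := by ring
          _ ≤ 2 * (K * (x : ℝ) ^ (2 * p)) := by linarith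
          _ = (2 * K) * (x : ℝ) ^ (2 * p) := by ring
          _ ≤ _ := mul_le_mul_of_nonneg_right (by linarith) (by positivity))
        ((Finset.Icc 1 x).filter (fun m => ¬ P A i j (⌊s j⌋ + (c + s' m)))) (Finset.filter_subset _ _) (by
        intro m hm
        exact (Finset.mem_filter.1 hm).2)
      rw [← hN] at h1
      refine (fiber_le (Finset.Icc (-(RR B (t j))) (RR B (t j))) s' x (pp μ (t j)) M hM0 hfib
        (fun y => ¬ P A i j (⌊s j⌋ + (c + y)))).trans ?_
      have h3 : (x : ℝ) ≤ 2 * M := by exact_mod_cast hxM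
      rw [div_le_div_iff₀ hM0 (by positivity)]
      have h4 := h1.trans (div_le_div_of_nonneg_left hx0.le (by positivity) (pow_le_pow_left₀ hlt.le hlogN (V + A + 2)))
      rw [le_div_iff₀ (by positivity)] at h4
      exact h4.trans h3
    have hnear := meas_near μ (t j) (RR B (t j)) (RR_ae μ B (t j) htj0.le hsup) (Real.log (t j) ^ A + 1) (by positivity)
      (fun n => ¬ P A i j (⌊s j⌋ + n)) (2 / Real.log (t j) ^ (V + A + 2)) (by positivity) hq
    refine (measure_mono ?_).trans (hnear.trans (ENNReal.ofReal_le_ofReal ?_))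
    · rintro α ⟨n, hn, hn2⟩
      refine ⟨n - ⌊s j⌋, ?_, ?_⟩
      · have : ⌊s j⌋ + (n - ⌊s j⌋) = n := by ring
        rw [this]
        exact hn
      · have e3 := abs_le.1 hn2
        push_cast
        apply abs_le.2
        constructor <;> linarith [e3.1, e3.2]
    · calc (2 * (Real.log (t j) ^ A + 1) + 3) * (2 / Real.log (t j) ^ (V + A + 2)) ≤
          (Real.log (t j) * Real.log (t j) ^ A) * (2 / Real.log (t j) ^ (V + A + 2)) := by
            apply mul_le_mul_of_nonneg_right _ (by positivity)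
            nlinarith
        _ = (2 / Real.log (t j)) * (1 / Real.log (t j) ^ V) := by
            rw [pow_add, pow_add]
            field_simp
        _ ≤ 1 * (1 / Real.log (t j) ^ V) := by
            apply mul_le_mul_of_nonneg_right _ (by positivity)
            rw [div_le_one hlt]
            linarith
        _ = _ := one_mul _)
  filter_upwards [hmain] with α hα
  refine hα.subset ?_
  intro j hj
  rw [Set.mem_ofPred_eq] at hj ⊢
  push Not at hj
  obtain ⟨n, hn1, hn2⟩ := hj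
  exact ⟨n, hn2, hn1⟩

end Pool.Agent.V11290.FD
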