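import Pool.Agent.V11290.FD.Fam2

set_option autoImplicit false

/-! From estimates for products of families of nearly minimal additive energy to all integer vectors near
`t α + s`, for almost all vectors `α`. -/

namespace Pool.Agent.V11290.FD
open MeasureTheory Filter
open Pool.Agent.H373R2.T7 (energy)

variable {k : ℕ}

lemma tent_one (x : ℝ) (h C : ℤ) (hC : |(h : ℝ) - x| + 1 ≤ C) :
    ∑ c ∈ Finset.Icc (-C) C, tent (x - ((h - c : ℤ) : ℝ)) = 1 := by
  obtain ⟨h1, h2⟩ := floor_mem ((h : ℝ) - x) C hC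
  have h3 := tent_sum ((h : ℝ) - x) (Finset.Icc (-C) C) h1 h2 (fun _ => (1 : ℝ))
  simp only [smul_eq_mul, mul_one, sub_add_cancel] at h3
  rw [← h3]
  apply Finset.sum_congr rfl
  intro c _
  unfold tent
  congr 2
  push_cast
  rw [← abs_neg]
  congr 1
  ring

/-- all integer vectors near `t α` -/
lemma near_pi (μ : Fin k → Measure ℝ) [∀ i, IsProbabilityMeasure (μ i)] (t : ℝ) (R : ℤ)
    (hR : ∀ i, ∀ᵐ α ∂(μ i), |t * α| + 1 ≤ R) (C : ℤ) (Bad : (Fin k → ℤ) → Prop) [DecidablePred Bad] (q : ℝ)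
    (hq : ∀ c : Fin k → ℤ, (∀ i, |c i| ≤ C) → ∑ y ∈ Fintype.piFinset (fun _ : Fin k => Finset.Icc (-R) R),
      (if Bad (fun i => c i + y i) then ∏ i, pp (μ i) t (y i) else 0) ≤ q) :
    Measure.pi μ {α | ∃ h : Fin k → ℤ, Bad h ∧ ∀ i, |(h i : ℝ) - t * α i| + 1 ≤ C} ≤
      ENNReal.ofReal ((((Finset.Icc (-C) C).card ^ k : ℕ) : ℝ) * q) := by
  classical
  obtain ⟨S, hS⟩ : ∃ S, S = Fintype.piFinset (fun _ : Fin k => Finset.Icc (-C) C) := ⟨_, rfl⟩
  obtain ⟨Y, hY⟩ : ∃ Y, Y = Fintype.piFinset (fun _ : Fin k => Finset.Icc (-R) R) := ⟨_, rfl⟩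
  obtain ⟨f, hf⟩ : ∃ f : (Fin k → ℝ) → ℝ, f = fun α => ∑ c ∈ S, ∑ y ∈ Y,
      (if Bad (fun i => c i + y i) then ∏ i, tent (t * α i - y i) else 0) := ⟨_, rfl⟩
  have hcont : ∀ y : Fin k → ℤ, Continuous fun α : Fin k → ℝ => ∏ i, tent (t * α i - y i) := by
    intro y
    apply continuous_finsetProd
    intro i _
    have := tent_cont
    fun_prop
  have hI : ∀ y : Fin k → ℤ, Integrable (fun α : Fin k → ℝ => ∏ i, tent (t * α i - y i)) (Measure.pi μ) := by
    intro y
    apply Integrable.mono' (integrable_const (1 : ℝ)) (hcont y).aestronglyMeasurable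
    refine Filter.Eventually.of_forall fun α => ?_
    rw [Real.norm_of_nonneg (Finset.prod_nonneg fun i _ => tent_nonneg _)]
    exact Finset.prod_le_one (fun i _ => tent_nonneg _) (fun i _ => tent_le _)
  have hI2 : ∀ (c y : Fin k → ℤ), Integrable (fun α : Fin k → ℝ => if Bad (fun i => c i + y i) then ∏ i, tent (t * α i - y i) else 0)
      (Measure.pi μ) := by
    intro c y
    split_ifs
    · exact hI y
    · exact integrable_zero _ _ _
  have hint : Integrable f (Measure.pi μ) := by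
    rw [hf]
    exact integrable_finsetSum _ fun c _ => integrable_finsetSum _ fun y _ => hI2 c y
  have hf0 : ∀ α, 0 ≤ f α := by
    intro α
    rw [hf]
    apply Finset.sum_nonneg
    intro c _
    apply Finset.sum_nonneg
    intro y _
    split_ifs
    · exact Finset.prod_nonneg fun i _ => tent_nonneg _
    · exact le_rfl
  have hval : ∀ y : Fin k → ℤ, ∫ α, ∏ i, tent (t * α i - y i) ∂(Measure.pi μ) = ∏ i, pp (μ i) t (y i) := by
    intro y
    exact integral_fintype_prod_eq_prod (fun i (a : ℝ) => tent (t * a - y i))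
  have hintf : ∫ α, f α ∂(Measure.pi μ) ≤ (((Finset.Icc (-C) C).card ^ k : ℕ) : ℝ) * q := by
    rw [hf]
    rw [integral_finsetSum _ fun c _ => integrable_finsetSum _ fun y _ => hI2 c y]
    have h1 : ∀ c ∈ S, ∫ α, ∑ y ∈ Y, (if Bad (fun i => c i + y i) then ∏ i, tent (t * α i - y i) else 0) ∂(Measure.pi μ) ≤ q := by
      intro c hc
      rw [integral_finsetSum _ fun y _ => hI2 c y]
      rw [hS, Fintype.mem_piFinset] at hc
      refine le_trans (le_of_eq ?_) (hq c (fun i => ?_))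
      · rw [hY]
        apply Finset.sum_congr rfl
        intro y _
        split_ifs
        · exact hval y
        · exact integral_zero _ _
      · have := Finset.mem_Icc.1 (hc i)
        exact abs_le.2 ⟨this.1, this.2⟩
    refine (Finset.sum_le_sum h1).trans (le_of_eq ?_)
    rw [Finset.sum_const, nsmul_eq_mul, hS, Fintype.card_piFinset_const]
  have hae : ∀ᵐ α ∂(Measure.pi μ), ∀ i, |t * α i| + 1 ≤ R := by
    rw [ae_all_iff]
    intro i
    exact (measurePreserving_eval μ i).quasiMeasurePreserving.ae (hR i)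
  have hsub : {α | ∃ h : Fin k → ℤ, Bad h ∧ ∀ i, |(h i : ℝ) - t * α i| + 1 ≤ C} ≤ᵐ[Measure.pi μ] {α | 1 ≤ f α} := by
    filter_upwards [hae] with α hα
    rintro ⟨h, hb, hh⟩
    show 1 ≤ f α
    have h1 : ∏ i : Fin k, ∑ c ∈ Finset.Icc (-C) C, tent (t * α i - ((h i - c : ℤ) : ℝ)) = 1 := by
      apply Finset.prod_eq_one
      intro i _
      exact tent_one (t * α i) (h i) C (hh i)
    rw [Finset.prod_univ_sum] at h1
    rw [hf, ← h1, ← hS]
    apply Finset.sum_le_sum
    intro c _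
    have hn : ∀ y ∈ Y, 0 ≤ (if Bad (fun i => c i + y i) then ∏ i, tent (t * α i - y i) else 0) := by
      intro y _
      split_ifs
      · exact Finset.prod_nonneg fun i _ => tent_nonneg _
      · exact le_rfl
    by_cases hmem : (fun i => h i - c i) ∈ Y
    · refine le_trans (le_of_eq ?_) (Finset.single_le_sum hn hmem)
      have e1 : (fun i => c i + (h i - c i)) = h := by
        funext i
        ring
      rw [e1, if_pos hb]
    · have hex : ∃ i, h i - c i ∉ Finset.Icc (-R) R := by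
        by_contra hcon
        push Not at hcon
        apply hmem
        rw [hY, Fintype.mem_piFinset]
        exact hcon
      obtain ⟨i, hi⟩ := hex
      have h0 : tent (t * α i - ((h i - c i : ℤ) : ℝ)) = 0 := by
        unfold tent
        apply max_eq_left
        have h2 : (R : ℝ) ≤ |((h i - c i : ℤ) : ℝ)| := by
          have : R ≤ |h i - c i| := by
            rw [Finset.mem_Icc, not_and_or, not_le, not_le] at hi
            rcases hi with hi | hi
            · have := neg_le_abs (h i - c i)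
              omega
            · have := le_abs_self (h i - c i)
              omega
          exact_mod_cast this
        have h3 : |((h i - c i : ℤ) : ℝ)| ≤ |t * α i - ((h i - c i : ℤ) : ℝ)| + |t * α i| := by
          have := abs_sub (t * α i) (t * α i - ((h i - c i : ℤ) : ℝ))
          rw [sub_sub_cancel] at this
          linarith
        linarith [hα i]
      rw [Finset.prod_eq_zero (Finset.mem_univ i) h0]
      exact Finset.sum_nonneg hn
  refine (measure_mono_ae hsub).trans ?_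
  have hmark := mul_meas_ge_le_integral_of_nonneg (μ := Measure.pi μ) (f := f) (Eventually.of_forall hf0) hint 1
  rw [one_mul] at hmark
  rw [← ofReal_measureReal]
  exact ENNReal.ofReal_le_ofReal (hmark.trans hintf)

/-- the lemma of Borel and Cantelli -/
lemma bc_abs {Ω : Type} [MeasurableSpace Ω] (P : Measure Ω) [IsProbabilityMeasure P] {J : Type} (T : J → ℝ) (hT2 : ∀ j, 2 ≤ T j)
    (V : ℕ) (hT : Summable fun j => 1 / Real.log (T j) ^ V) (s : J → Set Ω) (t₀ : ℝ)
    (h : ∀ j, t₀ ≤ T j → P (s j) ≤ ENNReal.ofReal (1 / Real.log (T j) ^ V)) : ∀ᵐ ω ∂P, {j | ω ∈ s j}.Finite := by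
  obtain ⟨t₁, ht₁⟩ : ∃ t₁, t₁ = max t₀ (Real.exp 1) := ⟨_, rfl⟩
  have ht1e : Real.exp 1 ≤ t₁ := by rw [ht₁]; exact le_max_right _ _
  have ht10 : t₀ ≤ t₁ := by rw [ht₁]; exact le_max_left _ _
  have hlt1 : 1 ≤ Real.log t₁ := by
    rw [Real.le_log_iff_exp_le (lt_of_lt_of_le (Real.exp_pos 1) ht1e)]
    exact ht1e
  have hp1 : 1 ≤ Real.log t₁ ^ V := one_le_pow₀ hlt1
  have hbound : ∀ j, P (s j) ≤ ENNReal.ofReal (Real.log t₁ ^ V * (1 / Real.log (T j) ^ V)) := by
    intro j
    have ht2 := hT2 j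
    have hlog : 0 < Real.log (T j) := Real.log_pos (by linarith)
    rcases lt_or_ge (T j) t₁ with hlt | hge
    · refine prob_le_one.trans ?_
      rw [ENNReal.one_le_ofReal, mul_one_div, le_div_iff₀ (by positivity), one_mul]
      exact pow_le_pow_left₀ hlog.le (Real.log_le_log (by linarith) hlt.le) V
    · refine (h j (ht10.trans hge)).trans (ENNReal.ofReal_le_ofReal ?_)
      exact le_mul_of_one_le_left (by positivity) hp1
  have hsum : ∑' j, P (s j) ≠ ⊤ := by
    have h1 : ∑' j, P (s j) ≤ ∑' j, ENNReal.ofReal (Real.log t₁ ^ V * (1 / Real.log (T j) ^ V)) := ENNReal.tsum_le_tsum hbound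
    exact ne_top_of_le_ne_top (hT.mul_left _).tsum_ofReal_ne_top h1
  have hcount : Countable J := by
    have h3 := hT.countable_support
    have h4 : Function.support (fun j => 1 / Real.log (T j) ^ V) = Set.univ := by
      ext j
      simp only [Function.mem_support, Set.mem_univ, iff_true]
      have hlog : 0 < Real.log (T j) := Real.log_pos (by linarith [hT2 j])
      positivity
    rw [h4] at h3
    exact Set.countable_univ_iff.1 h3
  exact ae_finite_setOfPred_mem hsum

lemma fiber_pi (Y : Finset ℤ) (s : Fin k → ℕ → ℤ) (x : Fin k → ℕ) (w : Fin k → ℤ → ℝ) (hw : ∀ i, ∀ y, 0 ≤ w i y)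
    (M : Fin k → ℝ) (hM : ∀ i, 0 < M i)
    (h : ∀ i, ∀ y ∈ Y, M i * w i y ≤ ((Finset.Icc 1 (x i)).filter (fun m => s i m = y)).card) (Bad : (Fin k → ℤ) → Prop)
    [DecidablePred Bad] :
    ∑ y ∈ Fintype.piFinset (fun _ : Fin k => Y), (if Bad y then ∏ i, w i (y i) else 0) ≤
      (((Fintype.piFinset (fun i => Finset.Icc 1 (x i))).filter (fun q => Bad (fun i => s i (q i)))).card : ℝ) / ∏ i, M i := by
  classical
  have hMp : 0 < ∏ i, M i := Finset.prod_pos fun i _ => hM i
  rw [le_div_iff₀ hMp, Finset.sum_mul]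
  have h1 : ∀ y ∈ Fintype.piFinset (fun _ : Fin k => Y), (if Bad y then ∏ i, w i (y i) else 0) * ∏ i, M i ≤
      ((((Fintype.piFinset (fun i => Finset.Icc 1 (x i))).filter (fun q => Bad (fun i => s i (q i)))).filter
        (fun q => (fun i => s i (q i)) = y)).card : ℝ) := by
    intro y hy
    rw [Fintype.mem_piFinset] at hy
    split_ifs with hb
    · have h2 : (∏ i, w i (y i)) * ∏ i, M i ≤ ∏ i, (((Finset.Icc 1 (x i)).filter (fun m => s i m = y i)).card : ℝ) := by
        rw [← Finset.prod_mul_distrib]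
        apply Finset.prod_le_prod
        · intro i _
          exact mul_nonneg (hw i _) (hM i).le
        · intro i _
          rw [mul_comm]
          exact h i (y i) (hy i)
      refine h2.trans ?_
      rw [← Nat.cast_prod, ← Fintype.card_piFinset]
      have : Fintype.piFinset (fun i => (Finset.Icc 1 (x i)).filter (fun m => s i m = y i)) ⊆
          ((Fintype.piFinset (fun i => Finset.Icc 1 (x i))).filter (fun q => Bad (fun i => s i (q i)))).filter
          (fun q => (fun i => s i (q i)) = y) := by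
        intro q hq
        rw [Fintype.mem_piFinset] at hq
        have e1 : (fun i => s i (q i)) = y := by
          funext i
          exact (Finset.mem_filter.1 (hq i)).2
        rw [Finset.mem_filter, Finset.mem_filter, Fintype.mem_piFinset]
        exact ⟨⟨fun i => (Finset.mem_filter.1 (hq i)).1, by rw [e1]; exact hb⟩, e1⟩
      exact_mod_cast Finset.card_le_card this
    · rw [zero_mul]
      exact Nat.cast_nonneg _
  refine (Finset.sum_le_sum h1).trans ?_
  have h2 : ∑ y ∈ Fintype.piFinset (fun _ : Fin k => Y),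
      (((Fintype.piFinset (fun i => Finset.Icc 1 (x i))).filter (fun q => Bad (fun i => s i (q i)))).filter
        (fun q => (fun i => s i (q i)) = y)).card ≤
      ((Fintype.piFinset (fun i => Finset.Icc 1 (x i))).filter (fun q => Bad (fun i => s i (q i)))).card := by
    rw [← Finset.card_biUnion]
    · apply Finset.card_le_card
      intro m hm
      rw [Finset.mem_biUnion] at hm
      obtain ⟨y, _, hy⟩ := hm
      exact (Finset.mem_filter.1 hy).1
    · intro y _ y' _ hne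
      apply Finset.disjoint_left.2
      intro m hm hm'
      exact hne ((Finset.mem_filter.1 hm).2.symm.trans (Finset.mem_filter.1 hm').2)
  exact_mod_cast h2

/-- several dimensions -/
theorem abs_pi' (B C σ : ℝ) (hB : 0 < B) (hσ : 0 < σ) (μ : Fin k → Measure ℝ) [∀ i, IsProbabilityMeasure (μ i)]
    (hdec : ∀ i, ∀ ξ : ℝ, 1 ≤ |ξ| → ‖charFun (μ i) ξ‖ ≤ C * |ξ| ^ (-σ)) (hsup : ∀ i, ∀ᵐ α ∂(μ i), |α| ≤ B)
    {J : Type} (t : J → ℝ) (s : J → Fin k → ℝ) (ht2 : ∀ j, 2 ≤ t j) (V : ℕ) (hT : Summable fun j => 1 / Real.log (t j) ^ V)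
    (hs : ∀ j a, |s j a| ≤ B * t j) (p : ℕ) (hp1 : 1 ≤ p) (hp : 1 ≤ p * σ) (B₁ : ℕ) (hB₁ : 2 * B + 16 ≤ B₁)
    (P : ℕ → ℕ → J → (Fin k → ℤ) → Prop)
    (H : ∀ A i : ℕ, ∃ t₀ : ℝ, ∀ j, t₀ ≤ t j → ∀ (x : Fin k → ℕ) (v : Fin k → ℕ → ℤ),
      (∀ a, ∀ m ∈ Finset.Icc 1 (x a), |v a m| ≤ B₁ * (⌈t j⌉₊ : ℤ)) →
      (∀ a, (energy p (x a) (v a) : ℝ) * (⌈t j⌉₊ : ℝ) ≤ Real.log (⌈t j⌉₊ : ℝ) * (x a : ℝ) ^ (2 * p)) →
      ∀ 𝒮 : Finset (Fin k → ℕ), 𝒮 ⊆ Fintype.piFinset (fun a => Finset.Icc 1 (x a)) →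
      (∀ q ∈ 𝒮, ¬ P A i j (fun a => v a (q a))) → (𝒮.card : ℝ) ≤ (∏ a, (x a : ℝ)) / Real.log (⌈t j⌉₊ : ℝ) ^ (V + (A + 1) * k + 1)) :
    ∀ᵐ α ∂(Measure.pi μ), ∀ A i : ℕ,
      {j | ¬ ∀ β : Fin k → ℤ, (∀ a, |(β a : ℝ) - (t j * α a + s j a)| ≤ Real.log (t j) ^ A) → P A i j β}.Finite := by
  classical
  rw [ae_all_iff]
  intro A
  rw [ae_all_iff]
  intro i
  obtain ⟨K, hK, hfam⟩ := fam_one B C σ hB hσ p hp1 hp
  obtain ⟨U, hU⟩ : ∃ U, U = V + (A + 1) * k + 1 := ⟨_, rfl⟩
  obtain ⟨t₀, h0⟩ := H A i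
  rw [← hU] at h0
  obtain ⟨t1, ht1⟩ := log_pow_le A 1 one_pos
  have hmain := bc_abs (Measure.pi μ) t ht2 V hT (fun j => {α | ∃ β : Fin k → ℤ, ¬ P A i j β ∧
      ∀ a, |(β a : ℝ) - (t j * α a + s j a)| ≤ Real.log (t j) ^ A}) (max (max t₀ t1) (Real.exp (2 * K + 2 ^ k + 9))) (by
    intro j hj
    have q0 : t₀ ≤ t j := ((le_max_left _ _).trans (le_max_left _ _)).trans hj
    have q1 : t1 ≤ t j := ((le_max_right _ _).trans (le_max_left _ _)).trans hj
    have q2 : Real.exp (2 * K + 2 ^ k + 9) ≤ t j := (le_max_right _ _).trans hj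
    have htj2 := ht2 j
    have htj0 : 0 < t j := by linarith
    have hlog : 2 * K + 2 ^ k + 9 ≤ Real.log (t j) := by
      rw [Real.le_log_iff_exp_le htj0]
      exact q2
    have h2k : (0 : ℝ) < 2 ^ k := by positivity
    have hlogA := ht1 (t j) q1
    rw [one_mul] at hlogA
    have hlt : 0 < Real.log (t j) := by linarith
    have hLA : 1 ≤ Real.log (t j) ^ A := one_le_pow₀ (by linarith)
    choose x s' M hM1 hMx hxM hs' hen hfib using fun a => hfam (μ a) (hdec a) (hsup a) (t j) (by linarith)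
    have hM0 : ∀ a, (0 : ℝ) < M a := fun a => by exact_mod_cast hM1 a
    have hx0 : ∀ a, (0 : ℝ) < x a := fun a => by exact_mod_cast (hM1 a).trans (hMx a)
    obtain ⟨N, hN⟩ : ∃ N : ℕ, N = ⌈t j⌉₊ := ⟨_, rfl⟩
    have hN1 : t j ≤ N := by rw [hN]; exact Nat.le_ceil _
    have hN2 : (N : ℝ) ≤ 2 * t j := by
      rw [hN]
      have := (Nat.ceil_lt_add_one htj0.le).le
      linarith
    have hlogN : Real.log (t j) ≤ Real.log N := Real.log_le_log htj0 hN1
    have hRle : (RR B (t j) : ℝ) ≤ B * t j + 2 := by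
      unfold RR
      have := (Int.ceil_lt_add_one (B * t j + 1)).le
      linarith
    obtain ⟨c₀, hc₀⟩ : ∃ c₀ : Fin k → ℤ, c₀ = fun a => ⌊s j a⌋ := ⟨_, rfl⟩
    have hc₀1 : ∀ a, (c₀ a : ℝ) ≤ s j a := fun a => by rw [hc₀]; exact Int.floor_le _
    have hc₀2 : ∀ a, s j a < c₀ a + 1 := fun a => by rw [hc₀]; exact Int.lt_floor_add_one _
    obtain ⟨C', hC'⟩ : ∃ C' : ℤ, C' = ⌈Real.log (t j) ^ A + 2⌉ := ⟨_, rfl⟩
    have hC'1 : Real.log (t j) ^ A + 2 ≤ C' := by rw [hC']; exact Int.le_ceil _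
    have hC'2 : (C' : ℝ) ≤ Real.log (t j) ^ A + 3 := by
      rw [hC']
      have := (Int.ceil_lt_add_one (Real.log (t j) ^ A + 2)).le
      linarith
    have hq : ∀ c : Fin k → ℤ, (∀ a, |c a| ≤ C') → ∑ y ∈ Fintype.piFinset (fun _ : Fin k => Finset.Icc (-(RR B (t j))) (RR B (t j))),
        (if ¬ P A i j (fun a => c₀ a + (c a + y a)) then ∏ a, pp (μ a) (t j) (y a) else 0) ≤ 2 ^ k / Real.log (t j) ^ U := by
      intro c hc
      have h1 := h0 j q0 x (fun a m => c₀ a + (c a + s' a m)) (by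
        intro a m hm
        rw [← hN]
        have h2 := Finset.mem_Icc.1 (hs' a m hm)
        have h3 : |((c₀ a + (c a + s' a m) : ℤ) : ℝ)| ≤ (B₁ : ℝ) * N := by
          have e1 : |(c₀ a : ℝ)| ≤ B * t j + 1 := by
            have := abs_le.1 (hs j a)
            apply abs_le.2
            constructor <;> linarith [this.1, this.2, hc₀1 a, hc₀2 a]
          have e2 : |(s' a m : ℝ)| ≤ B * t j + 2 := by
            apply abs_le.2
            have h5 : -(RR B (t j) : ℝ) ≤ s' a m := by exact_mod_cast h2.1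
            have h6 : (s' a m : ℝ) ≤ RR B (t j) := by exact_mod_cast h2.2
            constructor <;> linarith
          have e4 : |(c a : ℝ)| ≤ t j + 3 := by
            have : |(c a : ℝ)| ≤ C' := by exact_mod_cast hc a
            linarith
          push_cast
          refine (abs_add_le _ _).trans ?_
          have e5 := abs_add_le (c a : ℝ) (s' a m : ℝ)
          have e3 : (2 * B + 16) * t j ≤ B₁ * N := by
            apply mul_le_mul hB₁ hN1 htj0.le (Nat.cast_nonneg _)
          nlinarith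
        exact_mod_cast h3) (by
        intro a
        rw [← hN]
        have h2 := hen a (c₀ a + c a)
        have e1 : (fun m => c₀ a + (c a + s' a m)) = fun m => c₀ a + c a + s' a m := by
          funext m
          ring
        rw [e1]
        calc (energy p (x a) (fun m => c₀ a + c a + s' a m) : ℝ) * N ≤ energy p (x a) (fun m => c₀ a + c a + s' a m) * (2 * t j) :=
              mul_le_mul_of_nonneg_left hN2 (Nat.cast_nonneg _)
          _ = 2 * (energy p (x a) (fun m => c₀ a + c a + s' a m) * t j) := by ring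
          _ ≤ 2 * (K * (x a : ℝ) ^ (2 * p)) := by linarith
          _ = (2 * K) * (x a : ℝ) ^ (2 * p) := by ring
          _ ≤ _ := mul_le_mul_of_nonneg_right (by linarith) (by have := (hx0 a).le; positivity))
        ((Fintype.piFinset (fun a => Finset.Icc 1 (x a))).filter (fun q => ¬ P A i j (fun a => c₀ a + (c a + s' a (q a)))))
        (Finset.filter_subset _ _) (by
        intro q hq
        exact (Finset.mem_filter.1 hq).2)
      rw [← hN] at h1
      refine (fiber_pi (Finset.Icc (-(RR B (t j))) (RR B (t j))) s' x (fun a => pp (μ a) (t j)) (fun a => pp_nonneg (μ a) (t j))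
        (fun a => (M a : ℝ)) hM0 hfib (fun y => ¬ P A i j (fun a => c₀ a + (c a + y a)))).trans ?_
      have hMp : 0 < ∏ a, (M a : ℝ) := Finset.prod_pos fun a _ => hM0 a
      rw [div_le_div_iff₀ hMp (by positivity)]
      have hxp : ∏ a, (x a : ℝ) ≤ 2 ^ k * ∏ a, (M a : ℝ) := by
        calc ∏ a, (x a : ℝ) ≤ ∏ a, (2 * (M a : ℝ)) := Finset.prod_le_prod (fun a _ => (hx0 a).le) (fun a _ => by exact_mod_cast hxM a)
          _ = _ := by rw [Finset.prod_mul_distrib, Finset.prod_const, Finset.card_univ, Fintype.card_fin]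
      have h4 := h1.trans (div_le_div_of_nonneg_left (Finset.prod_nonneg fun a _ => (hx0 a).le) (by positivity)
        (pow_le_pow_left₀ hlt.le hlogN U))
      rw [le_div_iff₀ (by positivity)] at h4
      exact h4.trans hxp
    have hnear := near_pi μ (t j) (RR B (t j)) (fun a => RR_ae (μ a) B (t j) htj0.le (hsup a)) C'
      (fun y => ¬ P A i j (fun a => c₀ a + y a)) (2 ^ k / Real.log (t j) ^ U) hq
    refine (measure_mono ?_).trans (hnear.trans (ENNReal.ofReal_le_ofReal ?_))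
    · rintro α ⟨β, hβ, hβ2⟩
      refine ⟨fun a => β a - c₀ a, ?_, fun a => ?_⟩
      · have : (fun a => c₀ a + (β a - c₀ a)) = β := by
          funext a
          ring
        rw [this]
        exact hβ
      · have h5 := abs_le.1 (hβ2 a)
        have h6 : |((β a - c₀ a : ℤ) : ℝ) - t j * α a| ≤ Real.log (t j) ^ A + 1 := by
          push_cast
          apply abs_le.2
          constructor <;> linarith [h5.1, h5.2, hc₀1 a, hc₀2 a]
        linarith
    · have hCard : (((Finset.Icc (-C') C').card : ℕ) : ℝ) ≤ Real.log (t j) ^ (A + 1) := by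
        have hC0 : 0 ≤ C' := by
          have : (0 : ℝ) ≤ C' := by linarith
          exact_mod_cast this
        have h5 : (((Finset.Icc (-C') C').card : ℕ) : ℤ) = 2 * C' + 1 := by
          rw [Int.card_Icc]
          omega
        have h6 : (((Finset.Icc (-C') C').card : ℕ) : ℝ) = 2 * C' + 1 := by exact_mod_cast h5
        rw [h6, pow_succ]
        nlinarith
      push_cast
      have h5 : (((Finset.Icc (-C') C').card : ℕ) : ℝ) ^ k ≤ Real.log (t j) ^ ((A + 1) * k) := by
        rw [pow_mul]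
        exact pow_le_pow_left₀ (Nat.cast_nonneg _) hCard k
      calc (((Finset.Icc (-C') C').card : ℕ) : ℝ) ^ k * (2 ^ k / Real.log (t j) ^ U) ≤
          Real.log (t j) ^ ((A + 1) * k) * (2 ^ k / Real.log (t j) ^ U) := mul_le_mul_of_nonneg_right h5 (by positivity)
        _ = (2 ^ k / Real.log (t j)) * (1 / Real.log (t j) ^ V) := by
            rw [hU, pow_succ, pow_add]
            field_simp
        _ ≤ 1 * (1 / Real.log (t j) ^ V) := by
            apply mul_le_mul_of_nonneg_right _ (by positivity)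
            rw [div_le_one hlt]
            linarith
        _ = _ := one_mul _)
  filter_upwards [hmain] with α hα
  refine hα.subset ?_
  intro j hj
  rw [Set.mem_ofPred_eq] at hj ⊢
  push Not at hj
  obtain ⟨β, hn1, hn2⟩ := hj
  exact ⟨β, hn2, hn1⟩

/-- several dimensions, all powers of the logarithm -/
theorem abs_pi (B C σ : ℝ) (hB : 0 < B) (hσ : 0 < σ) (μ : Fin k → Measure ℝ) [∀ i, IsProbabilityMeasure (μ i)]
    (hdec : ∀ i, ∀ ξ : ℝ, 1 ≤ |ξ| → ‖charFun (μ i) ξ‖ ≤ C * |ξ| ^ (-σ)) (hsup : ∀ i, ∀ᵐ α ∂(μ i), |α| ≤ B)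
    {J : Type} (t : J → ℝ) (s : J → Fin k → ℝ) (ht2 : ∀ j, 2 ≤ t j) (V : ℕ) (hT : Summable fun j => 1 / Real.log (t j) ^ V)
    (hs : ∀ j a, |s j a| ≤ B * t j) (p : ℕ) (hp1 : 1 ≤ p) (hp : 1 ≤ p * σ) (B₁ : ℕ) (hB₁ : 2 * B + 16 ≤ B₁)
    (P : ℕ → J → (Fin k → ℤ) → Prop)
    (H : ∀ i U : ℕ, ∃ t₀ : ℝ, ∀ j, t₀ ≤ t j → ∀ (x : Fin k → ℕ) (v : Fin k → ℕ → ℤ),
      (∀ a, ∀ m ∈ Finset.Icc 1 (x a), |v a m| ≤ B₁ * (⌈t j⌉₊ : ℤ)) →
      (∀ a, (energy p (x a) (v a) : ℝ) * (⌈t j⌉₊ : ℝ) ≤ Real.log (⌈t j⌉₊ : ℝ) * (x a : ℝ) ^ (2 * p)) →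
      ∀ 𝒮 : Finset (Fin k → ℕ), 𝒮 ⊆ Fintype.piFinset (fun a => Finset.Icc 1 (x a)) →
      (∀ q ∈ 𝒮, ¬ P i j (fun a => v a (q a))) → (𝒮.card : ℝ) ≤ (∏ a, (x a : ℝ)) / Real.log (⌈t j⌉₊ : ℝ) ^ U) :
    ∀ᵐ α ∂(Measure.pi μ), ∀ A i : ℕ,
      {j | ¬ ∀ β : Fin k → ℤ, (∀ a, |(β a : ℝ) - (t j * α a + s j a)| ≤ Real.log (t j) ^ A) → P i j β}.Finite :=
  abs_pi' B C σ hB hσ μ hdec hsup t s ht2 V hT hs p hp1 hp B₁ hB₁ (fun _ => P) (fun A i => H i (V + (A + 1) * k + 1))

end Pool.Agent.V11290.FD
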