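import Pool.Agent.V11290.FD.Lev
import Pool.Agent.TH872.An3

set_option autoImplicit false

/-! Goldbach pairs in all windows, for the even numbers near `t α + s`. -/

namespace Pool.Agent.V11290.FD
open MeasureTheory Filter
open Pool.Agent.W93.PG (WinP)

open Pool.Agent.W93.AU Pool.Agent.TH872.An in
theorem win_fin (a B C σ : ℝ) (ha : 0 < a) (haB : a ≤ B) (hσ : 0 < σ) (U A W : ℕ) (ε : ℝ) (hε : 0 < ε) :
    ∃ t₀ : ℝ, ∀ (μ : Measure ℝ) [IsProbabilityMeasure μ], (∀ ξ : ℝ, 1 ≤ |ξ| → ‖charFun μ ξ‖ ≤ C * |ξ| ^ (-σ)) →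
    (∀ᵐ α ∂μ, a ≤ α ∧ α ≤ B) → ∀ t S : ℝ, t₀ ≤ t → 0 ≤ S → S ≤ B * t →
    ∀ c : ℤ, |(c : ℝ) - S| ≤ Real.log t ^ A + 2 → ∀ Bad : ℤ → Prop, [DecidablePred Bad] →
    (∀ n : ℤ, Bad n → 0 < n ∧ 2 ∣ n ∧ ¬ WinP ε W n.toNat) →
    ∑ y ∈ Finset.Icc (-(RR B t)) (RR B t), (if Bad (c + y) then pp μ t y else 0) ≤ 1 / Real.log t ^ U := by
  classical
  have hB : 0 < B := by linarith
  obtain ⟨M, hM⟩ : ∃ M : ℝ, M = 8 * (3 * B + 8) := ⟨_, rfl⟩
  obtain ⟨V, hV⟩ := windows_any 2 1 U W 0 1 le_rfl le_rfl ε hε (WinP ε W) (fun m _ _ h => h)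
  obtain ⟨D, K0, hlaw⟩ := law_fd M C σ (by linarith) hσ V
  obtain ⟨K1, hgl⟩ := hV D
  obtain ⟨t1, ht1⟩ := log_pow_le A (a / 8) (by positivity)
  obtain ⟨R0, hR0⟩ := exists_nat_ge (4 * M / a + 1)
  obtain ⟨t₀, ht₀⟩ := scale B hB A (K0 + K1 + R0)
  refine ⟨max (max t₀ t1) (32 / a), fun μ _ hdec hsup t S ht hS0 hS1 c hc Bad _ hBad => ?_⟩
  have q1 : t₀ ≤ t := ((le_max_left _ _).trans (le_max_left _ _)).trans ht
  have q2 : t1 ≤ t := ((le_max_right _ _).trans (le_max_left _ _)).trans ht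
  have q4 : 32 / a ≤ t := (le_max_right _ _).trans ht
  obtain ⟨K, hKge, hK2, ht1', hup, hlogK, hlog1, htK, _, hBt1, hrange⟩ := ht₀ t q1
  rw [← hM] at hup
  have hsupB : ∀ᵐ α ∂μ, |α| ≤ B := by
    filter_upwards [hsup] with α hα
    rw [abs_of_nonneg (by linarith)]
    exact hα.2
  have hRae := RR_ae μ B t (by linarith) hsupB
  have hLw := hlaw K (by omega) μ hdec t hup (RR B t) hRae c
  have hlogt : 0 < Real.log t := by linarith
  have hKpos : (0 : ℝ) < K := by linarith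
  have hlogA := ht1 t q2
  have hat : 32 ≤ a * t := by
    rw [div_le_iff₀ ha] at q4
    linarith
  have hrg := hrange S (by rwa [abs_of_nonneg hS0]) c hc
  have hKr : (4 * M / a + 1 : ℝ) ≤ K := hR0.trans (by exact_mod_cast (by omega : R0 ≤ K))
  have hlog2K : (K : ℝ) / 2 ≤ Real.log (((2 : ℕ) ^ K : ℕ) : ℝ) := by
    push_cast
    rw [Real.log_pow]
    nlinarith [Real.log_two_gt_d9]
  have hM64 : 64 ≤ M := by rw [hM]; linarith
  have hSm0 : ∀ y : ℤ, (((c + y : ℤ) : ℤ) : ℝ) < ((2 ^ K : ℕ) : ℝ) / Real.log ((2 ^ K : ℕ) : ℝ) ^ 1 → pp μ t y = 0 := by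
    intro y hy
    apply pp_zero μ a t (by linarith) (by filter_upwards [hsup] with α hα using hα.1)
    rw [pow_one] at hy
    have h1 : ((2 ^ K : ℕ) : ℝ) / Real.log ((2 ^ K : ℕ) : ℝ) ≤ a * t / 2 := by
      have h2 : 0 < Real.log ((2 ^ K : ℕ) : ℝ) := lt_of_lt_of_le (by positivity) hlog2K
      rw [div_le_iff₀ h2]
      have h3 : (2 * M / a : ℝ) ≤ Real.log ((2 ^ K : ℕ) : ℝ) := by
        refine le_trans ?_ hlog2K
        have : 2 * M / a = (4 * M / a) / 2 := by ring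
        rw [this]
        linarith
      rw [div_le_iff₀ ha] at h3
      push_cast
      push_cast at h3
      have h4 : t * (2 * M) ≤ t * (Real.log ((2 : ℝ) ^ K) * a) := mul_le_mul_of_nonneg_left h3 (by linarith)
      linarith
    push_cast at hy h1
    have h2 : -(Real.log t ^ A + 2) ≤ (c : ℝ) := by
      have := (abs_le.1 hc).1
      linarith
    linarith
  have hfin := hgl K (by omega) ℤ (Finset.Icc (-(RR B t)) (RR B t)) (pp μ t) (fun y => c + y) hLw (by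
      intro y hy
      obtain ⟨h1, h2⟩ := hrg y hy
      have h3 : (((2 : ℕ) ^ (K - 1) : ℕ) : ℤ) < (((2 : ℕ) ^ K : ℕ) : ℤ) := by
        exact_mod_cast Nat.pow_lt_pow_right (by norm_num) (by omega)
      rw [abs_lt]
      exact ⟨h1, lt_of_le_of_lt h2 h3⟩) (by
      intro Sm _ hSm
      have h0 : ∑ ω ∈ Finset.Icc (-(RR B t)) (RR B t), (if Sm ω then pp μ t ω else 0) = 0 := by
        apply Finset.sum_eq_zero
        intro y hy
        split_ifs with h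
        · exact hSm0 y (hSm y hy h).2
        · rfl
      rw [h0]
      positivity) (fun y => Bad (c + y)) (by
      intro y _ h
      obtain ⟨h1, h2, h3⟩ := hBad _ h
      exact ⟨h1, even_iff_two_dvd.2 h2, h3⟩)
  refine hfin.trans ?_
  exact one_div_le_one_div_of_le (by positivity) (pow_le_pow_left₀ hlogt.le hlogK U)

lemma winP_mono (ε ε' : ℝ) (A A' m : ℕ) (hε : ε ≤ ε') (hA : A' ≤ A) (hm : 3 ≤ m) (h : WinP ε A m) : WinP ε' A' m := by
  intro y₁ y₂ h12 hy2 hlen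
  have hm3 : (3 : ℝ) ≤ m := by exact_mod_cast hm
  have hlog : 1 ≤ Real.log m := by
    rw [Real.le_log_iff_exp_le (by linarith)]
    linarith [Real.exp_one_lt_d9]
  have h1 := h y₁ y₂ h12 hy2 (by
    refine le_trans ?_ hlen
    apply div_le_div_of_nonneg_left (by linarith) (by positivity)
    exact pow_le_pow_right₀ hlog hA)
  refine h1.trans ?_
  apply mul_le_mul_of_nonneg_right hε
  have h2 := Pool.Agent.W93.GB.one_le_sing m
  have h3 : (0 : ℝ) < (y₂ : ℝ) - y₁ := by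
    have : (y₁ : ℝ) < y₂ := by exact_mod_cast h12
    linarith
  positivity

theorem win_ae (a B C σ : ℝ) (ha : 0 < a) (hσ : 0 < σ) (μ : Measure ℝ) [IsProbabilityMeasure μ]
    (hdec : ∀ ξ : ℝ, 1 ≤ |ξ| → ‖charFun μ ξ‖ ≤ C * |ξ| ^ (-σ)) (hsup : ∀ᵐ α ∂μ, a ≤ α ∧ α ≤ B)
    {J : Type} (T S : J → ℝ) (hT2 : ∀ j, 2 ≤ T j) (V : ℕ) (hT : Summable fun j => 1 / Real.log (T j) ^ V)
    (hS : ∀ j, 0 ≤ S j ∧ S j ≤ B * T j) :
    ∀ᵐ α ∂μ, ∀ (A W : ℕ) (ε : ℝ), 0 < ε →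
      {j | ∃ n : ℕ, 3 ≤ n ∧ 2 ∣ n ∧ |(n : ℝ) - (T j * α + S j)| ≤ Real.log (T j) ^ A ∧ ¬ WinP ε W n}.Finite := by
  classical
  have hne : a ≤ B := by
    obtain ⟨α, hα⟩ := hsup.exists
    linarith [hα.1, hα.2]
  have hsupB : ∀ᵐ α ∂μ, |α| ≤ B := by
    filter_upwards [hsup] with α hα
    rw [abs_of_nonneg (by linarith)]
    exact hα.2
  have h := bc_shift μ B hsupB T S hT2 V hT (fun i j n => 0 < n ∧ 2 ∣ n ∧ ¬ WinP (1 / ((i : ℝ) + 1)) i n.toNat) (by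
    intro A i
    obtain ⟨t₀, h0⟩ := win_fin a B C σ ha hne hσ (V + A) A i (1 / ((i : ℝ) + 1)) (by positivity)
    exact ⟨t₀, fun j ht c hc => h0 μ hdec hsup (T j) (S j) ht (hS j).1 (hS j).2 c hc _ (fun n hn => hn)⟩)
  filter_upwards [h] with α hα A W ε hε
  obtain ⟨i, hi⟩ := exists_nat_gt (1 / ε)
  refine (hα A (i + W)).subset ?_
  rintro j ⟨n, hn0, hn2, hn3, hn4⟩
  refine ⟨n, ⟨by omega, by exact_mod_cast hn2, fun hc => hn4 ?_⟩, by exact_mod_cast hn3⟩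
  rw [Int.toNat_natCast] at hc
  refine winP_mono _ _ _ _ n ?_ (by omega) hn0 hc
  rw [div_lt_iff₀ hε] at hi
  push_cast
  rw [div_le_iff₀ (by positivity)]
  have : (0 : ℝ) ≤ W := Nat.cast_nonneg W
  nlinarith

/-- only finitely many of the `t j` are small -/
lemma small_fin {J : Type} (t : J → ℝ) (ht : ∀ j, 2 ≤ t j) (V : ℕ) (hV : Summable fun j => 1 / Real.log (t j) ^ V) (x : ℝ) :
    {j | t j < x}.Finite := by
  obtain ⟨y, hy⟩ : ∃ y, y = max x 2 := ⟨_, rfl⟩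
  have hy2 : 2 ≤ y := by rw [hy]; exact le_max_right _ _
  have hxy : x ≤ y := by rw [hy]; exact le_max_left _ _
  have hly : 0 < Real.log y := Real.log_pos (by linarith)
  have h3 := hV.tendsto_cofinite_zero
  have h4 := h3.eventually (gt_mem_nhds (show (0 : ℝ) < 1 / Real.log y ^ V by positivity))
  rw [Filter.eventually_cofinite] at h4
  refine h4.subset ?_
  intro j hj
  rw [Set.mem_ofPred_eq] at hj ⊢
  rw [not_lt]
  have h5 : 0 < Real.log (t j) := Real.log_pos (by linarith [ht j])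
  have h6 : Real.log (t j) ≤ Real.log y := Real.log_le_log (by linarith [ht j]) (by linarith)
  exact one_div_le_one_div_of_le (by positivity) (pow_le_pow_left₀ h5.le h6 V)

end Pool.Agent.V11290.FD
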