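import Pool.Agent.V11290.FD.Fam2
import Pool.Agent.V11290.FD.Win

set_option autoImplicit false

/-! A convenient form of the theorem in one dimension. -/

namespace Pool.Agent.V11290.FD
open MeasureTheory Filter
open Pool.Agent.H373R2.T7 (energy)

theorem abs_box (μ : Measure ℝ) [IsProbabilityMeasure μ] (B : ℝ) (hμ : ∀ᵐ α ∂μ, |α| ≤ B)
    (C σ : ℝ) (hσ : 0 < σ) (hdec : ∀ ξ : ℝ, 1 ≤ |ξ| → ‖charFun μ ξ‖ ≤ C * |ξ| ^ (-σ))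
    {J : Type} (t s : J → ℝ) (ht : ∀ j, 2 ≤ t j) (hs : ∀ j, |s j| ≤ B * t j)
    (V : ℕ) (hV : Summable fun j => 1 / Real.log (t j) ^ V) (B₀ M : ℕ) (hM : 1 ≤ M) (hBM : 2 * (|B| + 1) + 8 ≤ B₀ * M)
    (P : ℕ → J → ℤ → Prop)
    (H : ∀ i p U : ℕ, 1 ≤ p → ∃ N₀ : ℕ, ∀ j, N₀ ≤ M * ⌈t j⌉₊ → ∀ (x : ℕ) (v : ℕ → ℤ), 1 ≤ x →
      (∀ m ∈ Finset.Icc 1 x, |v m| ≤ B₀ * ((M * ⌈t j⌉₊ : ℕ) : ℤ)) →
      (energy p x v : ℝ) * ((M * ⌈t j⌉₊ : ℕ) : ℝ) ≤ Real.log ((M * ⌈t j⌉₊ : ℕ) : ℝ) ^ 2 * (x : ℝ) ^ (2 * p) →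
      ∀ 𝒮 : Finset ℕ, 𝒮 ⊆ Finset.Icc 1 x → (∀ m ∈ 𝒮, ¬ P i j (v m)) →
      (𝒮.card : ℝ) ≤ x / Real.log ((M * ⌈t j⌉₊ : ℕ) : ℝ) ^ U) :
    ∀ᵐ α ∂μ, ∀ A i : ℕ, {j | ¬ ∀ n : ℤ, |(n : ℝ) - (t j * α + s j)| ≤ Real.log (t j) ^ A → P i j n}.Finite := by
  classical
  obtain ⟨p, hp⟩ := exists_nat_ge (1 / σ)
  have hpσ : 1 ≤ ((p + 1 : ℕ) : ℝ) * σ := by
    rw [div_le_iff₀ hσ] at hp
    push_cast
    nlinarith
  refine abs_one (|B| + 1) C σ (by positivity) hσ μ hdec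
    (by
      filter_upwards [hμ] with α hα
      linarith [le_abs_self B]) t s ht V hV (fun j => (hs j).trans (by nlinarith [ht j, le_abs_self B])) (p + 1) (by omega) hpσ
    (B₀ * M) (by push_cast; exact hBM) P ?_
  intro i U
  obtain ⟨N₀, h0⟩ := H i (p + 1) U (by omega)
  refine ⟨max N₀ (Real.exp (M + 1)), fun j hj x v hx hv hE 𝒮 h𝒮 hbad => ?_⟩
  have htj2 := ht j
  obtain ⟨Q, hQ⟩ : ∃ Q : ℕ, Q = ⌈t j⌉₊ := ⟨_, rfl⟩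
  have hN1 : t j ≤ (Q : ℝ) := by rw [hQ]; exact Nat.le_ceil _
  rw [← hQ] at hv hE ⊢
  have hQM : Q ≤ M * Q := Nat.le_mul_of_pos_left _ hM
  have hQMr : (Q : ℝ) ≤ ((M * Q : ℕ) : ℝ) := by exact_mod_cast hQM
  have hNQ : N₀ ≤ M * Q := by
    have : (N₀ : ℝ) ≤ ((M * Q : ℕ) : ℝ) := (((le_max_left _ _).trans hj).trans hN1).trans hQMr
    exact_mod_cast this
  have hlogt : (M : ℝ) + 1 ≤ Real.log (t j) := by
    rw [Real.le_log_iff_exp_le (by linarith)]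
    exact (le_max_right _ _).trans hj
  have hM0 : (0 : ℝ) ≤ M := Nat.cast_nonneg _
  have hlog1 : Real.log (t j) ≤ Real.log Q := Real.log_le_log (by linarith) hN1
  have hlog2 : Real.log Q ≤ Real.log ((M * Q : ℕ) : ℝ) := Real.log_le_log (by linarith) hQMr
  have h1 := h0 j (by rw [← hQ]; exact hNQ) x v hx (fun m hm => by
      rw [← hQ]
      refine (hv m hm).trans (le_of_eq ?_)
      push_cast
      ring) (by
      rw [← hQ]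
      calc (energy (p + 1) x v : ℝ) * ((M * Q : ℕ) : ℝ) = M * (energy (p + 1) x v * Q) := by push_cast; ring
        _ ≤ M * (Real.log Q * (x : ℝ) ^ (2 * (p + 1))) := mul_le_mul_of_nonneg_left hE hM0
        _ = (M * Real.log Q) * (x : ℝ) ^ (2 * (p + 1)) := by ring
        _ ≤ _ := by
            apply mul_le_mul_of_nonneg_right _ (by positivity)
            rw [sq]
            exact mul_le_mul (by linarith) hlog2 (by linarith) (by linarith)) 𝒮 h𝒮 hbad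
  rw [← hQ] at h1
  refine h1.trans ?_
  have hQ0 : 0 < Real.log (Q : ℝ) := by linarith
  apply div_le_div_of_nonneg_left (Nat.cast_nonneg _) (by positivity)
  exact pow_le_pow_left₀ (by linarith) hlog2 U

lemma ceil_large (M : ℕ) (hM : 1 ≤ M) (t₁ : ℝ) : ∃ N₁ : ℕ, ∀ t : ℝ, N₁ ≤ M * ⌈t⌉₊ → t₁ ≤ t := by
  refine ⟨M * (⌈t₁⌉₊ + 1), fun t ht => ?_⟩
  have h1 : ⌈t₁⌉₊ + 1 ≤ ⌈t⌉₊ := Nat.le_of_mul_le_mul_left ht (by omega)
  have h2 : (⌈t₁⌉₊ : ℝ) < t := by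
    by_contra hcon
    push Not at hcon
    have := Nat.ceil_le.2 hcon
    omega
  linarith [Nat.le_ceil t₁]

end Pool.Agent.V11290.FD
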