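import Pool.Agent.V11290.FD.Gold
import Pool.Agent.W93.AU13

set_option autoImplicit false

/-! Correlations with a nice function at the shifts near `t α + s`. -/

namespace Pool.Agent.V11290.FD
open MeasureTheory Filter

open Pool.Agent.W93.AU Pool.Agent.W93.LM Pool.Agent.H373R2.T7 in
theorem corr_fin (f : ℕ → ℂ) (hf : Nice f) (B C σ : ℝ) (hB : 0 < B) (hσ : 0 < σ) (T U U' A : ℕ) :
    ∃ t₀ : ℝ, ∀ (μ : Measure ℝ) [IsProbabilityMeasure μ], (∀ ξ : ℝ, 1 ≤ |ξ| → ‖charFun μ ξ‖ ≤ C * |ξ| ^ (-σ)) →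
    (∀ᵐ α ∂μ, |α| ≤ B) → ∀ t S : ℝ, t₀ ≤ t → |S| ≤ B * t →
    ∀ c : ℤ, |(c : ℝ) - S| ≤ Real.log t ^ A + 2 → ∀ L : ℕ, (L : ℝ) ≤ Real.log t ^ T →
    ∀ g : ℕ → ℕ → ℂ, (∀ l < L, ∀ n : ℕ, 1 ≤ n → (n : ℝ) ≤ B * t → ‖g l n‖ ≤ Real.log t ^ T) →
    ∀ Bad : ℤ → Prop, [DecidablePred Bad] →
    (∀ h : ℤ, Bad h → ∃ l < L, ∃ N : ℕ, (N : ℝ) ≤ B * t ∧
      t / Real.log t ^ U < ‖∑ n ∈ Finset.Icc 1 N, g l n * exI f ((n : ℤ) + h)‖) →
    ∑ y ∈ Finset.Icc (-(RR B t)) (RR B t), (if Bad (c + y) then pp μ t y else 0) ≤ 1 / Real.log t ^ U' := by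
  classical
  obtain ⟨M, hM⟩ : ∃ M : ℝ, M = 3 * B + 8 := ⟨_, rfl⟩
  obtain ⟨W, hW⟩ : ∃ W, W = U + U' + 1 := ⟨_, rfl⟩
  obtain ⟨D, K0, hlaw⟩ := law_fd (4 * M) C σ (by linarith) hσ (4 * W + 4 * T + 1 + 6)
  obtain ⟨K1, hgl⟩ := lmg_prob 2 1 le_rfl le_rfl f hf T W D
  obtain ⟨t1, ht1⟩ := log_pow_le A 1 one_pos
  obtain ⟨R0, hR0⟩ := exists_nat_ge (4 * M)
  refine ⟨max (max t1 (4 * M)) (Real.exp (K0 + K1 + R0 : ℕ)), fun μ _ hdec hsupB t S ht hS c hc L hL g hg Bad _ hBad => ?_⟩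
  have q1 : t1 ≤ t := ((le_max_left _ _).trans (le_max_left _ _)).trans ht
  have q2 : 4 * M ≤ t := ((le_max_right _ _).trans (le_max_left _ _)).trans ht
  have q3 : Real.exp (K0 + K1 + R0 : ℕ) ≤ t := (le_max_right _ _).trans ht
  have hM8 : 8 ≤ M := by linarith
  have ht32 : 32 ≤ t := by linarith
  have hlogp := ht1 t q1
  rw [one_mul] at hlogp
  obtain ⟨K, hK⟩ : ∃ K, K = KK M t := ⟨_, rfl⟩
  have hKge : K0 + K1 + R0 ≤ K := by
    rw [hK]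
    exact KK_ge M t _ (by linarith) q3
  have hlow : M * t ≤ (2 : ℝ) ^ K := by rw [hK]; exact KK_lower M t
  have hup : (2 : ℝ) ^ K ≤ 4 * M * t := by
    rw [hK]
    exact KK_upper M t (by nlinarith)
  have hRae := RR_ae μ B t (by linarith) hsupB
  have hLw := hlaw K (by omega) μ hdec t hup (RR B t) hRae c
  have hRle : (RR B t : ℝ) ≤ B * t + 2 := by
    unfold RR
    have := (Int.ceil_lt_add_one (B * t + 1)).le
    linarith
  have hcabs : |(c : ℝ)| ≤ B * t + t + 2 := by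
    have h1 : |(c : ℝ)| ≤ |(c : ℝ) - S| + |S| := by
      have := abs_add_le ((c : ℝ) - S) S
      rwa [sub_add_cancel] at this
    linarith
  have hBt : 0 ≤ B * t := by positivity
  have hMt : M * t = 3 * (B * t) + 8 * t := by rw [hM]; ring
  obtain ⟨Q, hQ⟩ : ∃ Q, Q = ⌊B * t⌋₊ := ⟨_, rfl⟩
  have hQle : (Q : ℝ) ≤ B * t := by rw [hQ]; exact Nat.floor_le hBt
  have hlogt : 0 < Real.log t := Real.log_pos (by linarith)
  have hlogK : Real.log t ≤ K := by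
    rw [hK]
    exact KK_log M t (by linarith) (by linarith)
  have hKpos : (0 : ℝ) < K := by linarith
  have hKr : 4 * M ≤ (K : ℝ) := hR0.trans (by exact_mod_cast (by omega : R0 ≤ K))
  have hfin := hgl K (by omega) ℤ (Finset.Icc (-(RR B t)) (RR B t)) (pp μ t) (fun y => c + y) hLw Q (by
      intro y hy
      rw [Finset.mem_Icc] at hy
      have h1 : (y : ℝ) ≤ RR B t := by exact_mod_cast hy.2
      have h2 : -(RR B t : ℝ) ≤ y := by exact_mod_cast hy.1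
      have h3 := abs_le.1 hcabs
      constructor
      · have h4 : -((2 : ℝ) ^ K) < ((c + y : ℤ) : ℝ) := by
          push_cast
          linarith [h3.1]
        exact_mod_cast h4
      · have h4 : (Q : ℝ) + ((c + y : ℤ) : ℝ) ≤ (2 : ℝ) ^ K := by
          push_cast
          linarith [h3.2]
        exact_mod_cast h4) (by
      have h4 : (Q : ℝ) ≤ (2 : ℝ) ^ K := by linarith
      exact_mod_cast h4) L (hL.trans (pow_le_pow_left₀ hlogt.le hlogK T)) g (by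
      intro l hl n hn1 hn2
      have h1 : (n : ℝ) ≤ B * t := by
        have : (n : ℝ) ≤ Q := by exact_mod_cast hn2
        linarith
      exact (hg l hl n hn1 h1).trans (pow_le_pow_left₀ hlogt.le hlogK T))
    (fun y => Bad (c + y)) (by
      intro y _ hb
      obtain ⟨l, hl, N, hN, hlt⟩ := hBad _ hb
      refine ⟨l, hl, N, ?_, lt_of_le_of_lt ?_ hlt⟩
      · rw [hQ]
        exact Nat.le_floor hN
      · push_cast
        rw [div_le_div_iff₀ (by positivity) (by positivity)]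
        have h1 : Real.log t ^ U ≤ (K : ℝ) ^ U := pow_le_pow_left₀ hlogt.le hlogK U
        have h2 : (4 * M) * (K : ℝ) ^ U ≤ (K : ℝ) ^ W := by
          have h3 : (K : ℝ) ^ W = (K : ℝ) ^ U * ((K : ℝ) ^ U' * K) := by rw [hW]; ring
          rw [h3]
          have h4 : (1 : ℝ) ≤ (K : ℝ) ^ U' := one_le_pow₀ (by linarith)
          have h5 : 4 * M ≤ (K : ℝ) ^ U' * K := by nlinarith
          have h6 : 0 ≤ (K : ℝ) ^ U := by positivity
          nlinarith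
        calc (2 : ℝ) ^ K * Real.log t ^ U ≤ (4 * M * t) * (K : ℝ) ^ U := mul_le_mul hup h1 (by positivity) (by positivity)
          _ = t * (4 * M * (K : ℝ) ^ U) := by ring
          _ ≤ t * (K : ℝ) ^ W := mul_le_mul_of_nonneg_left h2 (by linarith))
  refine hfin.trans ?_
  have h1 : Real.log t ^ U' ≤ (K : ℝ) ^ W := by
    refine (pow_le_pow_left₀ hlogt.le hlogK U').trans ?_
    exact pow_le_pow_right₀ (by linarith) (by omega)
  exact one_div_le_one_div_of_le (by positivity) h1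

open Pool.Agent.W93.LM Pool.Agent.H373R2.T7 in
theorem corr_ae (f : ℕ → ℂ) (hf : Nice f) (B C σ : ℝ) (hB : 0 < B) (hσ : 0 < σ) (μ : Measure ℝ) [IsProbabilityMeasure μ]
    (hdec : ∀ ξ : ℝ, 1 ≤ |ξ| → ‖charFun μ ξ‖ ≤ C * |ξ| ^ (-σ)) (hsup : ∀ᵐ α ∂μ, |α| ≤ B)
    {J : Type} (t s : J → ℝ) (ht2 : ∀ j, 2 ≤ t j) (V : ℕ) (hT : Summable fun j => 1 / Real.log (t j) ^ V)
    (hs : ∀ j, |s j| ≤ B * t j) (T : ℕ) (L : J → ℕ) (t₁ : ℝ) (hL : ∀ j, t₁ ≤ t j → (L j : ℝ) ≤ Real.log (t j) ^ T)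
    (g : J → ℕ → ℕ → ℂ)
    (hg : ∀ j, t₁ ≤ t j → ∀ l < L j, ∀ n : ℕ, 1 ≤ n → (n : ℝ) ≤ B * t j → ‖g j l n‖ ≤ Real.log (t j) ^ T) :
    ∀ᵐ α ∂μ, ∀ A U : ℕ,
      {j | ¬ ∀ h : ℤ, |(h : ℝ) - (t j * α + s j)| ≤ Real.log (t j) ^ A → ∀ l < L j, ∀ N : ℕ, (N : ℝ) ≤ B * t j →
        ‖∑ n ∈ Finset.Icc 1 N, g j l n * exI f ((n : ℤ) + h)‖ ≤ t j / Real.log (t j) ^ U}.Finite := by
  classical
  have h := bc_shift μ B hsup t s ht2 V hT (fun U j h => ∃ l < L j, ∃ N : ℕ, (N : ℝ) ≤ B * t j ∧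
      t j / Real.log (t j) ^ U < ‖∑ n ∈ Finset.Icc 1 N, g j l n * exI f ((n : ℤ) + h)‖) (by
    intro A U
    obtain ⟨t₀, h0⟩ := corr_fin f hf B C σ hB hσ T U (V + A) A
    refine ⟨max t₀ t₁, fun j hj c hc => ?_⟩
    have hj1 : t₀ ≤ t j := (le_max_left _ _).trans hj
    have hj2 : t₁ ≤ t j := (le_max_right _ _).trans hj
    exact h0 μ hdec hsup (t j) (s j) hj1 (hs j) c hc (L j) (hL j hj2) (g j) (hg j hj2) _ (fun n hn => hn))
  filter_upwards [h] with α hα A U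
  refine (hα A U).subset ?_
  intro j hj
  rw [Set.mem_ofPred_eq] at hj ⊢
  push Not at hj
  obtain ⟨n, hn1, l, hl, N, hN, hlt⟩ := hj
  exact ⟨n, ⟨l, hl, N, hN, hlt⟩, hn1⟩

end Pool.Agent.V11290.FD
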