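import Pool.Agent.V11290.FD.Lev

set_option autoImplicit false

/-! Absolute values over all moduli, an average over the residues near `t α + c`. -/

namespace Pool.Agent.V11290.FD
open MeasureTheory Filter

lemma pp_out (μ : Measure ℝ) (B t : ℝ) (ht : 0 ≤ t) (hsup : ∀ᵐ α ∂μ, |α| ≤ B) (y : ℤ) (hy : B * t + 1 ≤ |(y : ℝ)|) :
    pp μ t y = 0 := by
  unfold pp
  have h : (fun α => tent (t * α - y)) =ᵐ[μ] fun _ => (0 : ℝ) := by
    filter_upwards [hsup] with α hα
    unfold tent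
    apply max_eq_left
    have h1 : |t * α| ≤ B * t := by
      rw [abs_mul, abs_of_nonneg ht, mul_comm]
      exact mul_le_mul_of_nonneg_right hα ht
    have h2 : |(y : ℝ)| ≤ |t * α - y| + |t * α| := by
      have := abs_sub (t * α) (t * α - y)
      rw [sub_sub_cancel] at this
      linarith
    linarith
  rw [integral_congr_ae h]
  simp

open Pool.Agent.W93.AU Pool.Agent.TH872.Mir Pool.Agent.TH872.An in
theorem av_fin (B C σ : ℝ) (hB : 0 < B) (hσ : 0 < σ) (T U : ℕ) (ε : ℝ) (hε : 0 < ε) :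
    ∃ t₀ : ℝ, 2 ≤ t₀ ∧ ∀ (μ : Measure ℝ) [IsProbabilityMeasure μ], (∀ ξ : ℝ, 1 ≤ |ξ| → ‖charFun μ ξ‖ ≤ C * |ξ| ^ (-σ)) →
    (∀ᵐ α ∂μ, |α| ≤ B) → ∀ t : ℝ, t₀ ≤ t → ∀ c : ℤ, |(c : ℝ)| ≤ B * t →
    ∀ w : ℤ → ℝ, (∀ a, |w a| ≤ Real.log t ^ T) → ∀ x : ℕ → ℕ, (∀ q, (x q : ℝ) ≤ B * t) → ∀ N : ℕ, (2 * B + 3) * t ≤ N →
    ∑ q ∈ Finset.Icc 1 ⌊t ^ (1 - ε)⌋₊, |∑ a ∈ (Finset.Icc 1 N).filter (fun a => a.Coprime q),
      (∫ α, max 0 (1 - |t * α + c - a|) ∂μ) * (w a * Er (x q) q a)| ≤ t / Real.log t ^ U := by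
  classical
  obtain ⟨M, hM⟩ : ∃ M : ℝ, M = 8 * (3 * B + 8) := ⟨_, rfl⟩
  obtain ⟨V, hV⟩ := av_law 2 1 le_rfl le_rfl ε hε T (U + 1)
  obtain ⟨D, K0, hlaw⟩ := law_fd M C σ (by linarith) hσ V
  obtain ⟨K1, hgl⟩ := hV D
  obtain ⟨R0, hR0⟩ := exists_nat_ge M
  obtain ⟨t₀, ht₀⟩ := scale B hB 0 (K0 + K1 + R0)
  refine ⟨max t₀ 2, le_max_right _ _, fun μ _ hdec hsupB t ht c hc w hw x hx N hN => ?_⟩
  obtain ⟨K, hKge, hK2, ht1, hup, hlogK, hlog1, htK, _, hBt1, hrange⟩ := ht₀ t ((le_max_left _ _).trans ht)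
  rw [← hM] at hup
  have hRae := RR_ae μ B t (by linarith) hsupB
  have hLw := hlaw K (by omega) μ hdec t hup (RR B t) hRae c
  have hlogt : 0 < Real.log t := by linarith
  have hKpos : (0 : ℝ) < K := by linarith
  have hKr : M ≤ (K : ℝ) := hR0.trans (by exact_mod_cast (by omega : R0 ≤ K))
  have hrg := hrange c hc c (by rw [sub_self, abs_zero]; positivity)
  have hmain := hgl K (by omega) ℤ (Finset.Icc (-(RR B t)) (RR B t)) (pp μ t) (fun y => c + y) hLw hrg (fun y => w (c + y))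
    (fun y => (hw _).trans (pow_le_pow_left₀ hlogt.le hlogK T)) x (fun q => by
      have : (x q : ℝ) ≤ (2 : ℝ) ^ (K - 1) := (hx q).trans hBt1
      exact_mod_cast this) ⌊t ^ (1 - ε)⌋₊ (by
      push_cast
      exact floor_rpow t _ ε ht1 htK)
  have hRle : (RR B t : ℝ) ≤ B * t + 2 := by
    unfold RR
    have := (Int.ceil_lt_add_one (B * t + 1)).le
    linarith
  have hRge : B * t + 1 ≤ (RR B t : ℝ) := by
    unfold RR
    exact Int.le_ceil _
  have hcc := abs_le.1 hc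
  have heq : ∀ q, ∑ a ∈ (Finset.Icc 1 N).filter (fun a => a.Coprime q),
      (∫ α, max 0 (1 - |t * α + c - a|) ∂μ) * (w a * Er (x q) q a) =
      ∑ ω ∈ (Finset.Icc (-(RR B t)) (RR B t)).filter (fun ω => 0 < c + ω ∧ (c + ω).toNat.Coprime q),
        pp μ t ω * (w (c + ω) * Er (x q) q (c + ω).toNat) := by
    intro q
    have hpp : ∀ a : ℕ, (∫ α, max 0 (1 - |t * α + c - a|) ∂μ) = pp μ t ((a : ℤ) - c) := by
      intro a
      unfold pp tent
      congr 1
      funext α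
      congr 2
      congr 1
      push_cast
      ring
    symm
    apply Finset.sum_bij_ne_zero (fun ω _ _ => (c + ω).toNat)
    · intro ω hω _
      rw [Finset.mem_filter, Finset.mem_Icc] at hω
      rw [Finset.mem_filter, Finset.mem_Icc]
      refine ⟨⟨by omega, ?_⟩, hω.2.2⟩
      have h1 : (ω : ℝ) ≤ RR B t := by exact_mod_cast hω.1.2
      have h2 : ((c + ω : ℤ) : ℝ) ≤ N := by
        push_cast
        have : (2 * B + 3) * t = 2 * (B * t) + 3 * t := by ring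
        linarith [hcc.2, (le_max_right t₀ 2).trans ht]
      have h3 : c + ω ≤ (N : ℤ) := by exact_mod_cast h2
      omega
    · intro ω hω _ ω' hω' _ h
      rw [Finset.mem_filter] at hω hω'
      omega
    · intro a ha hne
      rw [Finset.mem_filter, Finset.mem_Icc] at ha
      have hne2 : pp μ t ((a : ℤ) - c) ≠ 0 := by
        intro h0
        apply hne
        rw [hpp, h0, zero_mul]
      have hin : |(((a : ℤ) - c : ℤ) : ℝ)| < B * t + 1 := by
        by_contra hcon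
        exact hne2 (pp_out μ B t (by linarith) hsupB _ (not_lt.1 hcon))
      have hin2 := abs_lt.1 hin
      have hmem : (a : ℤ) - c ∈ Finset.Icc (-(RR B t)) (RR B t) := by
        rw [Finset.mem_Icc]
        have e1 : -(RR B t : ℝ) ≤ (((a : ℤ) - c : ℤ) : ℝ) := by linarith [hin2.1]
        have e2 : (((a : ℤ) - c : ℤ) : ℝ) ≤ RR B t := by linarith [hin2.2]
        exact ⟨by exact_mod_cast e1, by exact_mod_cast e2⟩
      have e3 : c + ((a : ℤ) - c) = a := by ring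
      refine ⟨(a : ℤ) - c, ?_, ?_, ?_⟩
      · rw [Finset.mem_filter, e3]
        exact ⟨hmem, by omega, by rw [Int.toNat_natCast]; exact ha.2⟩
      · rw [e3, Int.toNat_natCast, ← hpp]
        exact hne
      · rw [e3, Int.toNat_natCast]
    · intro ω hω _
      rw [Finset.mem_filter] at hω
      have e3 : (((c + ω).toNat : ℕ) : ℤ) = c + ω := Int.toNat_of_nonneg hω.2.1.le
      rw [hpp, e3, add_sub_cancel_left]
  rw [Finset.sum_congr rfl (fun q _ => by rw [heq q])]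
  refine hmain.trans ?_
  push_cast
  rw [div_le_div_iff₀ (by positivity) (by positivity)]
  have h1 : Real.log t ^ U ≤ (K : ℝ) ^ U := pow_le_pow_left₀ hlogt.le hlogK U
  calc (2 : ℝ) ^ K * Real.log t ^ U ≤ (M * t) * (K : ℝ) ^ U := mul_le_mul hup h1 (by positivity) (by nlinarith)
    _ ≤ (K * t) * (K : ℝ) ^ U := by
        apply mul_le_mul_of_nonneg_right _ (by positivity)
        exact mul_le_mul_of_nonneg_right hKr (by linarith)
    _ = t * (K : ℝ) ^ (U + 1) := by ring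

end Pool.Agent.V11290.FD
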