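import Pool.Agent.V11290.FD.Law

set_option autoImplicit false

/-! From the random rounding of `t α` to all integers near `t α`, for almost all `α`. -/

namespace Pool.Agent.V11290.FD
open MeasureTheory Filter

lemma meas_near (μ : Measure ℝ) [IsProbabilityMeasure μ] (t : ℝ) (R : ℤ) (hR : ∀ᵐ α ∂μ, |t * α| + 1 ≤ R) (ρ : ℝ) (hρ : 0 ≤ ρ)
    (Bad : ℤ → Prop) [DecidablePred Bad] (q : ℝ) (hq0 : 0 ≤ q)
    (hq : ∀ c : ℤ, |(c : ℝ)| ≤ ρ + 1 → ∑ y ∈ Finset.Icc (-R) R, (if Bad (c + y) then pp μ t y else 0) ≤ q) :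
    μ {α | ∃ h : ℤ, Bad h ∧ |(h : ℝ) - t * α| ≤ ρ} ≤ ENNReal.ofReal ((2 * ρ + 3) * q) := by
  classical
  obtain ⟨C, hC⟩ : ∃ C : ℤ, C = ⌊ρ + 1⌋ := ⟨_, rfl⟩
  have hC1 : (C : ℝ) ≤ ρ + 1 := by rw [hC]; exact Int.floor_le _
  have hC0 : 0 ≤ C := by rw [hC]; exact Int.floor_nonneg.2 (by linarith)
  obtain ⟨F, hF⟩ : ∃ F : ℤ → ℝ, F = fun y => ∑ c ∈ Finset.Icc (-C) C, (if Bad (c + y) then (1 : ℝ) else 0) := ⟨_, rfl⟩
  obtain ⟨f, hf⟩ : ∃ f : ℝ → ℝ, f = fun α => ∑ y ∈ Finset.Icc (-R) R, tent (t * α - y) • F y := ⟨_, rfl⟩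
  have hF0 : ∀ y, 0 ≤ F y := by
    intro y
    rw [hF]
    apply Finset.sum_nonneg
    intro c _
    split_ifs
    · exact zero_le_one
    · exact le_rfl
  have hf0 : ∀ α, 0 ≤ f α := by
    intro α
    rw [hf]
    exact Finset.sum_nonneg fun y _ => mul_nonneg (tent_nonneg _) (hF0 y)
  have hint : Integrable f μ := by
    rw [hf]
    exact integrable_finsetSum _ fun y _ => (tent_int μ t y).smul_const _
  have hintf : ∫ α, f α ∂μ ≤ (2 * ρ + 3) * q := by
    rw [hf]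
    rw [integral_finsetSum _ (fun y _ => (tent_int μ t y).smul_const _)]
    have h1 : ∀ y ∈ Finset.Icc (-R) R, ∫ α, tent (t * α - y) • F y ∂μ = ∑ c ∈ Finset.Icc (-C) C, (if Bad (c + y) then pp μ t y else 0) := by
      intro y _
      rw [integral_smul_const, hF, smul_eq_mul, Finset.mul_sum]
      apply Finset.sum_congr rfl
      intro c _
      split_ifs
      · rw [mul_one]; rfl
      · rw [mul_zero]
    rw [Finset.sum_congr rfl h1, Finset.sum_comm]
    have h2 : ∀ c ∈ Finset.Icc (-C) C, ∑ y ∈ Finset.Icc (-R) R, (if Bad (c + y) then pp μ t y else 0) ≤ q := by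
      intro c hc
      apply hq
      rw [Finset.mem_Icc] at hc
      have h3 : |c| ≤ C := abs_le.2 hc
      have h4 : |(c : ℝ)| ≤ C := by exact_mod_cast h3
      exact h4.trans hC1
    refine (Finset.sum_le_sum h2).trans ?_
    rw [Finset.sum_const, nsmul_eq_mul, Int.card_Icc]
    apply mul_le_mul_of_nonneg_right _ hq0
    have h5 : ((C + 1 - -C).toNat : ℝ) = 2 * C + 1 := by
      have : ((C + 1 - -C).toNat : ℤ) = 2 * C + 1 := by omega
      exact_mod_cast this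
    rw [h5]
    linarith
  have hsub : {α | ∃ h : ℤ, Bad h ∧ |(h : ℝ) - t * α| ≤ ρ} ≤ᵐ[μ] {α | 1 ≤ f α} := by
    filter_upwards [hR] with α hα hα2
    obtain ⟨h, hb, hh⟩ := hα2
    show 1 ≤ f α
    rw [hf]
    simp only
    obtain ⟨m0, m1⟩ := floor_mem _ R hα
    rw [tent_sum (t * α) _ m0 m1 F]
    have hfl := Int.floor_le (t * α)
    have hfl2 := Int.lt_floor_add_one (t * α)
    have hone : ∀ y : ℤ, |(h : ℝ) - y| ≤ ρ + 1 → 1 ≤ F y := by
      intro y hy
      rw [hF]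
      simp only
      have hmem : h - y ∈ Finset.Icc (-C) C := by
        have h3 : |h - y| ≤ C := by
          rw [hC]
          apply Int.le_floor.2
          push_cast
          exact hy
        rw [Finset.mem_Icc]
        exact abs_le.1 h3
      refine le_trans ?_ (Finset.single_le_sum (f := fun c => if Bad (c + y) then (1 : ℝ) else 0) (fun c _ => by
        split_ifs
        · exact zero_le_one
        · exact le_rfl) hmem)
      rw [sub_add_cancel, if_pos hb]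
    have a0 : 1 ≤ F ⌊t * α⌋ := by
      apply hone
      have := abs_le.1 hh
      apply abs_le.2
      constructor <;> linarith [this.1, this.2]
    have a1 : 1 ≤ F (⌊t * α⌋ + 1) := by
      apply hone
      have := abs_le.1 hh
      push_cast
      apply abs_le.2
      constructor <;> linarith [this.1, this.2]
    have f0 := Int.fract_nonneg (t * α)
    have f1 := Int.fract_lt_one (t * α)
    rw [smul_eq_mul, smul_eq_mul]
    nlinarith
  refine (measure_mono_ae hsub).trans ?_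
  have hmark := mul_meas_ge_le_integral_of_nonneg (μ := μ) (f := f) (Eventually.of_forall hf0) hint 1
  rw [one_mul] at hmark
  rw [← ofReal_measureReal]
  exact ENNReal.ofReal_le_ofReal (hmark.trans hintf)

/-- the radius of the rounding of `t α` -/
noncomputable def RR (B t : ℝ) : ℤ := ⌈B * t + 1⌉

lemma RR_ae (μ : Measure ℝ) (B t : ℝ) (ht : 0 ≤ t) (h : ∀ᵐ α ∂μ, |α| ≤ B) : ∀ᵐ α ∂μ, |t * α| + 1 ≤ RR B t := by
  filter_upwards [h] with α hα
  have h1 := Int.le_ceil (B * t + 1)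
  rw [abs_mul, abs_of_nonneg ht]
  unfold RR
  nlinarith

/-- the lemma of Borel and Cantelli -/
theorem bc (μ : Measure ℝ) [IsProbabilityMeasure μ] (B : ℝ) (hsup : ∀ᵐ α ∂μ, |α| ≤ B) {J : Type} (T : J → ℝ)
    (hT2 : ∀ j, 2 ≤ T j) (V : ℕ) (hT : Summable fun j => 1 / Real.log (T j) ^ V) (Bad : ℕ → J → ℤ → Prop)
    [∀ i t, DecidablePred (Bad i t)]
    (h : ∀ A i : ℕ, ∃ t₀ : ℝ, ∀ j, t₀ ≤ T j → ∀ c : ℤ, |(c : ℝ)| ≤ Real.log (T j) ^ A + 1 →
      ∑ y ∈ Finset.Icc (-(RR B (T j))) (RR B (T j)), (if Bad i j (c + y) then pp μ (T j) y else 0) ≤ 1 / Real.log (T j) ^ (V + A)) :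
    ∀ᵐ α ∂μ, ∀ A i : ℕ, {j | ∃ n : ℤ, Bad i j n ∧ |(n : ℝ) - T j * α| ≤ Real.log (T j) ^ A}.Finite := by
  rw [ae_all_iff]
  intro A
  rw [ae_all_iff]
  intro i
  obtain ⟨t₀, h0⟩ := h A i
  obtain ⟨t₁, ht₁⟩ : ∃ t₁, t₁ = max t₀ (Real.exp 1) := ⟨_, rfl⟩
  have ht1e : Real.exp 1 ≤ t₁ := by rw [ht₁]; exact le_max_right _ _
  have ht10 : t₀ ≤ t₁ := by rw [ht₁]; exact le_max_left _ _
  obtain ⟨s, hs⟩ : ∃ s : J → Set ℝ, s = fun j => {α | ∃ n : ℤ, Bad i j n ∧ |(n : ℝ) - T j * α| ≤ Real.log (T j) ^ A} := ⟨_, rfl⟩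
  obtain ⟨M, hM⟩ : ∃ M : ℝ, M = 5 + Real.log t₁ ^ V := ⟨_, rfl⟩
  have hlt1 : 1 ≤ Real.log t₁ := by
    rw [Real.le_log_iff_exp_le (lt_of_lt_of_le (Real.exp_pos 1) ht1e)]
    exact ht1e
  have hbound : ∀ j, μ (s j) ≤ ENNReal.ofReal (M * (1 / Real.log (T j) ^ V)) := by
    intro j
    have ht2 := hT2 j
    have hlog : 0 < Real.log (T j) := Real.log_pos (by linarith)
    rcases lt_or_ge (T j) t₁ with hlt | hge
    · refine prob_le_one.trans ?_
      rw [ENNReal.one_le_ofReal]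
      have h1 : Real.log (T j) ≤ Real.log t₁ := Real.log_le_log (by linarith) hlt.le
      have h2 : Real.log (T j) ^ V ≤ Real.log t₁ ^ V := pow_le_pow_left₀ hlog.le h1 V
      rw [mul_one_div, le_div_iff₀ (by positivity), one_mul, hM]
      linarith
    · have hl1 : 1 ≤ Real.log (T j) := hlt1.trans (Real.log_le_log (lt_of_lt_of_le (Real.exp_pos 1) ht1e) hge)
      have h1 := meas_near μ (T j) (RR B (T j)) (RR_ae μ B (T j) (by linarith) hsup) (Real.log (T j) ^ A) (by positivity)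
        (Bad i j) (1 / Real.log (T j) ^ (V + A)) (by positivity) (h0 j (ht10.trans hge))
      rw [hs]
      refine h1.trans (ENNReal.ofReal_le_ofReal ?_)
      have h2 : (1 : ℝ) ≤ Real.log (T j) ^ A := one_le_pow₀ hl1
      have h3 : 0 < Real.log (T j) ^ V := by positivity
      have h4 : 0 < Real.log (T j) ^ A := by positivity
      rw [pow_add, mul_one_div, mul_one_div, div_le_div_iff₀ (by positivity) h3]
      have h5 : 5 ≤ M := by
        rw [hM]
        have : 0 ≤ Real.log t₁ ^ V := by positivity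
        linarith
      have h6 : 2 * Real.log (T j) ^ A + 3 ≤ M * Real.log (T j) ^ A := by nlinarith
      calc (2 * Real.log (T j) ^ A + 3) * Real.log (T j) ^ V ≤ M * Real.log (T j) ^ A * Real.log (T j) ^ V :=
            mul_le_mul_of_nonneg_right h6 h3.le
        _ = _ := by ring
  have hsum : ∑' j, μ (s j) ≠ ⊤ := by
    have h1 : ∑' j, μ (s j) ≤ ∑' j, ENNReal.ofReal (M * (1 / Real.log (T j) ^ V)) := ENNReal.tsum_le_tsum hbound
    exact ne_top_of_le_ne_top (hT.mul_left M).tsum_ofReal_ne_top h1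
  have hcount : Countable J := by
    have h3 := hT.countable_support
    have h4 : Function.support (fun j => 1 / Real.log (T j) ^ V) = Set.univ := by
      ext j
      simp only [Function.mem_support, Set.mem_univ, iff_true]
      have hlog : 0 < Real.log (T j) := Real.log_pos (by linarith [hT2 j])
      positivity
    rw [h4] at h3
    exact Set.countable_univ_iff.1 h3
  have h2 := ae_finite_setOfPred_mem hsum
  filter_upwards [h2] with α hα
  refine hα.subset ?_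
  rintro j ⟨n, hn⟩
  show α ∈ s j
  rw [hs]
  exact ⟨n, hn⟩

/-- all integers near `t α + s` -/
theorem bc_shift (μ : Measure ℝ) [IsProbabilityMeasure μ] (B : ℝ) (hsup : ∀ᵐ α ∂μ, |α| ≤ B) {J : Type} (T S : J → ℝ)
    (hT2 : ∀ j, 2 ≤ T j) (V : ℕ) (hT : Summable fun j => 1 / Real.log (T j) ^ V) (Bad : ℕ → J → ℤ → Prop)
    [∀ i t, DecidablePred (Bad i t)]
    (h : ∀ A i : ℕ, ∃ t₀ : ℝ, ∀ j, t₀ ≤ T j → ∀ c : ℤ, |(c : ℝ) - S j| ≤ Real.log (T j) ^ A + 2 →
      ∑ y ∈ Finset.Icc (-(RR B (T j))) (RR B (T j)), (if Bad i j (c + y) then pp μ (T j) y else 0) ≤ 1 / Real.log (T j) ^ (V + A)) :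
    ∀ᵐ α ∂μ, ∀ A i : ℕ, {j | ∃ n : ℤ, Bad i j n ∧ |(n : ℝ) - (T j * α + S j)| ≤ Real.log (T j) ^ A}.Finite := by
  have h1 := bc μ B hsup T hT2 V hT (fun i j n => Bad i j (n + ⌊S j⌋)) (by
    intro A i
    obtain ⟨t₀, h0⟩ := h A i
    refine ⟨t₀, fun j hj c hc => ?_⟩
    have h2 := h0 j hj (c + ⌊S j⌋) (by
      push_cast
      have e1 := Int.floor_le (S j)
      have e2 := Int.lt_floor_add_one (S j)
      have e3 := abs_le.1 hc
      apply abs_le.2
      constructor <;> linarith [e3.1, e3.2])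
    refine le_trans (le_of_eq ?_) h2
    apply Finset.sum_congr rfl
    intro y _
    rw [show c + ⌊S j⌋ + y = c + y + ⌊S j⌋ by ring])
  filter_upwards [h1] with α hα A i
  have hfin := hα (A + 1) i
  -- finitely many small `T j`
  have hsmall : {j | T j < Real.exp 2}.Finite := by
    have h3 := hT.tendsto_cofinite_zero
    have h4 := h3.eventually (gt_mem_nhds (show (0 : ℝ) < 1 / 2 ^ V by positivity))
    rw [Filter.eventually_cofinite] at h4
    refine h4.subset ?_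
    intro j hj
    rw [Set.mem_ofPred_eq] at hj ⊢
    rw [not_lt]
    have h5 : 0 < Real.log (T j) := Real.log_pos (by linarith [hT2 j])
    have h6 : Real.log (T j) ≤ 2 := by
      rw [Real.log_le_iff_le_exp (by linarith [hT2 j])]
      exact hj.le
    exact one_div_le_one_div_of_le (by positivity) (pow_le_pow_left₀ h5.le h6 V)
  refine (hfin.union hsmall).subset ?_
  rintro j ⟨n, hn, hn2⟩
  rcases lt_or_ge (T j) (Real.exp 2) with hlt | hge
  · right
    exact hlt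
  · left
    refine ⟨n - ⌊S j⌋, by rwa [sub_add_cancel], ?_⟩
    have h6 : 2 ≤ Real.log (T j) := by
      rw [Real.le_log_iff_exp_le (by linarith [hT2 j])]
      exact hge
    push_cast
    have e1 := Int.floor_le (S j)
    have e2 := Int.lt_floor_add_one (S j)
    have e3 := abs_le.1 hn2
    have e4 : (1 : ℝ) ≤ Real.log (T j) ^ A := one_le_pow₀ (by linarith)
    have e5 : Real.log (T j) ^ A + 1 ≤ Real.log (T j) ^ (A + 1) := by
      rw [pow_succ]
      nlinarith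
    apply abs_le.2
    constructor <;> linarith [e3.1, e3.2]

/-- the scale -/
noncomputable def KK (M t : ℝ) : ℕ := Nat.log 2 ⌈M * t⌉₊ + 1

lemma KK_lower (M t : ℝ) : M * t ≤ (2 : ℝ) ^ KK M t := by
  have h1 : ⌈M * t⌉₊ < 2 ^ KK M t := Nat.lt_pow_succ_log_self (by norm_num) _
  have h2 : ((⌈M * t⌉₊ : ℕ) : ℝ) ≤ (2 : ℝ) ^ KK M t := by exact_mod_cast h1.le
  exact (Nat.le_ceil _).trans h2

lemma KK_upper (M t : ℝ) (h : 1 ≤ M * t) : (2 : ℝ) ^ KK M t ≤ 4 * M * t := by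
  have h0 : ⌈M * t⌉₊ ≠ 0 := by
    have := Nat.ceil_pos.2 (by linarith : 0 < M * t)
    omega
  have h1 : 2 ^ Nat.log 2 ⌈M * t⌉₊ ≤ ⌈M * t⌉₊ := Nat.pow_log_le_self 2 h0
  have h2 : (2 : ℝ) ^ Nat.log 2 ⌈M * t⌉₊ ≤ ((⌈M * t⌉₊ : ℕ) : ℝ) := by exact_mod_cast h1
  have h3 := (Nat.ceil_lt_add_one (by linarith : 0 ≤ M * t)).le
  unfold KK
  rw [pow_succ]
  linarith

lemma KK_log (M t : ℝ) (hM : 1 ≤ M) (ht : 1 ≤ t) : Real.log t ≤ KK M t := by
  have h1 := KK_lower M t
  have h2 : t ≤ (2 : ℝ) ^ KK M t := le_trans (by nlinarith) h1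
  have h3 := Real.log_le_log (by linarith) h2
  rw [Real.log_pow] at h3
  have h4 : Real.log 2 ≤ 1 := by linarith [Real.log_two_lt_d9]
  have h5 : (0 : ℝ) ≤ KK M t := Nat.cast_nonneg _
  nlinarith

lemma KK_log_upper (M t : ℝ) (hM : 1 ≤ M) (ht : 4 * M ≤ t) : (KK M t : ℝ) ≤ 3 * Real.log t := by
  have h0 : 4 ≤ t := by linarith
  have h1 := KK_upper M t (by nlinarith)
  have h2 : (2 : ℝ) ^ KK M t ≤ t * t := by nlinarith
  have h3 := Real.log_le_log (by positivity) h2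
  rw [Real.log_pow, Real.log_mul (by linarith) (by linarith)] at h3
  have h4 := Real.log_two_gt_d9
  have h5 : (0 : ℝ) ≤ KK M t := Nat.cast_nonneg _
  have h6 : 0 ≤ Real.log t := Real.log_nonneg (by linarith)
  nlinarith

lemma KK_ge (M t : ℝ) (k : ℕ) (hM : 1 ≤ M) (ht : Real.exp k ≤ t) : k ≤ KK M t := by
  have h1 : 1 ≤ t := le_trans (by rw [← Real.exp_zero]; exact Real.exp_le_exp.2 (Nat.cast_nonneg k)) ht
  have h2 := KK_log M t hM h1
  have h3 : (k : ℝ) ≤ Real.log t := by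
    rw [Real.le_log_iff_exp_le (by linarith)]
    exact ht
  exact_mod_cast h3.trans h2

end Pool.Agent.V11290.FD
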