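import Pool.Agent.V11290.FD.Corr
import Pool.Agent.W93.LM7

set_option autoImplicit false

/-! Correlations with a nice function at the shifts near `t α + s`, with dilated arguments. -/

namespace Pool.Agent.V11290.FD
open MeasureTheory Filter

open Pool.Agent.W93.LM Pool.Agent.H373R2.T7 in
theorem dil_ae (f : ℕ → ℂ) (hf : Nice f) (B C σ : ℝ) (hB : 0 < B) (hσ : 0 < σ) (μ : Measure ℝ) [IsProbabilityMeasure μ]
    (hdec : ∀ ξ : ℝ, 1 ≤ |ξ| → ‖charFun μ ξ‖ ≤ C * |ξ| ^ (-σ)) (hsup : ∀ᵐ α ∂μ, |α| ≤ B)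
    {J : Type} (t s : J → ℝ) (ht2 : ∀ j, 2 ≤ t j) (V : ℕ) (hT : Summable fun j => 1 / Real.log (t j) ^ V)
    (hs : ∀ j, |s j| ≤ B * t j) (T : ℕ) (L : J → ℕ) (t₁ : ℝ)
    (hL : ∀ j, t₁ ≤ t j → (L j : ℝ) ≤ Real.log (t j) ^ T)
    (a : (j : J) → Fin (L j) → ℕ) (ha : ∀ j l, 1 ≤ a j l) (g : (j : J) → Fin (L j) → ℕ → ℂ)
    (hg : ∀ j, t₁ ≤ t j → ∀ l, ∀ n : ℕ, 1 ≤ n → (a j l * n : ℝ) ≤ B * t j → ‖g j l n‖ ≤ Real.log (t j) ^ T) :
    ∀ᵐ α ∂μ, ∀ A U : ℕ,
      {j | ¬ ∀ h : ℤ, |(h : ℝ) - (t j * α + s j)| ≤ Real.log (t j) ^ A → ∀ l, ∀ N : ℕ, (a j l * N : ℝ) ≤ B * t j →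
        ‖∑ n ∈ Finset.Icc 1 N, g j l n * exI f ((a j l : ℤ) * n + h)‖ ≤ t j / Real.log (t j) ^ U}.Finite := by
  classical
  have h := corr_ae f hf B C σ hB hσ μ hdec hsup t s ht2 V hT hs T L t₁ hL
    (fun j l m => if hl : l < L j then (if a j ⟨l, hl⟩ ∣ m then g j ⟨l, hl⟩ (m / a j ⟨l, hl⟩) else 0) else 0) (by
    intro j hj1 l hl m hm hmB
    have hlog : 0 ≤ Real.log (t j) := Real.log_nonneg (by linarith [ht2 j])
    simp only [hl, dif_pos]
    split_ifs with hdvd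
    · obtain ⟨q, rfl⟩ := hdvd
      have ha0 := ha j ⟨l, hl⟩
      rw [Nat.mul_div_cancel_left _ (by omega)]
      apply hg j hj1
      · rcases Nat.eq_zero_or_pos q with h0 | h0
        · rw [h0, mul_zero] at hm
          omega
        · exact h0
      · exact_mod_cast hmB
    · rw [norm_zero]
      positivity)
  filter_upwards [h] with α hα A U
  refine (hα A U).subset ?_
  intro j hj hall
  apply hj
  intro h hh l N hN
  have h1 := hall h hh l l.2 (a j l * N) (by push_cast; exact hN)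
  refine le_trans (le_of_eq ?_) h1
  congr 1
  simp only [l.2, dif_pos]
  have ha0 := ha j l
  symm
  -- the sum over the multiples of `a j l`
  have h2 : ∀ m ∈ Finset.Icc 1 (a j l * N), (if a j l ∣ m then g j l (m / a j l) else 0) * exI f ((m : ℤ) + h) =
      if a j l ∣ m then g j l (m / a j l) * exI f ((m : ℤ) + h) else 0 := by
    intro m _
    split_ifs
    · rfl
    · rw [zero_mul]
  rw [Finset.sum_congr rfl h2, ← Finset.sum_filter]
  refine Finset.sum_bij' (fun m _ => m / a j l) (fun n _ => a j l * n) ?_ ?_ ?_ ?_ ?_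
  · intro m hm
    rw [Finset.mem_filter, Finset.mem_Icc] at hm
    obtain ⟨⟨m1, m2⟩, q, rfl⟩ := hm
    rw [Nat.mul_div_cancel_left _ (by omega), Finset.mem_Icc]
    constructor
    · rcases Nat.eq_zero_or_pos q with h0 | h0
      · rw [h0, mul_zero] at m1
        omega
      · exact h0
    · exact Nat.le_of_mul_le_mul_left m2 (by omega)
  · intro n hn
    rw [Finset.mem_Icc] at hn
    rw [Finset.mem_filter, Finset.mem_Icc]
    refine ⟨⟨Nat.mul_pos (by omega) (by omega), Nat.mul_le_mul_left _ hn.2⟩, dvd_mul_right _ _⟩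
  · intro m hm
    rw [Finset.mem_filter] at hm
    exact Nat.mul_div_cancel' hm.2
  · intro n _
    exact Nat.mul_div_cancel_left _ (by omega)
  · intro m hm
    rw [Finset.mem_filter] at hm
    obtain ⟨_, q, rfl⟩ := hm
    rw [Nat.mul_div_cancel_left _ (by omega)]
    push_cast
    rfl

end Pool.Agent.V11290.FD
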