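import Pool.Agent.V11290.FD.Tup1
import Pool.Agent.H373R2.T7.BilE

set_option autoImplicit false

/-! The law of the random rounding of `t α` as a finite family of integers of nearly minimal additive energy. -/

namespace Pool.Agent.V11290.FD
open MeasureTheory Filter

open Finset in
lemma exists_family (Y : Finset ℤ) (n : ℤ → ℕ) : ∃ s : ℕ → ℤ, (∀ m ∈ Icc 1 (∑ y ∈ Y, n y), s m ∈ Y) ∧
    ∀ y ∈ Y, ((Icc 1 (∑ y ∈ Y, n y)).filter (fun m => s m = y)).card = n y := by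
  classical
  induction Y using Finset.induction_on with
  | empty => exact ⟨fun _ => 0, by simp, by simp⟩
  | insert a Y ha ih =>
    obtain ⟨s, h1, h2⟩ := ih
    obtain ⟨X, hX⟩ : ∃ X, X = ∑ y ∈ Y, n y := ⟨_, rfl⟩
    rw [← hX] at h1 h2
    rw [Finset.sum_insert ha, ← hX]
    refine ⟨fun m => if m ≤ X then s m else a, ?_, ?_⟩
    · intro m hm
      rw [mem_Icc] at hm
      simp only
      split_ifs with h
      · exact mem_insert_of_mem (h1 m (mem_Icc.2 ⟨hm.1, h⟩))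
      · exact mem_insert_self _ _
    · intro y hy
      rw [mem_insert] at hy
      rcases hy with rfl | hy
      · have h3 : (Icc 1 (n y + X)).filter (fun m => (if m ≤ X then s m else y) = y) = Ioc X (X + n y) := by
          ext m
          rw [mem_filter, mem_Icc, mem_Ioc]
          constructor
          · rintro ⟨h4, h5⟩
            by_cases h : m ≤ X
            · rw [if_pos h] at h5
              exact absurd (h5 ▸ h1 m (mem_Icc.2 ⟨h4.1, h⟩)) ha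
            · omega
          · intro h4
            refine ⟨by omega, ?_⟩
            rw [if_neg (by omega)]
        rw [h3, Nat.card_Ioc]
        omega
      · have hne : a ≠ y := fun h => ha (h ▸ hy)
        rw [← h2 y hy]
        congr 1
        ext m
        rw [mem_filter, mem_Icc, mem_filter, mem_Icc]
        constructor
        · rintro ⟨h4, h5⟩
          beta_reduce at h5
          by_cases h : m ≤ X
          · rw [if_pos h] at h5
            exact ⟨⟨h4.1, h⟩, h5⟩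
          · rw [if_neg h] at h5
            exact absurd h5 hne
        · rintro ⟨h4, h5⟩
          refine ⟨by omega, ?_⟩
          beta_reduce
          rw [if_pos h4.2]
          exact h5

open Finset in
lemma sum_near (Q : ℕ) : ∑ r ∈ Ioo 0 Q, (1 / (r : ℝ) ^ 2 + 1 / (((Q - r : ℕ)) : ℝ) ^ 2) ≤ 4 := by
  rw [sum_add_distrib]
  have h1 : ∑ r ∈ Ioo 0 Q, 1 / (r : ℝ) ^ 2 ≤ 2 := by
    have := sum_Ioo_inv_sq_le (α := ℝ) 0 Q
    simp only [one_div]
    refine this.trans ?_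
    norm_num
  have h2 : ∑ r ∈ Ioo 0 Q, 1 / (((Q - r : ℕ)) : ℝ) ^ 2 = ∑ r ∈ Ioo 0 Q, 1 / (r : ℝ) ^ 2 := by
    apply sum_nbij' (fun r => Q - r) (fun r => Q - r)
    · intro r hr
      rw [mem_Ioo] at hr ⊢
      omega
    · intro r hr
      rw [mem_Ioo] at hr ⊢
      omega
    · intro r hr
      rw [mem_Ioo] at hr
      omega
    · intro r hr
      rw [mem_Ioo] at hr
      omega
    · intro r hr
      rfl
  rw [h2]
  linarith

open Finset in
lemma sum_family (Y : Finset ℤ) (s : ℕ → ℤ) (x : ℕ) (h : ∀ m ∈ Icc 1 x, s m ∈ Y) (F : ℤ → ℂ) :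
    ∑ m ∈ Icc 1 x, F (s m) = ∑ y ∈ Y, (((Icc 1 x).filter (fun m => s m = y)).card : ℂ) * F y := by
  classical
  rw [← sum_fiberwise_of_maps_to h]
  apply sum_congr rfl
  intro y _
  have h1 : ∀ m ∈ (Icc 1 x).filter (fun m => s m = y), F (s m) = F y := by
    intro m hm
    rw [(mem_filter.1 hm).2]
  rw [sum_congr rfl h1, sum_const, nsmul_eq_mul]

lemma pow_two_add (a b : ℝ) (ha : 0 ≤ a) (hb : 0 ≤ b) (n : ℕ) : (a + b) ^ n ≤ 2 ^ n * (a ^ n + b ^ n) := by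
  rcases le_total a b with h | h
  · have h1 : (a + b) ^ n ≤ (2 * b) ^ n := pow_le_pow_left₀ (by linarith) (by linarith) n
    rw [mul_pow] at h1
    have h2 : 0 ≤ a ^ n := by positivity
    have h3 : (0 : ℝ) < 2 ^ n := by positivity
    nlinarith
  · have h1 : (a + b) ^ n ≤ (2 * a) ^ n := pow_le_pow_left₀ (by linarith) (by linarith) n
    rw [mul_pow] at h1
    have h2 : 0 ≤ b ^ n := by positivity
    have h3 : (0 : ℝ) < 2 ^ n := by positivity
    nlinarith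

/-- the Fourier transform of the random rounding at a rational number -/
lemma four_rat (μ : Measure ℝ) [IsProbabilityMeasure μ] (C σ t : ℝ) (hσ : 0 < σ) (ht : 1 ≤ t)
    (hdec : ∀ ξ : ℝ, 1 ≤ |ξ| → ‖charFun μ ξ‖ ≤ C * |ξ| ^ (-σ)) (Q : ℕ) (hQ : (Q : ℝ) ≤ 2 * t) (r : ℕ) (hr : r ∈ Finset.Ioo 0 Q)
    (p : ℕ) (hp : 1 ≤ p * σ) :
    ‖∫ α, L ((r : ℝ) / Q) (t * α) ∂μ‖ ^ (2 * p) ≤ |C| ^ (2 * p) * (1 / (r : ℝ) ^ 2 + 1 / (((Q - r : ℕ)) : ℝ) ^ 2) := by
  rw [Finset.mem_Ioo] at hr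
  obtain ⟨m, hm⟩ : ∃ m : ℕ, m = min r (Q - r) := ⟨_, rfl⟩
  have hm1 : 1 ≤ m := by omega
  have hmr : (1 : ℝ) ≤ m := by exact_mod_cast hm1
  have hm0 : (0 : ℝ) < m := by linarith
  have hQ0 : (0 : ℝ) < Q := by exact_mod_cast (by omega : 0 < Q)
  have hfar : ∀ j : ℤ, (m : ℝ) / Q ≤ |(r : ℝ) / Q + j| := by
    intro j
    have e1 : (r : ℝ) / Q + j = (((r : ℤ) + j * Q : ℤ) : ℝ) / Q := by
      push_cast
      field_simp
    rw [e1, abs_div, abs_of_pos hQ0]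
    apply div_le_div_of_nonneg_right _ hQ0.le
    have e2 : (m : ℤ) ≤ |(r : ℤ) + j * Q| := by
      rcases le_or_gt 0 j with hj | hj
      · have h1 : (0 : ℤ) ≤ j * Q := mul_nonneg hj (Int.natCast_nonneg _)
        rw [abs_of_nonneg (by omega)]
        omega
      · have h1 : j * (Q : ℤ) ≤ (-1) * Q := mul_le_mul_of_nonneg_right (by omega) (Int.natCast_nonneg _)
        rw [abs_of_nonpos (by omega)]
        omega
    exact_mod_cast e2
  have hmQ : 0 < (m : ℝ) / Q := by positivity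
  have h1 : ‖∫ α, L ((r : ℝ) / Q) (t * α) ∂μ‖ ≤ |C| * (m : ℝ) ^ (-σ) := by
    apply key μ ((r : ℝ) / Q) (fun j h => by
      have := hfar j
      rw [h, abs_zero] at this
      linarith)
    intro j
    obtain ⟨x, hx⟩ : ∃ x, x = 2 * Real.pi * ((r : ℝ) / Q + j) * t := ⟨_, rfl⟩
    have hpi := Real.pi_gt_three
    have h3 : (m : ℝ) ≤ |x| := by
      rw [hx, abs_mul, abs_mul, abs_of_pos (by positivity : 0 < 2 * Real.pi), abs_of_pos (by linarith : 0 < t)]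
      have h4 : 2 * ((m : ℝ) / Q) * t ≤ 2 * Real.pi * |(r : ℝ) / Q + j| * t := by
        apply mul_le_mul_of_nonneg_right _ (by linarith)
        apply mul_le_mul (by linarith) (hfar j) hmQ.le (by positivity)
      refine le_trans ?_ h4
      have h5 : 2 * ((m : ℝ) / Q) * t = m * (2 * t) / Q := by ring
      rw [h5, le_div_iff₀ hQ0]
      exact mul_le_mul_of_nonneg_left hQ hm0.le
    have h4 := hdec x (by linarith)
    rw [← hx]
    refine h4.trans ?_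
    have hx0 : 0 < |x| := by linarith
    calc C * |x| ^ (-σ) ≤ |C| * |x| ^ (-σ) := mul_le_mul_of_nonneg_right (le_abs_self C) (Real.rpow_nonneg hx0.le _)
      _ ≤ _ := mul_le_mul_of_nonneg_left (Real.rpow_le_rpow_of_nonpos hm0 h3 (by linarith)) (abs_nonneg C)
  refine (pow_le_pow_left₀ (norm_nonneg _) h1 (2 * p)).trans ?_
  rw [mul_pow]
  apply mul_le_mul_of_nonneg_left _ (by positivity)
  have h2 : ((m : ℝ) ^ (-σ)) ^ (2 * p) ≤ 1 / (m : ℝ) ^ 2 := by
    have e1 : ((m : ℝ) ^ (-σ)) ^ (2 * p) = (m : ℝ) ^ (-(2 * (p * σ))) := by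
      rw [← Real.rpow_natCast, ← Real.rpow_mul hm0.le]
      congr 1
      push_cast
      ring
    have e2 : 1 / (m : ℝ) ^ 2 = (m : ℝ) ^ (-(2 : ℝ)) := by
      rw [Real.rpow_neg hm0.le, one_div]
      congr 1
      exact_mod_cast (Real.rpow_natCast (m : ℝ) 2).symm
    rw [e1, e2]
    exact Real.rpow_le_rpow_of_exponent_le hmr (by linarith)
  refine h2.trans ?_
  have hr0 : (0 : ℝ) ≤ 1 / (r : ℝ) ^ 2 := by positivity
  have hq0 : (0 : ℝ) ≤ 1 / ((Q - r : ℕ) : ℝ) ^ 2 := by positivity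
  rcases min_choice r (Q - r) with h | h
  · rw [hm, h]
    linarith
  · rw [hm, h]
    linarith

open Pool.Agent.H373R2.T7 Pool.Agent.H807R2.Dav in
/-- the law of the random rounding is close to a family of nearly minimal additive energy -/
theorem fam_one (B C σ : ℝ) (hB : 0 < B) (hσ : 0 < σ) (p : ℕ) (hp1 : 1 ≤ p) (hp : 1 ≤ p * σ) : ∃ K : ℝ, 0 < K ∧
    ∀ (μ : Measure ℝ) [IsProbabilityMeasure μ], (∀ ξ : ℝ, 1 ≤ |ξ| → ‖charFun μ ξ‖ ≤ C * |ξ| ^ (-σ)) →
    (∀ᵐ α ∂μ, |α| ≤ B) → ∀ t : ℝ, 1 ≤ t → ∃ (x : ℕ) (s : ℕ → ℤ) (M : ℕ), 1 ≤ M ∧ M ≤ x ∧ x ≤ 2 * M ∧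
      (∀ m ∈ Finset.Icc 1 x, s m ∈ Finset.Icc (-(RR B t)) (RR B t)) ∧
      (∀ c : ℤ, (energy p x (fun m => c + s m) : ℝ) * t ≤ K * (x : ℝ) ^ (2 * p)) ∧
      ∀ y ∈ Finset.Icc (-(RR B t)) (RR B t), (M : ℝ) * pp μ t y ≤ ((Finset.Icc 1 x).filter (fun m => s m = y)).card := by
  classical
  refine ⟨2 ^ (2 * p) * (4 * |C| ^ (2 * p) + 2), by positivity, fun μ _ hdec hsup t ht => ?_⟩
  obtain ⟨R, hR⟩ : ∃ R, R = RR B t := ⟨_, rfl⟩
  have hRae := RR_ae μ B t (by linarith) hsup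
  rw [← hR] at hRae ⊢
  have hR1 : 1 ≤ R := by
    rw [hR]
    unfold RR
    have : (1 : ℝ) ≤ B * t + 1 := by nlinarith
    exact_mod_cast this.trans (Int.le_ceil _)
  obtain ⟨Y, hY⟩ : ∃ Y, Y = Finset.Icc (-R) R := ⟨_, rfl⟩
  have hYc : (Y.card : ℤ) = 2 * R + 1 := by
    rw [hY, Int.card_Icc]
    omega
  obtain ⟨W, hW⟩ : ∃ W : ℕ, W = Y.card := ⟨_, rfl⟩
  have hW1 : 1 ≤ W := by omega
  obtain ⟨Q, hQ⟩ : ∃ Q : ℕ, Q = ⌈t⌉₊ := ⟨_, rfl⟩
  have hQ1 : t ≤ Q := by rw [hQ]; exact Nat.le_ceil t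
  have hQ2 : (Q : ℝ) ≤ 2 * t := by
    rw [hQ]
    have := (Nat.ceil_lt_add_one (by linarith : 0 ≤ t)).le
    linarith
  have hQn : 1 ≤ Q := by
    have : (1 : ℝ) ≤ Q := by linarith
    exact_mod_cast this
  have hQ0 : (0 : ℝ) < Q := by linarith
  obtain ⟨M, hM⟩ : ∃ M : ℕ, M = W * Q := ⟨_, rfl⟩
  have hM1 : 1 ≤ M := by rw [hM]; exact Nat.mul_pos hW1 hQn
  obtain ⟨n, hn⟩ : ∃ n : ℤ → ℕ, n = fun y => ⌈(M : ℝ) * pp μ t y⌉₊ := ⟨_, rfl⟩
  have hn1 : ∀ y, (M : ℝ) * pp μ t y ≤ n y := by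
    intro y
    rw [hn]
    exact Nat.le_ceil _
  have hn2 : ∀ y, (n y : ℝ) ≤ M * pp μ t y + 1 := by
    intro y
    rw [hn]
    exact (Nat.ceil_lt_add_one (mul_nonneg (Nat.cast_nonneg _) (pp_nonneg μ t y))).le
  obtain ⟨s, hs1, hs2⟩ := exists_family Y n
  obtain ⟨x, hx⟩ : ∃ x, x = ∑ y ∈ Y, n y := ⟨_, rfl⟩
  rw [← hx] at hs1 hs2
  have hsum1 : ∑ y ∈ Y, pp μ t y = 1 := by
    rw [hY]
    exact pp_sum_one μ t R hRae
  have hMx : M ≤ x := by
    have h1 : (M : ℝ) ≤ x := by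
      rw [hx]
      push_cast
      calc (M : ℝ) = ∑ y ∈ Y, (M : ℝ) * pp μ t y := by rw [← Finset.mul_sum, hsum1, mul_one]
        _ ≤ _ := Finset.sum_le_sum fun y _ => hn1 y
    exact_mod_cast h1
  have hMW : (W : ℝ) ≤ M := by
    rw [hM]
    push_cast
    have : (1 : ℝ) ≤ Q := by linarith
    have hW0 : (0 : ℝ) ≤ W := Nat.cast_nonneg _
    nlinarith
  have hxM : x ≤ 2 * M := by
    have h1 : (x : ℝ) ≤ 2 * M := by
      rw [hx]
      push_cast
      calc ∑ y ∈ Y, (n y : ℝ) ≤ ∑ y ∈ Y, ((M : ℝ) * pp μ t y + 1) := Finset.sum_le_sum fun y _ => hn2 y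
        _ = M + W := by
            rw [Finset.sum_add_distrib, ← Finset.mul_sum, hsum1, mul_one, Finset.sum_const, nsmul_eq_mul, mul_one, hW]
        _ ≤ _ := by linarith
    exact_mod_cast h1
  have hMr : (1 : ℝ) ≤ M := by exact_mod_cast hM1
  have hM0 : (0 : ℝ) < M := by linarith
  refine ⟨x, s, M, hM1, hMx, hxM, fun m hm => by rw [← hY]; exact hs1 m hm, fun c => ?_, fun y hy => ?_⟩
  swap
  · rw [← hY] at hy
    rw [hs2 y hy]
    exact hn1 y
  have h1 := energy_le p x (fun m => c + s m) Q hQn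
  have hnorm : ∀ r : ℕ, ‖∑ m ∈ Finset.Icc 1 x, ee ((r : ℝ) * (((fun m => c + s m) m : ℤ) / Q))‖ ≤
      M * ‖∫ α, L ((r : ℝ) / Q) (t * α) ∂μ‖ + W := by
    intro r
    have e1 : ∀ m : ℕ, ee ((r : ℝ) * (((fun m => c + s m) m : ℤ) / Q)) = e ((r : ℝ) / Q * c) * e ((r : ℝ) / Q * s m) := by
      intro m
      rw [← e_add]
      unfold Pool.Agent.H807R2.Dav.ee e
      congr 2
      push_cast
      ring
    have e2 : ∑ m ∈ Finset.Icc 1 x, ee ((r : ℝ) * (((fun m => c + s m) m : ℤ) / Q)) =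
        e ((r : ℝ) / Q * c) * ∑ y ∈ Y, (n y : ℂ) * e ((r : ℝ) / Q * y) := by
      rw [Finset.sum_congr rfl (fun m _ => e1 m), ← Finset.mul_sum]
      congr 1
      rw [sum_family Y s x hs1 (fun y => e ((r : ℝ) / Q * y))]
      apply Finset.sum_congr rfl
      intro y hy
      rw [hs2 y hy]
    rw [e2, norm_mul, norm_e, one_mul]
    have e3 : ∑ y ∈ Y, (n y : ℂ) * e ((r : ℝ) / Q * y) = M * ∑ y ∈ Y, ((pp μ t y : ℝ) : ℂ) * e ((r : ℝ) / Q * y) +
        ∑ y ∈ Y, (((n y : ℝ) - M * pp μ t y : ℝ) : ℂ) * e ((r : ℝ) / Q * y) := by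
      rw [Finset.mul_sum, ← Finset.sum_add_distrib]
      apply Finset.sum_congr rfl
      intro y _
      push_cast
      ring
    rw [e3, hY, char_eq μ t R hRae, ← hY]
    refine (norm_add_le _ _).trans ?_
    rw [norm_mul, Complex.norm_natCast]
    gcongr
    refine (norm_sum_le _ _).trans ?_
    calc ∑ y ∈ Y, ‖(((n y : ℝ) - M * pp μ t y : ℝ) : ℂ) * e ((r : ℝ) / Q * y)‖ ≤ ∑ y ∈ Y, (1 : ℝ) := by
          apply Finset.sum_le_sum
          intro y _
          rw [norm_mul, norm_e, mul_one, Complex.norm_real, Real.norm_eq_abs, abs_le]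
          constructor <;> linarith [hn1 y, hn2 y]
      _ = W := by rw [Finset.sum_const, nsmul_eq_mul, mul_one, hW]
  have h2 : ∑ r ∈ Finset.range Q, ‖∑ m ∈ Finset.Icc 1 x, ee ((r : ℝ) * (((fun m => c + s m) m : ℤ) / Q))‖ ^ (2 * p) ≤
      2 ^ (2 * p) * (4 * |C| ^ (2 * p) + 2) * (M : ℝ) ^ (2 * p) := by
    have hrange : Finset.range Q = insert 0 (Finset.Ioo 0 Q) := by
      ext r
      rw [Finset.mem_range, Finset.mem_insert, Finset.mem_Ioo]
      omega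
    rw [hrange, Finset.sum_insert (by simp)]
    have h3 : ‖∑ m ∈ Finset.Icc 1 x, ee (((0 : ℕ) : ℝ) * (((fun m => c + s m) m : ℤ) / Q))‖ ^ (2 * p) ≤ 2 ^ (2 * p) * (M : ℝ) ^ (2 * p) := by
      rw [← mul_pow]
      apply pow_le_pow_left₀ (norm_nonneg _)
      refine (norm_sum_le _ _).trans ?_
      have : ∀ m ∈ Finset.Icc 1 x, ‖ee (((0 : ℕ) : ℝ) * (((fun m => c + s m) m : ℤ) / Q))‖ = 1 := by
        intro m _
        exact norm_e _
      rw [Finset.sum_congr rfl this, Finset.sum_const, Nat.card_Icc, nsmul_eq_mul, mul_one, Nat.add_sub_cancel]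
      exact_mod_cast hxM
    have h4 : ∀ r ∈ Finset.Ioo 0 Q, ‖∑ m ∈ Finset.Icc 1 x, ee ((r : ℝ) * (((fun m => c + s m) m : ℤ) / Q))‖ ^ (2 * p) ≤
        2 ^ (2 * p) * (M : ℝ) ^ (2 * p) * (|C| ^ (2 * p) * (1 / (r : ℝ) ^ 2 + 1 / (((Q - r : ℕ)) : ℝ) ^ 2) + 1 / Q) := by
      intro r hr
      refine (pow_le_pow_left₀ (norm_nonneg _) (hnorm r) (2 * p)).trans ?_
      refine (pow_two_add _ _ (by positivity) (Nat.cast_nonneg _) (2 * p)).trans ?_
      rw [mul_assoc]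
      apply mul_le_mul_of_nonneg_left _ (by positivity)
      rw [mul_pow, mul_add]
      have h5 := four_rat μ C σ t hσ ht hdec Q hQ2 r hr p hp
      have h6 : (W : ℝ) ^ (2 * p) ≤ (M : ℝ) ^ (2 * p) * (1 / Q) := by
        have e1 : (M : ℝ) = W * Q := by rw [hM]; push_cast; ring
        rw [e1, mul_pow, mul_assoc]
        apply le_mul_of_one_le_right (by positivity)
        rw [mul_one_div, le_div_iff₀ hQ0, one_mul]
        exact le_self_pow₀ (by linarith) (by omega)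
      have h7 := mul_le_mul_of_nonneg_left h5 (by positivity : 0 ≤ (M : ℝ) ^ (2 * p))
      linarith
    refine (add_le_add h3 (Finset.sum_le_sum h4)).trans ?_
    rw [← Finset.mul_sum, Finset.sum_add_distrib, ← Finset.mul_sum, Finset.sum_const, nsmul_eq_mul]
    have h5 := sum_near Q
    have h6 : ((Finset.Ioo 0 Q).card : ℝ) * (1 / Q) ≤ 1 := by
      rw [Nat.card_Ioo, mul_one_div, div_le_one hQ0]
      exact_mod_cast (by omega : Q - 0 - 1 ≤ Q)
    have h7 : 0 ≤ |C| ^ (2 * p) := by positivity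
    have h8 := mul_le_mul_of_nonneg_left h5 h7
    have h9 : 0 ≤ 2 ^ (2 * p) * (M : ℝ) ^ (2 * p) := by positivity
    have h10 := mul_le_mul_of_nonneg_left (add_le_add h8 h6) h9
    refine (add_le_add le_rfl h10).trans (le_of_eq ?_)
    ring
  have h3 : (energy p x (fun m => c + s m) : ℝ) * t ≤ Q * energy p x (fun m => c + s m) := by
    rw [mul_comm]
    exact mul_le_mul_of_nonneg_right hQ1 (Nat.cast_nonneg _)
  refine h3.trans (h1.trans (h2.trans ?_))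
  apply mul_le_mul_of_nonneg_left _ (by positivity)
  exact pow_le_pow_left₀ hM0.le (by exact_mod_cast hMx) _

end Pool.Agent.V11290.FD
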