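import Pool.Agent.V11290.FD.Fam1

set_option autoImplicit false

/-! From estimates for families of nearly minimal additive energy to all integers near `t α + s`, for almost
all `α`. -/

namespace Pool.Agent.V11290.FD
open MeasureTheory Filter
open Pool.Agent.H373R2.T7 (energy)

lemma fiber_le (Y : Finset ℤ) (s : ℕ → ℤ) (x : ℕ) (w : ℤ → ℝ) (M : ℝ) (hM : 0 < M)
    (h : ∀ y ∈ Y, M * w y ≤ ((Finset.Icc 1 x).filter (fun m => s m = y)).card) (Bad : ℤ → Prop) [DecidablePred Bad] :
    ∑ y ∈ Y, (if Bad y then w y else 0) ≤ (((Finset.Icc 1 x).filter (fun m => Bad (s m))).card : ℝ) / M := by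
  classical
  rw [le_div_iff₀ hM, Finset.sum_mul]
  have h1 : ∀ y ∈ Y, (if Bad y then w y else 0) * M ≤
      ((((Finset.Icc 1 x).filter (fun m => Bad (s m))).filter (fun m => s m = y)).card : ℝ) := by
    intro y hy
    split_ifs with hb
    · rw [mul_comm]
      refine (h y hy).trans ?_
      have : (Finset.Icc 1 x).filter (fun m => s m = y) ⊆ ((Finset.Icc 1 x).filter (fun m => Bad (s m))).filter (fun m => s m = y) := by
        intro m hm
        rw [Finset.mem_filter] at hm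
        rw [Finset.mem_filter, Finset.mem_filter]
        exact ⟨⟨hm.1, by rw [hm.2]; exact hb⟩, hm.2⟩
      exact_mod_cast Finset.card_le_card this
    · rw [zero_mul]
      exact Nat.cast_nonneg _
  refine (Finset.sum_le_sum h1).trans ?_
  have h2 : ∑ y ∈ Y, (((Finset.Icc 1 x).filter (fun m => Bad (s m))).filter (fun m => s m = y)).card ≤
      ((Finset.Icc 1 x).filter (fun m => Bad (s m))).card := by
    rw [← Finset.card_biUnion]
    · apply Finset.card_le_card
      intro m hm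
      rw [Finset.mem_biUnion] at hm
      obtain ⟨y, _, hy⟩ := hm
      exact (Finset.mem_filter.1 hy).1
    · intro y _ y' _ hne
      apply Finset.disjoint_left.2
      intro m hm hm'
      exact hne ((Finset.mem_filter.1 hm).2.symm.trans (Finset.mem_filter.1 hm').2)
  exact_mod_cast h2

/-- one dimension -/
theorem abs_one (B C σ : ℝ) (hB : 0 < B) (hσ : 0 < σ) (μ : Measure ℝ) [IsProbabilityMeasure μ]
    (hdec : ∀ ξ : ℝ, 1 ≤ |ξ| → ‖charFun μ ξ‖ ≤ C * |ξ| ^ (-σ)) (hsup : ∀ᵐ α ∂μ, |α| ≤ B)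
    {J : Type} (t s : J → ℝ) (ht2 : ∀ j, 2 ≤ t j) (V : ℕ) (hT : Summable fun j => 1 / Real.log (t j) ^ V)
    (hs : ∀ j, |s j| ≤ B * t j) (p : ℕ) (hp1 : 1 ≤ p) (hp : 1 ≤ p * σ) (B₁ : ℕ) (hB₁ : 2 * B + 8 ≤ B₁)
    (P : ℕ → J → ℤ → Prop)
    (H : ∀ i U : ℕ, ∃ t₀ : ℝ, ∀ j, t₀ ≤ t j → ∀ (x : ℕ) (v : ℕ → ℤ), 1 ≤ x →
      (∀ m ∈ Finset.Icc 1 x, |v m| ≤ B₁ * (⌈t j⌉₊ : ℤ)) →
      (energy p x v : ℝ) * (⌈t j⌉₊ : ℝ) ≤ Real.log (⌈t j⌉₊ : ℝ) * (x : ℝ) ^ (2 * p) →
      ∀ 𝒮 : Finset ℕ, 𝒮 ⊆ Finset.Icc 1 x → (∀ m ∈ 𝒮, ¬ P i j (v m)) → (𝒮.card : ℝ) ≤ x / Real.log (⌈t j⌉₊ : ℝ) ^ U) :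
    ∀ᵐ α ∂μ, ∀ A i : ℕ, {j | ¬ ∀ n : ℤ, |(n : ℝ) - (t j * α + s j)| ≤ Real.log (t j) ^ A → P i j n}.Finite := by
  classical
  have h := bc_shift μ B hsup t s ht2 V hT (fun i j n => ¬ P i j n) (by
    intro A i
    obtain ⟨K, hK, hfam⟩ := fam_one B C σ hB hσ p hp1 hp
    obtain ⟨t₀, h0⟩ := H i (V + A + 1)
    obtain ⟨t1, ht1⟩ := log_pow_le A 1 one_pos
    refine ⟨max (max t₀ t1) (Real.exp (2 * K + 2)), fun j hj c hc => ?_⟩
    have q0 : t₀ ≤ t j := ((le_max_left _ _).trans (le_max_left _ _)).trans hj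
    have q1 : t1 ≤ t j := ((le_max_right _ _).trans (le_max_left _ _)).trans hj
    have q2 : Real.exp (2 * K + 2) ≤ t j := (le_max_right _ _).trans hj
    have htj2 := ht2 j
    have htj0 : 0 < t j := by linarith
    have hlog : 2 * K + 2 ≤ Real.log (t j) := by
      rw [Real.le_log_iff_exp_le htj0]
      exact q2
    have hlogA := ht1 (t j) q1
    rw [one_mul] at hlogA
    obtain ⟨x, s', M, hM1, hMx, hxM, hs', hen, hfib⟩ := hfam μ hdec hsup (t j) (by linarith)
    have hM0 : (0 : ℝ) < M := by exact_mod_cast hM1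
    have hx1 : 1 ≤ x := by omega
    have hx0 : (0 : ℝ) < x := by exact_mod_cast hx1
    obtain ⟨N, hN⟩ : ∃ N : ℕ, N = ⌈t j⌉₊ := ⟨_, rfl⟩
    have hN1 : t j ≤ N := by rw [hN]; exact Nat.le_ceil _
    have hN2 : (N : ℝ) ≤ 2 * t j := by
      rw [hN]
      have := (Nat.ceil_lt_add_one htj0.le).le
      linarith
    have hlogN : Real.log (t j) ≤ Real.log N := Real.log_le_log htj0 hN1
    have hRle : (RR B (t j) : ℝ) ≤ B * t j + 2 := by
      unfold RR
      have := (Int.ceil_lt_add_one (B * t j + 1)).le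
      linarith
    have h1 := h0 j q0 x (fun m => c + s' m) hx1 (by
      intro m hm
      rw [← hN]
      have h2 := Finset.mem_Icc.1 (hs' m hm)
      have h3 : |((c + s' m : ℤ) : ℝ)| ≤ (B₁ : ℝ) * N := by
        have e1 : |(c : ℝ)| ≤ B * t j + t j + 2 := by
          have h4 : |(c : ℝ)| ≤ |(c : ℝ) - s j| + |s j| := by
            have := abs_add_le ((c : ℝ) - s j) (s j)
            rwa [sub_add_cancel] at this
          linarith [hs j]
        have e2 : |(s' m : ℝ)| ≤ B * t j + 2 := by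
          apply abs_le.2
          have h5 : -(RR B (t j) : ℝ) ≤ s' m := by exact_mod_cast h2.1
          have h6 : (s' m : ℝ) ≤ RR B (t j) := by exact_mod_cast h2.2
          constructor <;> linarith
        push_cast
        refine (abs_add_le _ _).trans ?_
        have e3 : (2 * B + 8) * t j ≤ B₁ * N := by
          apply mul_le_mul hB₁ hN1 htj0.le (Nat.cast_nonneg _)
        nlinarith
      exact_mod_cast h3) (by
      rw [← hN]
      have h2 := hen c
      calc (energy p x (fun m => c + s' m) : ℝ) * N ≤ energy p x (fun m => c + s' m) * (2 * t j) :=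
            mul_le_mul_of_nonneg_left hN2 (Nat.cast_nonneg _)
        _ = 2 * (energy p x (fun m => c + s' m) * t j) := by ring
        _ ≤ 2 * (K * (x : ℝ) ^ (2 * p)) := by linarith
        _ = (2 * K) * (x : ℝ) ^ (2 * p) := by ring
        _ ≤ _ := mul_le_mul_of_nonneg_right (by linarith) (by positivity))
      ((Finset.Icc 1 x).filter (fun m => ¬ P i j (c + s' m))) (Finset.filter_subset _ _) (by
      intro m hm
      exact (Finset.mem_filter.1 hm).2)
    rw [← hN] at h1
    refine (fiber_le (Finset.Icc (-(RR B (t j))) (RR B (t j))) s' x (pp μ (t j)) M hM0 hfib (fun y => ¬ P i j (c + y))).trans ?_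
    have hlt : 0 < Real.log (t j) := by linarith
    have h3 : (x : ℝ) ≤ 2 * M := by exact_mod_cast hxM
    rw [div_le_div_iff₀ hM0 (by positivity), one_mul]
    have h4 : (((Finset.Icc 1 x).filter (fun m => ¬ P i j (c + s' m))).card : ℝ) ≤ x / Real.log (t j) ^ (V + A + 1) := by
      refine h1.trans ?_
      apply div_le_div_of_nonneg_left hx0.le (by positivity)
      exact pow_le_pow_left₀ hlt.le hlogN _
    calc (((Finset.Icc 1 x).filter (fun m => ¬ P i j (c + s' m))).card : ℝ) * Real.log (t j) ^ (V + A) ≤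
        (x / Real.log (t j) ^ (V + A + 1)) * Real.log (t j) ^ (V + A) := mul_le_mul_of_nonneg_right h4 (by positivity)
      _ = x / Real.log (t j) := by
          rw [pow_succ]
          field_simp
      _ ≤ (2 * M) / 2 := by
          apply div_le_div₀ (by positivity) h3 (by norm_num) (by linarith)
      _ = M := by ring)
  filter_upwards [h] with α hα A i
  refine (hα A i).subset ?_
  intro j hj
  rw [Set.mem_ofPred_eq] at hj ⊢
  push Not at hj
  obtain ⟨n, hn1, hn2⟩ := hj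
  exact ⟨n, hn2, hn1⟩

end Pool.Agent.V11290.FD
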