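import Pool.Agent.V11290.FD.BC
import Pool.Agent.W93.AU2

set_option autoImplicit false

/-! Goldbach's problem near `t α`. -/

namespace Pool.Agent.V11290.FD
open MeasureTheory Filter

/-- the asymptotic formula and the existence of a representation by two different primes -/
def Asym (ε : ℝ) (n : ℕ) : Prop :=
  |(Pool.Agent.H560R3.GB.g n : ℝ) - Pool.Agent.H560R3.GB.HL n| ≤ ε * Pool.Agent.H560R3.GB.HL n ∧
    ∃ p q : ℕ, p.Prime ∧ q.Prime ∧ p ≠ q ∧ p + q = n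

lemma pp_zero (μ : Measure ℝ) (a t : ℝ) (ht : 0 ≤ t) (ha : ∀ᵐ α ∂μ, a ≤ α) (y : ℤ) (hy : (y : ℝ) + 1 ≤ a * t) :
    pp μ t y = 0 := by
  unfold pp
  have h : (fun α => tent (t * α - y)) =ᵐ[μ] fun _ => (0 : ℝ) := by
    filter_upwards [ha] with α hα
    unfold tent
    apply max_eq_left
    have h1 : a * t ≤ t * α := by rw [mul_comm]; exact mul_le_mul_of_nonneg_left hα ht
    have h2 : 1 ≤ |t * α - y| := by
      refine le_trans ?_ (le_abs_self _)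
      linarith
    linarith
  rw [integral_congr_ae h]
  simp

lemma log_pow_le (A : ℕ) (η : ℝ) (hη : 0 < η) : ∃ t₀ : ℝ, ∀ t : ℝ, t₀ ≤ t → Real.log t ^ A ≤ η * t := by
  have h1 := (Real.isLittleO_pow_log_id_atTop (n := A)).def hη
  rw [eventually_atTop] at h1
  obtain ⟨t₀, h⟩ := h1
  refine ⟨max t₀ 1, fun t ht => ?_⟩
  have h2 := h t ((le_max_left _ _).trans ht)
  have h3 : 1 ≤ t := (le_max_right _ _).trans ht
  rw [Real.norm_of_nonneg (pow_nonneg (Real.log_nonneg h3) _)] at h2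
  simp only [id] at h2
  rw [Real.norm_of_nonneg (by linarith)] at h2
  exact h2

open Pool.Agent.W93.AU in
theorem gold_fin (a B C σ : ℝ) (ha : 0 < a) (haB : a ≤ B) (hσ : 0 < σ) (U A : ℕ) (ε : ℝ) (hε : 0 < ε) :
    ∃ t₀ : ℝ, ∀ (μ : Measure ℝ) [IsProbabilityMeasure μ], (∀ ξ : ℝ, 1 ≤ |ξ| → ‖charFun μ ξ‖ ≤ C * |ξ| ^ (-σ)) →
    (∀ᵐ α ∂μ, a ≤ α ∧ α ≤ B) → ∀ t S : ℝ, t₀ ≤ t → 0 ≤ S → S ≤ B * t →
    ∀ c : ℤ, |(c : ℝ) - S| ≤ Real.log t ^ A + 2 → ∀ Bad : ℤ → Prop, [DecidablePred Bad] → (∀ n : ℤ, Bad n → 0 < n ∧ 2 ∣ n ∧ ¬ Asym ε n.toNat) →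
    ∑ y ∈ Finset.Icc (-(RR B t)) (RR B t), (if Bad (c + y) then pp μ t y else 0) ≤ 1 / Real.log t ^ U := by
  classical
  have hB : 0 < B := by linarith
  obtain ⟨M, hM⟩ : ∃ M : ℝ, M = 2 * B + 8 := ⟨_, rfl⟩
  obtain ⟨D, K0, hlaw⟩ := law_fd (4 * M) C σ (by linarith) hσ (U + (2 * 0 + 6) + 1 + 6)
  obtain ⟨K1, hgl⟩ := gl_final 2 1 U 0 D le_rfl le_rfl ε hε
  obtain ⟨t1, ht1⟩ := log_pow_le A (min 1 (a / 8)) (by positivity)
  obtain ⟨R0, hR0⟩ := exists_nat_ge (16 * M / a + 1)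
  refine ⟨max (max (max t1 (4 * M)) (Real.exp (K0 + K1 + R0 : ℕ))) (32 / a), fun μ _ hdec hsup t S ht hS0 hS1 c hc Bad _ hBad => ?_⟩
  have q1 : t1 ≤ t := ((le_max_left _ _).trans (le_max_left _ _)).trans ((le_max_left _ _).trans ht)
  have q2 : 4 * M ≤ t := ((le_max_right _ _).trans (le_max_left _ _)).trans ((le_max_left _ _).trans ht)
  have q3 : Real.exp (K0 + K1 + R0 : ℕ) ≤ t := (le_max_right _ _).trans ((le_max_left _ _).trans ht)
  have q4 : 32 / a ≤ t := (le_max_right _ _).trans ht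
  have hM8 : 8 ≤ M := by linarith
  have ht32 : 32 ≤ t := by linarith
  have hlogp := ht1 t q1
  have hlog1 : Real.log t ^ A ≤ t := hlogp.trans (by
    have : min 1 (a / 8) * t ≤ 1 * t := mul_le_mul_of_nonneg_right (min_le_left _ _) (by linarith)
    linarith)
  have hlog2 : Real.log t ^ A ≤ a / 8 * t := hlogp.trans (mul_le_mul_of_nonneg_right (min_le_right _ _) (by linarith))
  have hat : 32 ≤ a * t := by
    rw [div_le_iff₀ ha] at q4
    linarith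
  obtain ⟨K, hK⟩ : ∃ K, K = KK M t := ⟨_, rfl⟩
  have hKge : K0 + K1 + R0 ≤ K := by
    rw [hK]
    exact KK_ge M t _ (by linarith) q3
  have hlow : M * t ≤ (2 : ℝ) ^ K := by rw [hK]; exact KK_lower M t
  have hup : (2 : ℝ) ^ K ≤ 4 * M * t := by
    rw [hK]
    exact KK_upper M t (by nlinarith)
  have hsupB : ∀ᵐ α ∂μ, |α| ≤ B := by
    filter_upwards [hsup] with α hα
    rw [abs_of_nonneg (by linarith)]
    exact hα.2
  have hRae := RR_ae μ B t (by linarith) hsupB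
  have hL := hlaw K (by omega) μ hdec t hup (RR B t) hRae c
  have hRle : (RR B t : ℝ) ≤ B * t + 2 := by
    unfold RR
    have := (Int.ceil_lt_add_one (B * t + 1)).le
    linarith
  have hcle : (c : ℝ) ≤ B * t + t + 2 := by
    have := (abs_le.1 hc).2
    linarith
  have hYle : ∀ y ∈ Finset.Icc (-(RR B t)) (RR B t), (fun y : ℤ => c + y) y ≤ ((2 : ℕ) : ℤ) ^ K := by
    intro y hy
    rw [Finset.mem_Icc] at hy
    have h1 : (y : ℝ) ≤ RR B t := by exact_mod_cast hy.2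
    have h2 : ((c + y : ℤ) : ℝ) ≤ (2 : ℝ) ^ K := by
      push_cast
      have h3 : (2 * B + 8) * t = 2 * (B * t) + 8 * t := by ring
      rw [hM, h3] at hlow
      linarith
    exact_mod_cast h2
  have hKr : (16 * M / a + 1 : ℝ) ≤ K := hR0.trans (by exact_mod_cast (by omega : R0 ≤ K))
  have hKpos : (0 : ℝ) < K := lt_of_lt_of_le (by positivity) hKr
  have hlog2K : (K : ℝ) / 2 ≤ Real.log (((2 : ℕ) ^ K : ℕ) : ℝ) := by
    push_cast
    rw [Real.log_pow]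
    nlinarith [Real.log_two_gt_d9]
  have hSm0 : ∀ y : ℤ, (((c + y : ℤ) : ℤ) : ℝ) < ((2 ^ K : ℕ) : ℝ) / Real.log ((2 ^ K : ℕ) : ℝ) ^ (0 + 1) → pp μ t y = 0 := by
    intro y hy
    apply pp_zero μ a t (by linarith) (by filter_upwards [hsup] with α hα using hα.1)
    rw [zero_add, pow_one] at hy
    have h1 : ((2 ^ K : ℕ) : ℝ) / Real.log ((2 ^ K : ℕ) : ℝ) ≤ a * t / 2 := by
      have h2 : 0 < Real.log ((2 ^ K : ℕ) : ℝ) := lt_of_lt_of_le (by positivity) hlog2K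
      rw [div_le_iff₀ h2]
      have h3 : (8 * M / a : ℝ) ≤ Real.log ((2 ^ K : ℕ) : ℝ) := by
        refine le_trans ?_ hlog2K
        have : 8 * M / a = (16 * M / a) / 2 := by ring
        rw [this]
        linarith
      rw [div_le_iff₀ ha] at h3
      push_cast
      push_cast at h3
      have h4 : t * (8 * M) ≤ t * (Real.log ((2 : ℝ) ^ K) * a) := mul_le_mul_of_nonneg_left h3 (by linarith)
      linarith
    push_cast at hy h1
    have h2 : -(Real.log t ^ A + 2) ≤ (c : ℝ) := by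
      have := (abs_le.1 hc).1
      linarith
    linarith
  have hfin := hgl K (by omega) ℤ (Finset.Icc (-(RR B t)) (RR B t)) (pp μ t) (fun y => c + y) hL hYle
    (fun y => Bad (c + y)) (fun y => (((c + y : ℤ) : ℤ) : ℝ) < ((2 ^ K : ℕ) : ℝ) / Real.log ((2 ^ K : ℕ) : ℝ) ^ (0 + 1))
    (fun y _ _ h => h) (by
      have h0 : ∑ ω ∈ Finset.Icc (-(RR B t)) (RR B t), (if (((c + ω : ℤ) : ℤ) : ℝ) < ((2 ^ K : ℕ) : ℝ) / Real.log ((2 ^ K : ℕ) : ℝ) ^ (0 + 1) then pp μ t ω else 0) = 0 := by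
        apply Finset.sum_eq_zero
        intro y _
        split_ifs with h
        · exact hSm0 y h
        · rfl
      rw [h0]
      positivity)
    (fun y _ h => hBad _ h)
  refine hfin.trans ?_
  have h1 : Real.log t ≤ K := by
    rw [hK]
    exact KK_log M t (by linarith) (by linarith)
  have h2 : 0 < Real.log t := Real.log_pos (by linarith)
  exact one_div_le_one_div_of_le (by positivity) (pow_le_pow_left₀ h2.le h1 U)

theorem gold_ae (a B C σ : ℝ) (ha : 0 < a) (hσ : 0 < σ) (μ : Measure ℝ) [IsProbabilityMeasure μ]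
    (hdec : ∀ ξ : ℝ, 1 ≤ |ξ| → ‖charFun μ ξ‖ ≤ C * |ξ| ^ (-σ)) (hsup : ∀ᵐ α ∂μ, a ≤ α ∧ α ≤ B)
    {J : Type} (T S : J → ℝ) (hT2 : ∀ j, 2 ≤ T j) (V : ℕ) (hT : Summable fun j => 1 / Real.log (T j) ^ V)
    (hS : ∀ j, 0 ≤ S j ∧ S j ≤ B * T j) :
    ∀ᵐ α ∂μ, ∀ (A : ℕ) (ε : ℝ), 0 < ε →
      {j | ∃ n : ℕ, 0 < n ∧ 2 ∣ n ∧ |(n : ℝ) - (T j * α + S j)| ≤ Real.log (T j) ^ A ∧ ¬ Asym ε n}.Finite := by
  classical
  have hne : a ≤ B := by
    obtain ⟨α, hα⟩ := hsup.exists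
    linarith [hα.1, hα.2]
  have hsupB : ∀ᵐ α ∂μ, |α| ≤ B := by
    filter_upwards [hsup] with α hα
    rw [abs_of_nonneg (by linarith)]
    exact hα.2
  have h := bc_shift μ B hsupB T S hT2 V hT (fun i j n => 0 < n ∧ 2 ∣ n ∧ ¬ Asym (1 / ((i : ℝ) + 1)) n.toNat) (by
    intro A i
    obtain ⟨t₀, h0⟩ := gold_fin a B C σ ha hne hσ (V + A) A (1 / ((i : ℝ) + 1)) (by positivity)
    exact ⟨t₀, fun j ht c hc => h0 μ hdec hsup (T j) (S j) ht (hS j).1 (hS j).2 c hc _ (fun n hn => hn)⟩)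
  filter_upwards [h] with α hα A ε hε
  obtain ⟨i, hi⟩ := exists_nat_gt (1 / ε)
  refine (hα A i).subset ?_
  rintro j ⟨n, hn0, hn2, hn3, hn4⟩
  refine ⟨n, ⟨by omega, by exact_mod_cast hn2, fun hc => hn4 ?_⟩, by exact_mod_cast hn3⟩
  rw [Int.toNat_natCast] at hc
  refine ⟨hc.1.trans ?_, hc.2⟩
  have hHL : 0 ≤ Pool.Agent.H560R3.GB.HL n := by
    by_contra hneg
    have h1 := hc.1
    have h2 : (1 / ((i : ℝ) + 1)) * Pool.Agent.H560R3.GB.HL n < 0 := mul_neg_of_pos_of_neg (by positivity) (by linarith)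
    linarith [abs_nonneg ((Pool.Agent.H560R3.GB.g n : ℝ) - Pool.Agent.H560R3.GB.HL n)]
  apply mul_le_mul_of_nonneg_right _ hHL
  rw [div_lt_iff₀ hε] at hi
  rw [div_le_iff₀ (by positivity)]
  nlinarith

end Pool.Agent.V11290.FD
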