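import Pool.Agent.V11290.FD.Gold
import Pool.Agent.TH872.Mir6
import Pool.Agent.TH872.An4

set_option autoImplicit false

/-! Level of distribution for the residues near `t α + s`. -/

namespace Pool.Agent.V11290.FD
open MeasureTheory Filter

lemma union_prob {ι τ : Type} (Ω : Finset ι) (p : ι → ℝ) (hp : ∀ ω ∈ Ω, 0 ≤ p ω) (I : Finset τ) (E : ι → Prop) [DecidablePred E]
    (F : τ → ι → Prop) [∀ i, DecidablePred (F i)] (h : ∀ ω ∈ Ω, E ω → ∃ i ∈ I, F i ω) (q : ℝ)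
    (hq : ∀ i ∈ I, ∑ ω ∈ Ω, (if F i ω then p ω else 0) ≤ q) :
    ∑ ω ∈ Ω, (if E ω then p ω else 0) ≤ I.card * q := by
  have h1 : ∀ ω ∈ Ω, (if E ω then p ω else 0) ≤ ∑ i ∈ I, (if F i ω then p ω else 0) := by
    intro ω hω
    have hn : ∀ i ∈ I, 0 ≤ (if F i ω then p ω else 0) := by
      intro i _
      split_ifs
      · exact hp ω hω
      · exact le_rfl
    split_ifs with hE
    · obtain ⟨i, hi, hF⟩ := h ω hω hE
      refine le_trans (le_of_eq ?_) (Finset.single_le_sum hn hi)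
      rw [if_pos hF]
    · exact Finset.sum_nonneg hn
  refine (Finset.sum_le_sum h1).trans ?_
  rw [Finset.sum_comm]
  refine (Finset.sum_le_sum hq).trans (le_of_eq ?_)
  rw [Finset.sum_const, nsmul_eq_mul]

/-- the weighted sum of the errors -/
noncomputable def wsum (lam : ℕ → ℝ) (Q x a : ℕ) : ℝ :=
  ∑ q ∈ (Finset.Icc 1 Q).filter (fun q => a.Coprime q),
    lam q * (Pool.Agent.W93.LV.Fu (fun n => ArithmeticFunction.vonMangoldt n) x q a - (x : ℝ) / Nat.totient q)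

/-- the set-up: the scale `K` -/
lemma scale (B : ℝ) (hB : 0 < B) (A R : ℕ) : ∃ t₀ : ℝ, ∀ t : ℝ, t₀ ≤ t → ∃ K : ℕ, R ≤ K ∧ 2 ≤ K ∧ 1 < t ∧
    (2 : ℝ) ^ K ≤ (8 * (3 * B + 8)) * t ∧ Real.log t ≤ K ∧ 1 < Real.log t ∧ t ≤ (2 : ℝ) ^ K ∧ (K : ℝ) ≤ 3 * Real.log t ∧
    (B * t ≤ (2 : ℝ) ^ (K - 1)) ∧
    (∀ S : ℝ, |S| ≤ B * t → ∀ c : ℤ, |(c : ℝ) - S| ≤ Real.log t ^ A + 2 → ∀ y ∈ Finset.Icc (-(RR B t)) (RR B t),
      -(((2 : ℕ) ^ K : ℕ) : ℤ) < c + y ∧ c + y ≤ (((2 : ℕ) ^ (K - 1) : ℕ) : ℤ)) := by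
  obtain ⟨M, hM⟩ : ∃ M : ℝ, M = 2 * (3 * B + 8) := ⟨_, rfl⟩
  obtain ⟨t1, ht1⟩ := log_pow_le A 1 one_pos
  refine ⟨max (max t1 (4 * M)) (Real.exp (R + 3 : ℕ)), fun t ht => ?_⟩
  have q1 : t1 ≤ t := ((le_max_left _ _).trans (le_max_left _ _)).trans ht
  have q2 : 4 * M ≤ t := ((le_max_right _ _).trans (le_max_left _ _)).trans ht
  have q3 : Real.exp (R + 3 : ℕ) ≤ t := (le_max_right _ _).trans ht
  have hM8 : 16 ≤ M := by linarith
  have ht32 : 64 ≤ t := by linarith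
  have hlogp := ht1 t q1
  rw [one_mul] at hlogp
  obtain ⟨K, hK⟩ : ∃ K, K = KK M t := ⟨_, rfl⟩
  have hKge : R + 3 ≤ K := by
    rw [hK]
    exact KK_ge M t _ (by linarith) q3
  have hlow : M * t ≤ (2 : ℝ) ^ K := by rw [hK]; exact KK_lower M t
  have hup : (2 : ℝ) ^ K ≤ 4 * M * t := by
    rw [hK]
    exact KK_upper M t (by nlinarith)
  have h2K : (2 : ℝ) ^ K = 2 * 2 ^ (K - 1) := by
    rw [← pow_succ']
    congr 1
    omega
  have hlow2 : (3 * B + 8) * t ≤ (2 : ℝ) ^ (K - 1) := by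
    have : M * t = 2 * ((3 * B + 8) * t) := by rw [hM]; ring
    linarith
  have hBt : 0 ≤ B * t := by positivity
  have hMt : (3 * B + 8) * t = 3 * (B * t) + 8 * t := by ring
  refine ⟨K, by omega, by omega, by linarith, ?_, ?_, ?_, ?_, ?_, ?_, ?_⟩
  · refine hup.trans (le_of_eq ?_)
    rw [hM]
    ring
  · rw [hK]
    exact KK_log M t (by linarith) (by linarith)
  · rw [Real.lt_log_iff_exp_lt (by linarith)]
    linarith [Real.exp_one_lt_d9]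
  · nlinarith
  · rw [hK]
    exact KK_log_upper M t (by linarith) q2
  · linarith
  · intro S hS c hc y hy
    have hRle : (RR B t : ℝ) ≤ B * t + 2 := by
      unfold RR
      have := (Int.ceil_lt_add_one (B * t + 1)).le
      linarith
    have hcabs : |(c : ℝ)| ≤ B * t + t + 2 := by
      have h1 : |(c : ℝ)| ≤ |(c : ℝ) - S| + |S| := by
        have := abs_add_le ((c : ℝ) - S) S
        rwa [sub_add_cancel] at this
      linarith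
    rw [Finset.mem_Icc] at hy
    have h1 : (y : ℝ) ≤ RR B t := by exact_mod_cast hy.2
    have h2 : -(RR B t : ℝ) ≤ y := by exact_mod_cast hy.1
    have h3 := abs_le.1 hcabs
    constructor
    · have h4 : -((2 : ℝ) ^ K) < ((c + y : ℤ) : ℝ) := by
        push_cast
        linarith [h3.1]
      exact_mod_cast h4
    · have h4 : ((c + y : ℤ) : ℝ) ≤ (2 : ℝ) ^ (K - 1) := by
        push_cast
        linarith [h3.2]
      exact_mod_cast h4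

lemma floor_rpow (t X ε : ℝ) (ht : 1 < t) (hX : t ≤ X) : (⌊t ^ (1 - ε)⌋₊ : ℝ) ≤ X ^ (1 - ε) := by
  by_cases h1 : ε ≤ 1
  · refine (Nat.floor_le (Real.rpow_nonneg (by linarith) _)).trans ?_
    exact Real.rpow_le_rpow (by linarith) hX (by linarith)
  · push Not at h1
    have h6 := Real.rpow_lt_one_of_one_lt_of_neg ht (by linarith : 1 - ε < 0)
    rw [Nat.floor_eq_zero.2 h6]
    push_cast
    exact Real.rpow_nonneg (by linarith) _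

open Pool.Agent.W93.AU Pool.Agent.TH872.Mir in
theorem lev_fin (B C σ : ℝ) (hB : 0 < B) (hσ : 0 < σ) (T U U' A : ℕ) (ε : ℝ) (hε : 0 < ε) :
    ∃ t₀ : ℝ, ∀ (μ : Measure ℝ) [IsProbabilityMeasure μ], (∀ ξ : ℝ, 1 ≤ |ξ| → ‖charFun μ ξ‖ ≤ C * |ξ| ^ (-σ)) →
    (∀ᵐ α ∂μ, |α| ≤ B) → ∀ t S : ℝ, t₀ ≤ t → |S| ≤ B * t →
    ∀ c : ℤ, |(c : ℝ) - S| ≤ Real.log t ^ A + 2 → ∀ L : ℕ, (L : ℝ) ≤ Real.log t ^ T →
    ∀ lam : ℕ → ℕ → ℝ, (∀ l < L, ∀ q : ℕ, |lam l q| ≤ Real.log t ^ T) →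
    ∀ Bad : ℤ → Prop, [DecidablePred Bad] →
    (∀ h : ℤ, Bad h → ∃ l < L, 0 < h ∧ ∃ x : ℕ, (x : ℝ) ≤ B * t ∧
      t / Real.log t ^ U < |wsum (lam l) ⌊t ^ (1 - ε)⌋₊ x h.toNat|) →
    ∑ y ∈ Finset.Icc (-(RR B t)) (RR B t), (if Bad (c + y) then pp μ t y else 0) ≤ 1 / Real.log t ^ U' := by
  classical
  obtain ⟨M, hM⟩ : ∃ M : ℝ, M = 8 * (3 * B + 8) := ⟨_, rfl⟩
  obtain ⟨W, hW⟩ : ∃ W, W = U + U' + T + 1 := ⟨_, rfl⟩
  obtain ⟨V, hV⟩ := lv_law 2 1 le_rfl le_rfl ε hε T W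
  obtain ⟨D, K0, hlaw⟩ := law_fd M C σ (by linarith) hσ V
  obtain ⟨K1, hgl⟩ := hV D
  obtain ⟨R0, hR0⟩ := exists_nat_ge M
  obtain ⟨t₀, ht₀⟩ := scale B hB A (K0 + K1 + R0)
  refine ⟨t₀, fun μ _ hdec hsupB t S ht hS c hc L hL lam hlam Bad _ hBad => ?_⟩
  obtain ⟨K, hKge, hK2, ht1, hup, hlogK, hlog1, htK, _, hBt1, hrange⟩ := ht₀ t ht
  rw [← hM] at hup
  have hRae := RR_ae μ B t (by linarith) hsupB
  have hLw := hlaw K (by omega) μ hdec t hup (RR B t) hRae c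
  have hlogt : 0 < Real.log t := by linarith
  have hKpos : (0 : ℝ) < K := by linarith
  have hKr : M ≤ (K : ℝ) := hR0.trans (by exact_mod_cast (by omega : R0 ≤ K))
  have hrg := hrange S hS c hc
  have hone : ∀ l < L, ∀ P : ℤ → Prop, [DecidablePred P] → (∀ h : ℤ, P h → 0 < h ∧ ∃ x : ℕ, (x : ℝ) ≤ B * t ∧
      t / Real.log t ^ U < |wsum (lam l) ⌊t ^ (1 - ε)⌋₊ x h.toNat|) →
      ∑ y ∈ Finset.Icc (-(RR B t)) (RR B t), (if P (c + y) then pp μ t y else 0) ≤ 1 / (K : ℝ) ^ W := by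
    intro l hl P _ hP
    refine hgl K (by omega) ℤ (Finset.Icc (-(RR B t)) (RR B t)) (pp μ t) (fun y => c + y) hLw hrg (lam l)
      (fun q => (hlam l hl q).trans (pow_le_pow_left₀ hlogt.le hlogK T)) ⌊t ^ (1 - ε)⌋₊ ?_ (fun y => P (c + y)) ?_
    · push_cast
      exact floor_rpow t _ ε ht1 htK
    · intro y _ hb
      obtain ⟨h1, x, hx, hlt⟩ := hP _ hb
      refine ⟨h1, x, ?_, lt_of_le_of_lt ?_ hlt⟩
      · have : (x : ℝ) ≤ (2 : ℝ) ^ (K - 1) := hx.trans hBt1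
        exact_mod_cast this
      · push_cast
        rw [div_le_div_iff₀ (by positivity) (by positivity)]
        have h1 : Real.log t ^ U ≤ (K : ℝ) ^ U := pow_le_pow_left₀ hlogt.le hlogK U
        have h2 : M * (K : ℝ) ^ U ≤ (K : ℝ) ^ W := by
          have h3 : (K : ℝ) ^ W = (K : ℝ) ^ U * ((K : ℝ) ^ (U' + T) * K) := by rw [hW]; ring
          rw [h3]
          have h4 : (1 : ℝ) ≤ (K : ℝ) ^ (U' + T) := one_le_pow₀ (by linarith)
          have h5 : M ≤ (K : ℝ) ^ (U' + T) * K := by nlinarith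
          have h6 : 0 ≤ (K : ℝ) ^ U := by positivity
          nlinarith
        calc (2 : ℝ) ^ K * Real.log t ^ U ≤ (M * t) * (K : ℝ) ^ U := mul_le_mul hup h1 (by positivity) (by nlinarith)
          _ = t * (M * (K : ℝ) ^ U) := by ring
          _ ≤ t * (K : ℝ) ^ W := mul_le_mul_of_nonneg_left h2 (by linarith)
  have hun := Pool.Agent.V11290.FD.union_prob (Finset.Icc (-(RR B t)) (RR B t)) (pp μ t) (fun y _ => pp_nonneg μ t y)
    (Finset.range L) (fun y => Bad (c + y)) (fun l y => 0 < c + y ∧ ∃ x : ℕ, (x : ℝ) ≤ B * t ∧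
      t / Real.log t ^ U < |wsum (lam l) ⌊t ^ (1 - ε)⌋₊ x (c + y).toNat|) (by
      intro y _ hb
      obtain ⟨l, hl, h1, h2⟩ := hBad _ hb
      exact ⟨l, Finset.mem_range.2 hl, h1, h2⟩) (1 / (K : ℝ) ^ W) (by
      intro l hl
      exact hone l (Finset.mem_range.1 hl) (fun h => 0 < h ∧ ∃ x : ℕ, (x : ℝ) ≤ B * t ∧
        t / Real.log t ^ U < |wsum (lam l) ⌊t ^ (1 - ε)⌋₊ x h.toNat|) (fun h hh => hh))
  refine hun.trans ?_
  rw [Finset.card_range, mul_one_div, div_le_div_iff₀ (by positivity) (by positivity), one_mul]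
  calc (L : ℝ) * Real.log t ^ U' ≤ (K : ℝ) ^ T * (K : ℝ) ^ U' := by
        apply mul_le_mul _ (pow_le_pow_left₀ hlogt.le hlogK U') (by positivity) (by positivity)
        exact hL.trans (pow_le_pow_left₀ hlogt.le hlogK T)
    _ = (K : ℝ) ^ (T + U') := by rw [pow_add]
    _ ≤ (K : ℝ) ^ W := pow_le_pow_right₀ (by linarith) (by omega)

theorem lev_ae (B C σ : ℝ) (hB : 0 < B) (hσ : 0 < σ) (ε : ℝ) (hε : 0 < ε) (μ : Measure ℝ) [IsProbabilityMeasure μ]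
    (hdec : ∀ ξ : ℝ, 1 ≤ |ξ| → ‖charFun μ ξ‖ ≤ C * |ξ| ^ (-σ)) (hsup : ∀ᵐ α ∂μ, |α| ≤ B)
    {J : Type} (t s : J → ℝ) (ht2 : ∀ j, 2 ≤ t j) (V : ℕ) (hT : Summable fun j => 1 / Real.log (t j) ^ V)
    (hs : ∀ j, |s j| ≤ B * t j) (T : ℕ) (L : J → ℕ) (hL : ∀ j, (L j : ℝ) ≤ Real.log (t j) ^ T)
    (lam : J → ℕ → ℕ → ℝ) (hlam : ∀ j, ∀ l < L j, ∀ q : ℕ, |lam j l q| ≤ Real.log (t j) ^ T) :
    ∀ᵐ α ∂μ, ∀ A U : ℕ,
      {j | ¬ ∀ a : ℕ, 0 < a → |(a : ℝ) - (t j * α + s j)| ≤ Real.log (t j) ^ A → ∀ l < L j, ∀ x : ℕ, (x : ℝ) ≤ B * t j →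
        |wsum (lam j l) ⌊t j ^ (1 - ε)⌋₊ x a| ≤ t j / Real.log (t j) ^ U}.Finite := by
  classical
  have h := bc_shift μ B hsup t s ht2 V hT (fun U j h => ∃ l < L j, 0 < h ∧ ∃ x : ℕ, (x : ℝ) ≤ B * t j ∧
      t j / Real.log (t j) ^ U < |wsum (lam j l) ⌊t j ^ (1 - ε)⌋₊ x h.toNat|) (by
    intro A U
    obtain ⟨t₀, h0⟩ := lev_fin B C σ hB hσ T U (V + A) A ε hε
    exact ⟨t₀, fun j hj c hc => h0 μ hdec hsup (t j) (s j) hj (hs j) c hc (L j) (hL j) (lam j) (hlam j) _ (fun n hn => hn)⟩)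
  filter_upwards [h] with α hα A U
  refine (hα A U).subset ?_
  intro j hj
  rw [Set.mem_ofPred_eq] at hj ⊢
  push Not at hj
  obtain ⟨n, hn0, hn1, l, hl, x, hx, hlt⟩ := hj
  exact ⟨(n : ℤ), ⟨l, hl, by exact_mod_cast hn0, x, hx, by rw [Int.toNat_natCast]; exact hlt⟩, by exact_mod_cast hn1⟩

end Pool.Agent.V11290.FD
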