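import Pool.Agent.TH935.DF5
import Pool.Agent.V11290.FD.Fam2

set_option autoImplicit false

/-! Prime pairs in progressions with a difference near `t α + s`. -/

namespace Pool.Agent.V11290.FD
open MeasureTheory Filter
open Pool.Agent.W93.PP (GoodD)

/-- the scale for the primes -/
noncomputable def XX (t : ℝ) (W : ℕ) : ℕ := ⌈t⌉₊ * ⌈Real.log t⌉₊ ^ W

lemma xx_bounds (C W : ℕ) (hW : C + 7 ≤ W) : ∃ t₀ : ℝ, ∀ t : ℝ, t₀ ≤ t → ⌈t⌉₊ ≤ XX t W ∧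
    (⌈t⌉₊ : ℝ) * Real.log (XX t W) ^ (C + 6) ≤ XX t W ∧ (XX t W : ℝ) ≤ ⌈t⌉₊ * Real.log (XX t W) ^ (W + 1) ∧
    Real.log (XX t W) ≤ 2 * Real.log t ∧ Real.log t ≤ Real.log (XX t W) := by
  obtain ⟨t1, ht1⟩ := log_pow_le W (1 / (2 * 2 ^ W)) (by positivity)
  refine ⟨max (max t1 2) (Real.exp (2 ^ (C + 6) + 2 ^ W)), fun t ht => ?_⟩
  have q1 : t1 ≤ t := ((le_max_left _ _).trans (le_max_left _ _)).trans ht
  have q2 : 2 ≤ t := ((le_max_right _ _).trans (le_max_left _ _)).trans ht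
  have q3 : Real.exp (2 ^ (C + 6) + 2 ^ W) ≤ t := (le_max_right _ _).trans ht
  have hlog : (2 : ℝ) ^ (C + 6) + 2 ^ W ≤ Real.log t := by
    rw [Real.le_log_iff_exp_le (by linarith)]
    exact q3
  have h2C : (1 : ℝ) ≤ 2 ^ (C + 6) := one_le_pow₀ (by norm_num)
  have h2W : (1 : ℝ) ≤ 2 ^ W := one_le_pow₀ (by norm_num)
  have hl1 : 1 ≤ Real.log t := by linarith
  obtain ⟨N, hN⟩ : ∃ N : ℕ, N = ⌈t⌉₊ := ⟨_, rfl⟩
  obtain ⟨Lc, hLc⟩ : ∃ Lc : ℕ, Lc = ⌈Real.log t⌉₊ := ⟨_, rfl⟩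
  obtain ⟨X, hX⟩ : ∃ X : ℕ, X = XX t W := ⟨_, rfl⟩
  have hXe : X = N * Lc ^ W := by rw [hX, hN, hLc]; rfl
  have hN1 : t ≤ N := by rw [hN]; exact Nat.le_ceil _
  have hN2 : (N : ℝ) ≤ 2 * t := by
    rw [hN]
    have := (Nat.ceil_lt_add_one (by linarith : 0 ≤ t)).le
    linarith
  have hL1 : Real.log t ≤ Lc := by rw [hLc]; exact Nat.le_ceil _
  have hL2 : (Lc : ℝ) ≤ 2 * Real.log t := by
    rw [hLc]
    have := (Nat.ceil_lt_add_one (by linarith : 0 ≤ Real.log t)).le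
    linarith
  have hLcn : 1 ≤ Lc := by
    have : (1 : ℝ) ≤ Lc := by linarith
    exact_mod_cast this
  have hNX : N ≤ X := by
    rw [hXe]
    exact Nat.le_mul_of_pos_right _ (by positivity)
  have hNXr : (N : ℝ) ≤ X := by exact_mod_cast hNX
  have hXr : (X : ℝ) = N * (Lc : ℝ) ^ W := by rw [hXe]; push_cast; rfl
  have hLW : (Lc : ℝ) ^ W ≤ 2 ^ W * Real.log t ^ W := by
    rw [← mul_pow]
    exact pow_le_pow_left₀ (Nat.cast_nonneg _) hL2 W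
  have hXt : (X : ℝ) ≤ t ^ 2 := by
    have h1 := ht1 t q1
    have h2 : 2 ^ W * Real.log t ^ W ≤ t / 2 := by
      calc (2 : ℝ) ^ W * Real.log t ^ W ≤ 2 ^ W * (1 / (2 * 2 ^ W) * t) := mul_le_mul_of_nonneg_left h1 (by positivity)
        _ = t / 2 := by field_simp
    rw [hXr]
    calc (N : ℝ) * (Lc : ℝ) ^ W ≤ (2 * t) * (t / 2) := mul_le_mul hN2 (hLW.trans h2) (by positivity) (by linarith)
      _ = t ^ 2 := by ring
  have hX0 : (0 : ℝ) < X := by linarith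
  have hlogX : Real.log X ≤ 2 * Real.log t := by
    have h1 := Real.log_le_log hX0 hXt
    rw [Real.log_pow] at h1
    exact_mod_cast h1
  have hlogX2 : Real.log t ≤ Real.log X := Real.log_le_log (by linarith) (by linarith)
  have hlX0 : 0 ≤ Real.log (X : ℝ) := by linarith
  rw [← hX, ← hN]
  refine ⟨hNX, ?_, ?_, hlogX, hlogX2⟩
  · rw [hXr]
    apply mul_le_mul_of_nonneg_left _ (Nat.cast_nonneg _)
    rw [← hXr]
    calc Real.log (X : ℝ) ^ (C + 6) ≤ (2 * Real.log t) ^ (C + 6) := pow_le_pow_left₀ hlX0 hlogX _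
      _ = 2 ^ (C + 6) * Real.log t ^ (C + 6) := mul_pow _ _ _
      _ ≤ Real.log t * Real.log t ^ (C + 6) := mul_le_mul_of_nonneg_right (by linarith) (by positivity)
      _ = Real.log t ^ (C + 7) := by ring
      _ ≤ Real.log t ^ W := pow_le_pow_right₀ hl1 hW
      _ ≤ (Lc : ℝ) ^ W := pow_le_pow_left₀ (by linarith) hL1 W
  · rw [hXr]
    apply mul_le_mul_of_nonneg_left _ (Nat.cast_nonneg _)
    rw [← hXr]
    calc (Lc : ℝ) ^ W ≤ 2 ^ W * Real.log t ^ W := hLW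
      _ ≤ Real.log t * Real.log t ^ W := mul_le_mul_of_nonneg_right (by linarith) (by positivity)
      _ = Real.log t ^ (W + 1) := by ring
      _ ≤ _ := pow_le_pow_left₀ (by linarith) hlogX2 _

theorem pairs_ae (μ : Measure ℝ) [IsProbabilityMeasure μ] (B : ℝ) (hμ : ∀ᵐ α ∂μ, |α| ≤ B)
    (C σ : ℝ) (hσ : 0 < σ) (hdec : ∀ ξ : ℝ, 1 ≤ |ξ| → ‖charFun μ ξ‖ ≤ C * |ξ| ^ (-σ))
    (J : Type) (t s : J → ℝ) (ht : ∀ j, 2 ≤ t j) (hs : ∀ j, |s j| ≤ B * t j)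
    (V : ℕ) (hV : Summable fun j => 1 / Real.log (t j) ^ V) :
    ∀ᵐ α ∂μ, ∀ A B' C' W : ℕ, C' + 7 ≤ W → {j | ¬ ∀ n : ℕ, |(n : ℝ) - (t j * α + s j)| ≤ Real.log (t j) ^ A →
      GoodD 0 B' C' (XX (t j) W) n}.Finite := by
  classical
  obtain ⟨p, hp⟩ := exists_nat_ge (1 / σ)
  obtain ⟨B₁, hB₁⟩ := exists_nat_ge (2 * (|B| + 1) + 8)
  have hpσ : 1 ≤ ((p + 1 : ℕ) : ℝ) * σ := by
    rw [div_le_iff₀ hσ] at hp
    push_cast
    nlinarith
  have h := abs_one (|B| + 1) C σ (by positivity) hσ μ hdec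
    (by
      filter_upwards [hμ] with α hα
      linarith [le_abs_self B]) t s ht V hV (fun j => (hs j).trans (by nlinarith [ht j, le_abs_self B])) (p + 1) (by omega) hpσ B₁ hB₁
    (fun i j n => (Nat.unpair i).1 + 7 ≤ (Nat.unpair (Nat.unpair i).2).1 → 0 ≤ n →
      GoodD 0 (Nat.unpair (Nat.unpair i).2).2 (Nat.unpair i).1 (XX (t j) (Nat.unpair (Nat.unpair i).2).1) n.toNat) (by
    intro i U
    obtain ⟨C', hC'⟩ : ∃ C', C' = (Nat.unpair i).1 := ⟨_, rfl⟩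
    obtain ⟨W, hW⟩ : ∃ W, W = (Nat.unpair (Nat.unpair i).2).1 := ⟨_, rfl⟩
    obtain ⟨B', hB'⟩ : ∃ B', B' = (Nat.unpair (Nat.unpair i).2).2 := ⟨_, rfl⟩
    rw [← hC', ← hW, ← hB']
    by_cases hCW : C' + 7 ≤ W
    swap
    · refine ⟨0, fun j _ x v _ _ _ 𝒮 _ hbad => ?_⟩
      have h𝒮 : 𝒮 = ∅ := by
        rw [Finset.eq_empty_iff_forall_notMem]
        intro q hq
        exact hbad q hq fun h => absurd h hCW
      rw [h𝒮, Finset.card_empty, Nat.cast_zero]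
      apply div_nonneg (Nat.cast_nonneg _)
      exact pow_nonneg (Real.log_natCast_nonneg _) _
    obtain ⟨N₀, h0⟩ := Pool.Agent.TH935.DF.gd_fam (p + 1) 0 B' C' U 1 B₁ (W + 1)
    obtain ⟨t₀, ht₀⟩ := xx_bounds C' W hCW
    refine ⟨max N₀ t₀, fun j hj x v _ hv hE 𝒮 h𝒮 hbad => ?_⟩
    have hN1 : t j ≤ (⌈t j⌉₊ : ℝ) := Nat.le_ceil _
    have hN : N₀ ≤ ⌈t j⌉₊ := by
      have : (N₀ : ℝ) ≤ (⌈t j⌉₊ : ℝ) := ((le_max_left _ _).trans hj).trans hN1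
      exact_mod_cast this
    obtain ⟨g1, g2, g3, _, _⟩ := ht₀ (t j) ((le_max_right _ _).trans hj)
    refine h0 ⌈t j⌉₊ hN x v hv (by rw [pow_one]; exact hE) (XX (t j) W) g1 g2 g3 𝒮 h𝒮 (fun m hm => ?_)
    have h1 := hbad m hm
    push Not at h1
    exact h1.2)
  filter_upwards [h] with α hα A B' C' W hCW
  refine (hα A (Nat.pair C' (Nat.pair W B'))).subset ?_
  intro j hj
  rw [Set.mem_ofPred_eq] at hj ⊢
  intro hall
  apply hj
  intro n hn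
  have h1 := hall (n : ℤ) (by exact_mod_cast hn)
  rw [Nat.unpair_pair] at h1
  simp only [Nat.unpair_pair] at h1
  have h2 := h1 hCW (Int.natCast_nonneg _)
  rwa [Int.toNat_natCast] at h2

end Pool.Agent.V11290.FD
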