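import Pool.Agent.TH935.TF9
import Pool.Agent.V11290.FD.Fam3
import Pool.Agent.V11290.FD.Win

set_option autoImplicit false

/-! Prime values of systems of linear forms on arbitrary sets: comparison with the rough values. -/

namespace Pool.Agent.V11290.FD.AS
open Finset
open Pool.Agent.TH935.TF
open Pool.Agent.H373R2.T7 (energy ev_L' ev_log')

open Pool.Agent.H560R3.GB (choose_delta)
open Pool.Agent.W93.PP (markov)

/-- the weighted number of the prime values -/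
noncomputable def WS {k : ℕ} (α β : Fin k → ℤ) (S : Finset ℕ) : ℝ := ∑ n ∈ S, ∏ i, LL (α i * (n : ℤ) + β i)

/-- the weighted number of the rough values -/
noncomputable def MS {k : ℕ} (z : ℕ) (α β : Fin k → ℤ) (S : Finset ℕ) : ℝ := ∑ n ∈ S, ∏ i, mdl z (α i * (n : ℤ) + β i)

/-- the number of the prime values -/
def cS {k : ℕ} (α β : Fin k → ℤ) (S : Finset ℕ) : ℕ :=
  (S.filter (fun n : ℕ => ∀ i, (α i * (n : ℤ) + β i).natAbs.Prime)).card

lemma MS_nonneg {k : ℕ} (z : ℕ) (α β : Fin k → ℤ) (S : Finset ℕ) : 0 ≤ MS z α β S :=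
  sum_nonneg fun _ _ => prod_nonneg fun _ _ => mdl_nonneg _ _

lemma wS_le {k : ℕ} (hk : 1 ≤ k) (α β : Fin k → ℤ) (hα : ∀ i, α i ≠ 0) (X Y : ℕ) (hX : 1 ≤ X)
    (hb : ∀ i, ∀ n ∈ Ioc 0 Y, (α i * (n : ℤ) + β i).natAbs ≤ X) (S : Finset ℕ) (hS : S ⊆ Ioc 0 Y) :
    WS α β S ≤ Real.log X ^ k * (cS α β S + 4 * k * √(X : ℝ)) := by
  classical
  obtain ⟨M, hM⟩ : ∃ M, M = Real.log (X : ℝ) := ⟨_, rfl⟩
  have hM0 : 0 ≤ M := by rw [hM]; exact Real.log_natCast_nonneg X
  rw [← hM]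
  have h1 : ∀ n ∈ S, ∏ i, LL (α i * (n : ℤ) + β i) ≤
      (if ∀ i, (α i * (n : ℤ) + β i).natAbs.Prime then M ^ k else 0) +
        M ^ (k - 1) * ∑ i, Pool.Agent.W93.GB.pp (α i * (n : ℤ) + β i).natAbs := by
    intro n hn
    have hle : ∀ i, LL (α i * (n : ℤ) + β i) ≤ M := by
      intro i
      rw [hM]
      exact LL_le _ X hX (hb i n (hS hn))
    have hpp0 : 0 ≤ ∑ i, Pool.Agent.W93.GB.pp (α i * (n : ℤ) + β i).natAbs := sum_nonneg fun i _ => Pool.Agent.W93.GB.pp_nonneg _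
    by_cases hp : ∀ i, (α i * (n : ℤ) + β i).natAbs.Prime
    · rw [if_pos hp]
      have h2 : ∏ i, LL (α i * (n : ℤ) + β i) ≤ M ^ k := by
        calc ∏ i, LL (α i * (n : ℤ) + β i) ≤ ∏ _i : Fin k, M := prod_le_prod (fun i _ => LL_nonneg _) (fun i _ => hle i)
          _ = M ^ k := by rw [prod_const, card_univ, Fintype.card_fin]
      have : 0 ≤ M ^ (k - 1) * ∑ i, Pool.Agent.W93.GB.pp (α i * (n : ℤ) + β i).natAbs := by positivity
      linarith
    · rw [if_neg hp, zero_add]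
      push Not at hp
      obtain ⟨i₀, hi₀⟩ := hp
      have e1 : LL (α i₀ * (n : ℤ) + β i₀) = Pool.Agent.W93.GB.pp (α i₀ * (n : ℤ) + β i₀).natAbs := by
        unfold Pool.Agent.W93.GB.pp LL
        rw [lamP_nat, if_neg hi₀, sub_zero]
      rw [← mul_prod_erase univ (fun i => LL (α i * (n : ℤ) + β i)) (mem_univ i₀)]
      rw [e1]
      have e2 : ∏ i ∈ univ.erase i₀, LL (α i * (n : ℤ) + β i) ≤ M ^ (k - 1) := by
        calc ∏ i ∈ univ.erase i₀, LL (α i * (n : ℤ) + β i) ≤ ∏ _i ∈ univ.erase i₀, M :=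
              prod_le_prod (fun i _ => LL_nonneg _) (fun i _ => hle i)
          _ = M ^ (k - 1) := by rw [prod_const, card_erase_of_mem (mem_univ _), card_univ, Fintype.card_fin]
      have e3 : Pool.Agent.W93.GB.pp (α i₀ * (n : ℤ) + β i₀).natAbs ≤ ∑ i, Pool.Agent.W93.GB.pp (α i * (n : ℤ) + β i).natAbs :=
        single_le_sum (f := fun i => Pool.Agent.W93.GB.pp (α i * (n : ℤ) + β i).natAbs) (fun i _ => Pool.Agent.W93.GB.pp_nonneg _) (mem_univ i₀)
      rw [mul_comm]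
      exact mul_le_mul e2 e3 (Pool.Agent.W93.GB.pp_nonneg _) (by positivity)
  unfold WS
  refine (sum_le_sum h1).trans ?_
  rw [sum_add_distrib, ← mul_sum]
  have h2 : ∑ n ∈ S, (if ∀ i, (α i * (n : ℤ) + β i).natAbs.Prime then M ^ k else 0) = cS α β S * M ^ k := by
    rw [← sum_filter, sum_const, nsmul_eq_mul]
    rfl
  have h3 : ∑ n ∈ S, ∑ i, Pool.Agent.W93.GB.pp (α i * (n : ℤ) + β i).natAbs ≤ k * (4 * √(X : ℝ) * M) := by
    rw [sum_comm]
    calc ∑ i, ∑ n ∈ S, Pool.Agent.W93.GB.pp (α i * (n : ℤ) + β i).natAbs ≤ ∑ _i : Fin k, (4 * √(X : ℝ) * M) := by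
          apply sum_le_sum
          intro i _
          rw [hM]
          refine le_trans ?_ (pp_form (α i) (β i) (hα i) X 0 Y hX (hb i))
          exact sum_le_sum_of_subset_of_nonneg hS fun n _ _ => Pool.Agent.W93.GB.pp_nonneg _
      _ = _ := by rw [sum_const, card_univ, Fintype.card_fin, nsmul_eq_mul]
  rw [h2]
  have h4 : M ^ (k - 1) * ∑ n ∈ S, ∑ i, Pool.Agent.W93.GB.pp (α i * (n : ℤ) + β i).natAbs ≤ M ^ (k - 1) * (k * (4 * √(X : ℝ) * M)) :=
    mul_le_mul_of_nonneg_left h3 (by positivity)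
  have e : M ^ (k - 1) * (k * (4 * √(X : ℝ) * M)) = M ^ k * (4 * k * √(X : ℝ)) := by
    have : M ^ k = M ^ (k - 1) * M := by rw [← pow_succ]; congr 1; omega
    rw [this]
    ring
  rw [e] at h4
  rw [mul_add]
  linarith

lemma cS_le {k : ℕ} (α β : Fin k → ℤ) (hα : ∀ i, α i ≠ 0) (Y t : ℕ) (ht : 2 ≤ t) (S : Finset ℕ) (hS : S ⊆ Ioc 0 Y) :
    (cS α β S : ℝ) ≤ k * (2 * t + 1) + WS α β S / Real.log t ^ k := by
  classical
  have hly : 0 < Real.log t := Real.log_pos (by exact_mod_cast (by omega : 1 < t))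
  obtain ⟨P1, hP1⟩ : ∃ P1 : Finset ℕ, P1 = univ.biUnion (fun i : Fin k => (Ioc 0 Y).filter (fun n : ℕ => (α i * (n : ℤ) + β i).natAbs ≤ t)) := ⟨_, rfl⟩
  obtain ⟨P3, hP3⟩ : ∃ P3 : Finset ℕ, P3 = S.filter (fun n : ℕ => ∀ i, (α i * (n : ℤ) + β i).natAbs.Prime ∧ t < (α i * (n : ℤ) + β i).natAbs) := ⟨_, rfl⟩
  have hsub : S.filter (fun n : ℕ => ∀ i, (α i * (n : ℤ) + β i).natAbs.Prime) ⊆ P1 ∪ P3 := by
    intro n hn
    rw [mem_filter] at hn
    rw [mem_union, hP1, hP3, mem_biUnion, mem_filter]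
    by_cases h : ∃ i, (α i * (n : ℤ) + β i).natAbs ≤ t
    · obtain ⟨i, hi⟩ := h
      exact Or.inl ⟨i, mem_univ _, mem_filter.2 ⟨hS hn.1, hi⟩⟩
    · push Not at h
      exact Or.inr ⟨hn.1, fun i => ⟨hn.2 i, h i⟩⟩
  have hc1 : P1.card ≤ k * (2 * t + 1) := by
    rw [hP1]
    refine card_biUnion_le.trans ((sum_le_sum fun i _ => small_cnt (α i) (β i) (hα i) 0 Y t).trans ?_)
    rw [sum_const, card_univ, Fintype.card_fin, smul_eq_mul]
  have hc3 : (P3.card : ℝ) * Real.log t ^ k ≤ WS α β S := by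
    rw [hP3, card_filter]
    push_cast
    rw [sum_mul]
    unfold WS
    apply sum_le_sum
    intro n _
    split_ifs with h
    · rw [one_mul]
      calc Real.log t ^ k = ∏ _i : Fin k, Real.log t := by rw [prod_const, card_univ, Fintype.card_fin]
        _ ≤ ∏ i, LL (α i * (n : ℤ) + β i) := by
            apply prod_le_prod (fun _ _ => hly.le)
            intro i _
            unfold LL
            rw [ArithmeticFunction.vonMangoldt_apply_prime (h i).1]
            exact Real.log_le_log (by exact_mod_cast (by omega : 0 < t)) (by exact_mod_cast (h i).2.le)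
    · rw [zero_mul]
      exact prod_nonneg fun i _ => LL_nonneg _
  have h4 : cS α β S ≤ k * (2 * t + 1) + P3.card := by
    unfold cS
    refine (card_le_card hsub).trans ((card_union_le _ _).trans ?_)
    omega
  have h5 : (P3.card : ℝ) ≤ WS α β S / Real.log t ^ k := by
    rw [le_div_iff₀ (by positivity)]
    exact hc3
  have h6 : (cS α β S : ℝ) ≤ ((k * (2 * t + 1) + P3.card : ℕ) : ℝ) := by exact_mod_cast h4
  push_cast at h6
  linarith

set_option maxHeartbeats 4000000 in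
theorem convS (k B D U : ℕ) (hk : 1 ≤ k) (ε : ℝ) (hε : 0 < ε) : ∃ N0 : ℕ, ∀ N : ℕ, N0 ≤ N →
    ∀ α β : Fin k → ℤ, (∀ i, α i ≠ 0) → (∀ i, ((α i).natAbs : ℝ) ≤ Real.log N ^ D) → (∀ i, (β i).natAbs ≤ B * N) →
    ∀ S : Finset ℕ, S ⊆ Ioc 0 (B * N) → ∀ Q : ℝ, 0 ≤ Q → |WS α β S - Q| ≤ N / Real.log N ^ (U + 1) →
    |(cS α β S : ℝ) * Real.log N ^ k - Q| ≤ ε * Q + N / Real.log N ^ U := by
  obtain ⟨δ, hδ0, hδ1, hδa, hδb⟩ := choose_delta k ε hε
  obtain ⟨n1, h1⟩ := ev_loglog (U + k + D + 6) δ hδ0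
  obtain ⟨n2, h2⟩ := ev_L' (2 ^ k * (8 * k) + 12 * k + 2 * (1 + ε) + 2 * B + 4)
  obtain ⟨n3, h3⟩ := ev_log' (U + k + D + 6) 1
  refine ⟨n1 + n2 + n3 + 4, fun N hN α β hα hαL hβ S hS Q hQ0 hW => ?_⟩
  have b1 := h1 N (by omega)
  have b2 := h2 N (by omega)
  have b3 := h3 N (by omega)
  obtain ⟨L, hL⟩ : ∃ L, L = Real.log (N : ℝ) := ⟨_, rfl⟩
  rw [← hL] at b1 b2 b3 hαL hW ⊢
  rw [one_mul] at b3
  have hk1 : (1 : ℝ) ≤ k := by exact_mod_cast hk
  have q2 : 0 ≤ 2 ^ k * (8 * (k : ℝ)) := by positivity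
  have q3 : 0 ≤ 12 * (k : ℝ) := by positivity
  have hB0 : (0 : ℝ) ≤ B := Nat.cast_nonneg _
  have hL4 : 4 ≤ L := by linarith
  have hL1 : 1 ≤ L := by linarith
  have hL0 : 0 < L := by linarith
  have hNr : (4 : ℝ) ≤ N := by exact_mod_cast (by omega : 4 ≤ N)
  have hN0 : (0 : ℝ) < N := by linarith
  have hss : √(N : ℝ) * √(N : ℝ) = N := Real.mul_self_sqrt hN0.le
  have hs0 : 0 < √(N : ℝ) := Real.sqrt_pos.2 hN0
  have hs1 : 1 ≤ √(N : ℝ) := (one_le_pow₀ hL1).trans b3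
  obtain ⟨W, hWd⟩ : ∃ W, W = WS α β S := ⟨_, rfl⟩
  rw [← hWd] at hW
  obtain ⟨w1, w2⟩ := abs_le.1 hW
  obtain ⟨P, hP⟩ : ∃ P : ℝ, P = (cS α β S : ℝ) := ⟨_, rfl⟩
  have hP0 : 0 ≤ P := by rw [hP]; exact Nat.cast_nonneg _
  rw [← hP]
  -- the bound for the values
  obtain ⟨X, hX⟩ : ∃ X : ℕ, X = ⌈(N : ℝ) * L ^ (D + 2)⌉₊ := ⟨_, rfl⟩
  have hX1 : (N : ℝ) * L ^ (D + 2) ≤ X := by rw [hX]; exact Nat.le_ceil _
  have hX2 : (X : ℝ) ≤ N * L ^ (D + 3) := by
    have e1 : (X : ℝ) < N * L ^ (D + 2) + 1 := by rw [hX]; exact Nat.ceil_lt_add_one (by positivity)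
    have e2 : 1 ≤ (N : ℝ) * L ^ (D + 2) := by
      have := one_le_pow₀ (n := D + 2) hL1
      nlinarith
    rw [show D + 3 = (D + 2) + 1 by ring, pow_succ L (D + 2)]
    nlinarith
  have hX0 : (0 : ℝ) < X := lt_of_lt_of_le (by positivity) hX1
  have hXn : 1 ≤ X := by exact_mod_cast hX0
  have hlL0 : 0 ≤ Real.log L := Real.log_nonneg hL1
  have hlogX : Real.log X ≤ (1 + δ) * L := by
    have e1 := Real.log_le_log hX0 hX2
    rw [Real.log_mul hN0.ne' (by positivity), Real.log_pow, ← hL] at e1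
    have e2 : ((D + 3 : ℕ) : ℝ) * Real.log L ≤ ((U + k + D + 6 : ℕ) : ℝ) * Real.log L := by
      apply mul_le_mul_of_nonneg_right _ hlL0
      exact_mod_cast (by omega : D + 3 ≤ U + k + D + 6)
    linarith
  have hlogX0 : 0 ≤ Real.log X := Real.log_natCast_nonneg X
  have hsqX : √(X : ℝ) ≤ √(N : ℝ) * L ^ (D + 3) := by
    rw [Real.sqrt_le_left (by positivity)]
    refine hX2.trans ?_
    rw [mul_pow, Real.sq_sqrt hN0.le]
    apply mul_le_mul_of_nonneg_left _ hN0.le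
    have := one_le_pow₀ (n := D + 3) hL1
    nlinarith
  have hval : ∀ i, ∀ n ∈ Ioc 0 (B * N), (α i * (n : ℤ) + β i).natAbs ≤ X := by
    intro i n hn
    rw [mem_Ioc] at hn
    have e1 : (α i * (n : ℤ) + β i).natAbs ≤ (α i).natAbs * n + (β i).natAbs := by
      refine (Int.natAbs_add_le _ _).trans ?_
      rw [Int.natAbs_mul, Int.natAbs_natCast]
    have e2 : (((α i * (n : ℤ) + β i).natAbs : ℕ) : ℝ) ≤ X := by
      have f1 : (((α i * (n : ℤ) + β i).natAbs : ℕ) : ℝ) ≤ ((α i).natAbs : ℝ) * n + ((β i).natAbs : ℝ) := by exact_mod_cast e1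
      have f2 : (n : ℝ) ≤ B * N := by exact_mod_cast hn.2
      have f3 : ((β i).natAbs : ℝ) ≤ B * N := by exact_mod_cast hβ i
      have f4 : 1 ≤ L ^ D := one_le_pow₀ hL1
      have f5 : 0 ≤ (B : ℝ) * N := by positivity
      calc (((α i * (n : ℤ) + β i).natAbs : ℕ) : ℝ) ≤ ((α i).natAbs : ℝ) * n + ((β i).natAbs : ℝ) := f1
        _ ≤ L ^ D * (B * N) + L ^ D * (B * N) := by
            apply add_le_add
            · exact mul_le_mul (hαL i) f2 (Nat.cast_nonneg _) (by positivity)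
            · exact f3.trans (le_mul_of_one_le_left f5 f4)
        _ = N * (L ^ D * (2 * B)) := by ring
        _ ≤ N * (L ^ D * L ^ 2) := by
            apply mul_le_mul_of_nonneg_left _ hN0.le
            apply mul_le_mul_of_nonneg_left _ (by positivity)
            nlinarith
        _ = N * L ^ (D + 2) := by rw [pow_add]
        _ ≤ X := hX1
    exact_mod_cast e2
  have hLk : 0 < L ^ k := by positivity
  have hLU : 0 < L ^ U := by positivity
  obtain ⟨R, hR⟩ : ∃ R, R = (N : ℝ) / L ^ U := ⟨_, rfl⟩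
  have hR0 : 0 < R := by rw [hR]; positivity
  have hR1 : (N : ℝ) / L ^ (U + 1) = R / L := by
    rw [hR, pow_succ]
    field_simp
  rw [hR1] at w1 w2
  rw [← hR]
  have hRL : R / L ≤ R / 4 := div_le_div_of_nonneg_left hR0.le (by norm_num) hL4
  have p1 : 0 < (1 + δ) ^ k := by positivity
  have p1' : 1 ≤ (1 + δ) ^ k := one_le_pow₀ (by linarith)
  have p2 : 0 < (1 - δ) ^ k := by
    have : 0 < 1 - δ := by linarith
    positivity
  -- lower bound
  have g1 : (1 - ε) * Q - R ≤ L ^ k * P := by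
    have e1 := wS_le hk α β hα X (B * N) hXn hval S hS
    rw [← hWd, ← hP] at e1
    have e2 : Real.log X ^ k ≤ (1 + δ) ^ k * L ^ k := by
      rw [← mul_pow]
      exact pow_le_pow_left₀ hlogX0 hlogX k
    have e3 : W ≤ (1 + δ) ^ k * L ^ k * (P + 4 * k * (√(N : ℝ) * L ^ (D + 3))) := by
      refine e1.trans (mul_le_mul e2 ?_ (by positivity) (by positivity))
      have : 4 * (k : ℝ) * √(X : ℝ) ≤ 4 * k * (√(N : ℝ) * L ^ (D + 3)) := mul_le_mul_of_nonneg_left hsqX (by positivity)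
      linarith
    have e4 : (1 + δ) ^ k * L ^ k * (4 * k * (√(N : ℝ) * L ^ (D + 3))) ≤ R / 2 := by
      have f1 : (1 + δ) ^ k ≤ 2 ^ k := pow_le_pow_left₀ (by linarith) (by linarith) k
      have f2 : 2 ^ k * (8 * k) ≤ L := by linarith
      calc (1 + δ) ^ k * L ^ k * (4 * k * (√(N : ℝ) * L ^ (D + 3))) ≤ 2 ^ k * L ^ k * (4 * k * (√(N : ℝ) * L ^ (D + 3))) := by gcongr
        _ = (2 ^ k * (8 * k)) * (L ^ (k + D + 3) * √(N : ℝ)) / 2 := by ring
        _ ≤ L * (L ^ (k + D + 3) * √(N : ℝ)) / 2 := by gcongr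
        _ = (L ^ (U + k + D + 4) * √(N : ℝ) / L ^ U) / 2 := by
            rw [show U + k + D + 4 = (k + D + 3) + 1 + U by ring, pow_add L (k + D + 3 + 1) U, pow_succ L (k + D + 3)]
            field_simp
        _ ≤ R / 2 := by
            rw [hR]
            apply div_le_div_of_nonneg_right _ (by norm_num)
            apply div_le_div_of_nonneg_right _ (by positivity)
            calc L ^ (U + k + D + 4) * √(N : ℝ) ≤ L ^ (U + k + D + 6) * √(N : ℝ) := by
                  apply mul_le_mul_of_nonneg_right _ hs0.le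
                  exact pow_le_pow_right₀ hL1 (by omega)
              _ ≤ √(N : ℝ) * √(N : ℝ) := mul_le_mul_of_nonneg_right b3 hs0.le
              _ = N := hss
    have e5 : Q - R ≤ (1 + δ) ^ k * (L ^ k * P) := by
      have f1 : (1 + δ) ^ k * L ^ k * (P + 4 * k * (√(N : ℝ) * L ^ (D + 3))) =
          (1 + δ) ^ k * (L ^ k * P) + (1 + δ) ^ k * L ^ k * (4 * k * (√(N : ℝ) * L ^ (D + 3))) := by ring
      linarith
    have h6 : (1 + δ) ^ k * ((1 - ε) * Q) ≤ Q := by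
      have f0 : (1 + δ) ^ k * (1 - ε) ≤ 1 := by
        rcases le_or_gt 0 (1 - ε) with h | h
        · have f1 : (1 + δ) ^ k ≤ (1 + δ) ^ (k + 1) := pow_le_pow_right₀ (by linarith) (by omega)
          have f2 := mul_le_mul_of_nonneg_right f1 h
          linarith
        · have := mul_neg_of_pos_of_neg p1 h
          linarith
      calc (1 + δ) ^ k * ((1 - ε) * Q) = ((1 + δ) ^ k * (1 - ε)) * Q := by ring
        _ ≤ 1 * Q := mul_le_mul_of_nonneg_right f0 hQ0
        _ = Q := one_mul Q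
    have h7 : (1 + δ) ^ k * ((1 - ε) * Q - R) ≤ (1 + δ) ^ k * (L ^ k * P) := by
      have f1 : R ≤ (1 + δ) ^ k * R := le_mul_of_one_le_left hR0.le p1'
      rw [mul_sub]
      linarith
    exact le_of_mul_le_mul_left h7 p1
  -- upper bound
  have g2 : L ^ k * P ≤ (1 + ε) * Q + R := by
    obtain ⟨t, ht⟩ : ∃ t, t = ⌈(N : ℝ) / L ^ (U + k + 3)⌉₊ := ⟨_, rfl⟩
    have hq : √(N : ℝ) ≤ (N : ℝ) / L ^ (U + k + 3) := by
      rw [le_div_iff₀ (by positivity)]
      calc √(N : ℝ) * L ^ (U + k + 3) ≤ √(N : ℝ) * L ^ (U + k + D + 6) :=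
            mul_le_mul_of_nonneg_left (pow_le_pow_right₀ hL1 (by omega)) hs0.le
        _ ≤ √(N : ℝ) * √(N : ℝ) := mul_le_mul_of_nonneg_left b3 hs0.le
        _ = N := hss
    have hsN2 : 2 ≤ √(N : ℝ) := by
      apply Real.le_sqrt_of_sq_le
      linarith
    have ht1 : (N : ℝ) / L ^ (U + k + 3) ≤ t := by rw [ht]; exact Nat.le_ceil _
    have ht2 : (t : ℝ) ≤ (N : ℝ) / L ^ (U + k + 3) + 1 := by rw [ht]; exact (Nat.ceil_lt_add_one (by positivity)).le
    have ht2n : 2 ≤ t := by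
      have : (2 : ℝ) ≤ t := by linarith
      exact_mod_cast this
    have c0 := cS_le α β hα (B * N) t ht2n S hS
    rw [← hWd, ← hP] at c0
    have hlogt : (1 - δ) * L ≤ Real.log t := by
      have d1 : Real.log ((N : ℝ) / L ^ (U + k + 3)) ≤ Real.log t := Real.log_le_log (by positivity) ht1
      rw [Real.log_div hN0.ne' (by positivity), Real.log_pow, ← hL] at d1
      have d7 : ((U + k + 3 : ℕ) : ℝ) * Real.log L ≤ ((U + k + D + 6 : ℕ) : ℝ) * Real.log L := by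
        apply mul_le_mul_of_nonneg_right _ hlL0
        exact_mod_cast (by omega : U + k + 3 ≤ U + k + D + 6)
      linarith
    have hδL : 0 < (1 - δ) * L := mul_pos (by linarith) hL0
    have hlt0 : 0 < Real.log t := lt_of_lt_of_le hδL hlogt
    have c1 : L ^ k * (k * (2 * t + 1)) ≤ R / 4 := by
      have d1 : 2 * (t : ℝ) + 1 ≤ 3 * (N / L ^ (U + k + 3)) + 3 := by linarith
      have d2 : 2 * (t : ℝ) + 1 ≤ 6 * (N / L ^ (U + k + 3)) := by linarith
      have f2 : 12 * k ≤ L := by linarith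
      calc L ^ k * (k * (2 * t + 1)) ≤ L ^ k * (k * (6 * (N / L ^ (U + k + 3)))) := by gcongr
        _ = (12 * k) * (N / L ^ (U + 3)) / 2 := by
            rw [show U + k + 3 = k + (U + 3) by ring, pow_add L k (U + 3)]
            field_simp
            ring
        _ ≤ L * (N / L ^ (U + 3)) / 2 := by gcongr
        _ = R / (L * L) / 2 := by
            rw [hR, show U + 3 = U + 1 + 1 + 1 by ring, pow_succ, pow_succ, pow_succ]
            field_simp
        _ ≤ R / 4 := by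
            rw [div_div]
            apply div_le_div_of_nonneg_left hR0.le (by norm_num)
            nlinarith
    have c2 : W / Real.log t ^ k ≤ W / ((1 - δ) * L) ^ k := by
      apply div_le_div_of_nonneg_left _ (by positivity)
      · exact pow_le_pow_left₀ hδL.le hlogt k
      · rw [hWd]
        exact sum_nonneg fun _ _ => prod_nonneg fun _ _ => LL_nonneg _
    have c3 : L ^ k * P ≤ R / 4 + W / (1 - δ) ^ k := by
      have d1 : L ^ k * P ≤ L ^ k * (k * (2 * t + 1) + W / ((1 - δ) * L) ^ k) :=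
        mul_le_mul_of_nonneg_left (by linarith) hLk.le
      have d2 : L ^ k * (W / ((1 - δ) * L) ^ k) = W / (1 - δ) ^ k := by
        rw [mul_pow]
        field_simp
      rw [mul_add, d2] at d1
      linarith
    have f0 : 1 ≤ (1 + ε) * (1 - δ) ^ k := by
      have f1 : (1 - δ) ^ (k + 1) ≤ (1 - δ) ^ k := pow_le_pow_of_le_one (by linarith) (by linarith) (by omega)
      have f2 : (1 + ε) * (1 - δ) ^ (k + 1) ≤ (1 + ε) * (1 - δ) ^ k := mul_le_mul_of_nonneg_left f1 (by linarith)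
      linarith
    have c4 : W / (1 - δ) ^ k ≤ (1 + ε) * (Q + R / L) := by
      rw [div_le_iff₀ p2]
      have hQR : 0 ≤ Q + R / L := by positivity
      calc W ≤ 1 * (Q + R / L) := by linarith
        _ ≤ ((1 + ε) * (1 - δ) ^ k) * (Q + R / L) := mul_le_mul_of_nonneg_right f0 hQR
        _ = _ := by ring
    have c5 : (1 + ε) * (R / L) ≤ R / 2 := by
      have : 2 * (1 + ε) ≤ L := by linarith
      rw [mul_div_assoc', div_le_div_iff₀ hL0 (by norm_num)]
      nlinarith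
    linarith [c3, c4, c5]
  rw [abs_le]
  constructor <;> linarith [mul_comm P (L ^ k)]

/-- the sums over arbitrary sets with prime values and with rough values are close, for all small slopes -/
def GS {k : ℕ} (D V X z : ℕ) (Ln : ℕ) (w : ℕ → ℕ → ℝ) (Y : ℕ) (β : Fin k → ℤ) : Prop :=
  ∀ α : Fin k → ℤ, (∀ i, α i ≠ 0) → (∀ i, ((α i).natAbs : ℝ) ≤ Real.log X ^ D) → ∀ l < Ln,
    |∑ n ∈ Icc 1 Y, w l n * (∏ i, LL (α i * (n : ℤ) + β i) - ∏ i, mdl z (α i * (n : ℤ) + β i))| ≤ X / Real.log X ^ V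

set_option maxHeartbeats 4000000 in
theorem set_fam {k : ℕ} (h C D T V U : ℕ) : ∃ B0 : ℕ, ∀ E : ℕ, ∃ X0 : ℕ, ∀ X : ℕ, X0 ≤ X → ∀ Y : ℕ, (Y : ℝ) * Real.log X ^ D ≤ X →
    ∀ (x : Fin k → ℕ) (s : Fin k → ℕ → ℤ), (∀ i, ∀ j ∈ Icc 1 (x i), |s i j| ≤ X) →
    (∀ i, (energy h (x i) (s i) : ℝ) * X ≤ Real.log X ^ C * (x i : ℝ) ^ (2 * h)) →
    ∀ z : ℕ, Real.log X ^ B0 ≤ z → (z : ℝ) ≤ Real.log X ^ E →
    ∀ Ln : ℕ, (Ln : ℝ) ≤ Real.log X ^ T → ∀ w : ℕ → ℕ → ℝ, (∀ l n, |w l n| ≤ 1) →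
    ∀ 𝒮 : Finset (Fin k → ℕ), 𝒮 ⊆ Fintype.piFinset (fun i => Icc 1 (x i)) →
    (∀ q ∈ 𝒮, ¬ GS D V X z Ln w Y (fun i => s i (q i))) → (𝒮.card : ℝ) ≤ (∏ i, (x i : ℝ)) / Real.log X ^ U := by
  classical
  obtain ⟨U', hU'⟩ : ∃ U', U' = U + V + T + k * (D + 1) + 12 := ⟨_, rfl⟩
  obtain ⟨B0, hB0⟩ := prod_mom k h C U' D
  refine ⟨B0, fun E => ?_⟩
  obtain ⟨n1, h1⟩ := hB0 E
  obtain ⟨n3, h3⟩ := ev_L' 10
  refine ⟨n1 + n3 + 3, fun X hX Y hY x s hs hE z hz1 hz2 Ln hLn w hw 𝒮 hSx hS => ?_⟩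
  have c1 := h1 X (by omega) x s
  have c3 := h3 X (by omega)
  obtain ⟨L, hL⟩ : ∃ L, L = Real.log (X : ℝ) := ⟨_, rfl⟩
  rw [← hL] at c1 c3 hY hE hz1 hz2 hLn ⊢
  have hL1 : 1 ≤ L := by linarith
  have hL0 : 0 < L := by linarith
  have hX3 : (3 : ℝ) ≤ X := by exact_mod_cast (by omega : 3 ≤ X)
  have hX0 : (0 : ℝ) < X := by linarith
  have hY0 : (0 : ℝ) ≤ Y := Nat.cast_nonneg _
  have hprod0 : (0 : ℝ) ≤ ∏ i, (x i : ℝ) := prod_nonneg fun i _ => Nat.cast_nonneg _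
  by_cases hx : ∀ i, 1 ≤ x i
  swap
  · push Not at hx
    obtain ⟨i, hi⟩ := hx
    have h5 : Fintype.piFinset (fun i => Icc 1 (x i)) = ∅ := by
      rw [Fintype.piFinset_eq_empty]
      exact ⟨i, Icc_eq_empty (by omega)⟩
    rw [h5] at hSx
    rw [subset_empty.1 hSx, card_empty, Nat.cast_zero]
    positivity
  obtain ⟨R, hR⟩ : ∃ R : ℕ, R = ⌊L ^ D⌋₊ := ⟨_, rfl⟩
  have hRL : (R : ℝ) ≤ L ^ D := by rw [hR]; exact Nat.floor_le (by positivity)
  obtain ⟨I, hI⟩ : ∃ I : Finset (ℕ × (Fin k → ℤ)), I = range Ln ×ˢ Fintype.piFinset (fun _ => Icc (-(R : ℤ)) (R : ℤ)) := ⟨_, rfl⟩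
  have hIcard : (I.card : ℝ) ≤ L ^ (T + k * (D + 1)) := by
    rw [hI, card_product, Fintype.card_piFinset, prod_const, card_univ, Fintype.card_fin, card_range, Int.card_Icc]
    have e1 : ((R : ℤ) + 1 - -(R : ℤ)).toNat = 2 * R + 1 := by omega
    rw [e1]
    push_cast
    have hLD : 1 ≤ L ^ D := one_le_pow₀ hL1
    have f3 : 2 * (R : ℝ) + 1 ≤ L ^ (D + 1) := by rw [pow_succ]; nlinarith
    calc (Ln : ℝ) * (2 * (R : ℝ) + 1) ^ k ≤ L ^ T * (L ^ (D + 1)) ^ k := by gcongr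
      _ = L ^ (T + k * (D + 1)) := by rw [← pow_mul, ← pow_add]; congr 1; ring
  have key := markov (Fintype.piFinset (fun i => Icc 1 (x i))) I (fun _ => (1 : ℝ)) (fun _ _ => zero_le_one)
    (fun q i => if ∀ j, i.2 j ≠ 0 then |∑ n ∈ Icc 1 Y,
        w i.1 n * (∏ j, LL (i.2 j * (n : ℤ) + s j (q j)) - ∏ j, mdl z (i.2 j * (n : ℤ) + s j (q j)))| else 0)
    (fun _ _ => by split_ifs <;> positivity) (fun q => q ∈ 𝒮) (X / L ^ V) ((X / L ^ U') * ∏ i, (x i : ℝ)) (by positivity) (by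
      intro q hq hqS
      by_contra hcon
      push Not at hcon
      apply hS q hqS
      intro α hα hαL l hl
      rw [← hL] at hαL ⊢
      have hmem : (l, α) ∈ I := by
        rw [hI, mem_product, mem_range, Fintype.mem_piFinset]
        refine ⟨hl, fun j => ?_⟩
        have h7 : (α j).natAbs ≤ R := by rw [hR]; exact Nat.le_floor (hαL j)
        simp only [mem_Icc]
        omega
      have h5 := hcon (l, α) hmem
      simp only at h5
      rw [if_pos hα] at h5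
      exact h5.le)
    (by
      intro i hi
      rw [hI, mem_product, mem_range, Fintype.mem_piFinset] at hi
      simp only [one_mul]
      by_cases hab : ∀ j, i.2 j ≠ 0
      · simp only [if_pos hab]
        refine c1 hx hs hE z hz1 hz2 i.2 hab Y ?_ (w i.1) ?_
        · intro j
          have h4 := mem_Icc.1 (hi.2 j)
          have h5 : (i.2 j).natAbs ≤ R := by omega
          have h6 : (i.2 j).natAbs * Y ≤ R * Y := Nat.mul_le_mul h5 le_rfl
          have h7 : (R : ℝ) * Y ≤ X := by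
            calc (R : ℝ) * Y ≤ L ^ D * Y := mul_le_mul_of_nonneg_right hRL hY0
              _ = Y * L ^ D := mul_comm _ _
              _ ≤ X := hY
          have h8 : R * Y ≤ X := by exact_mod_cast h7
          exact h6.trans h8
        · intro n hn
          exact (hw i.1 n).trans hL1
      · simp only [if_neg hab, sum_const_zero]
        positivity)
  have hleft : (𝒮.card : ℝ) = ∑ q ∈ Fintype.piFinset (fun i => Icc 1 (x i)), (if q ∈ 𝒮 then (1 : ℝ) else 0) := by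
    rw [sum_ite_mem, inter_eq_right.2 hSx, sum_const, nsmul_eq_mul, mul_one]
  rw [← hleft] at key
  refine key.trans ?_
  obtain ⟨P, hP⟩ : ∃ P : ℝ, P = ∏ i, (x i : ℝ) := ⟨_, rfl⟩
  rw [← hP] at hprod0 ⊢
  calc (I.card : ℝ) * ((X / L ^ U') * P) / (X / L ^ V)
      ≤ L ^ (T + k * (D + 1)) * ((X / L ^ U') * P) / (X / L ^ V) := by gcongr
    _ = P * L ^ (T + k * (D + 1) + V) / L ^ U' := by
        rw [pow_add L (T + k * (D + 1)) V]
        field_simp
    _ ≤ P / L ^ U := by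
        rw [div_le_div_iff₀ (by positivity) (by positivity)]
        calc P * L ^ (T + k * (D + 1) + V) * L ^ U = P * L ^ (T + k * (D + 1) + V + U) := by rw [pow_add L (T + k * (D + 1) + V) U]; ring
          _ ≤ P * L ^ U' := by
              apply mul_le_mul_of_nonneg_left _ hprod0
              exact pow_le_pow_right₀ hL1 (by omega)

end Pool.Agent.V11290.FD.AS
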