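import Pool.Agent.V11290.FD.Sets

set_option autoImplicit false

/-! Prime values of systems of linear forms on arbitrary sets: almost every vector of constant terms. -/

namespace Pool.Agent.V11290.FD.AS
open Finset MeasureTheory Filter
open Pool.Agent.TH935.TF
open Pool.Agent.H373R2.T7 (energy ev_L' ev_log')

/-- for all small slopes and all given sets the number of the prime values is, up to a small error, determined by the
rough values -/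
def HS {k : ℕ} (ε : ℝ) (D U z N : ℕ) {Ln : ℕ} (𝒜 : Fin Ln → Finset ℕ) (β : Fin k → ℤ) : Prop :=
  ∀ α : Fin k → ℤ, (∀ i, α i ≠ 0) → (∀ i, ((α i).natAbs : ℝ) ≤ Real.log N ^ D) → ∀ l,
    |(cS α β (𝒜 l) : ℝ) * Real.log N ^ k - MS z α β (𝒜 l)| ≤ ε * MS z α β (𝒜 l) + N / Real.log N ^ U

set_option maxHeartbeats 4000000 in
theorem hs_fam {k : ℕ} (hk : 1 ≤ k) (h B D T U : ℕ) (A : ℕ) : ∃ B0 : ℕ, ∀ e : ℕ, ∀ ε : ℝ, 0 < ε → ∃ N0 : ℕ, ∀ N : ℕ, N0 ≤ N →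
    ∀ (x : Fin k → ℕ) (s : Fin k → ℕ → ℤ), (∀ i, ∀ j ∈ Icc 1 (x i), |s i j| ≤ B * (N : ℤ)) →
    (∀ i, (energy h (x i) (s i) : ℝ) * N ≤ Real.log N * (x i : ℝ) ^ (2 * h)) →
    ∀ Ln : ℕ, (Ln : ℝ) ≤ Real.log N ^ T → ∀ 𝒜 : Fin Ln → Finset ℕ, (∀ l, 𝒜 l ⊆ Icc 1 (B * N)) →
    ∀ 𝒮 : Finset (Fin k → ℕ), 𝒮 ⊆ Fintype.piFinset (fun i => Icc 1 (x i)) →
    (∀ q ∈ 𝒮, ¬ HS ε D U ⌈Real.log N ^ (B0 + e)⌉₊ N 𝒜 (fun i => s i (q i))) →
      (𝒮.card : ℝ) ≤ (∏ i, (x i : ℝ)) / Real.log N ^ A := by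
  classical
  obtain ⟨B0, h0⟩ := set_fam (k := k) h (D + 5) D T (U + D + 5) A
  refine ⟨B0 + 1, fun e ε hε => ?_⟩
  obtain ⟨X0, h1⟩ := h0 (B0 + 1 + e + 1)
  obtain ⟨n1, hc⟩ := convS k B D U hk ε hε
  obtain ⟨n2, h2⟩ := ev_L' (B * 2 ^ D + B + 2 ^ (B0 + 1) + 10)
  obtain ⟨n3, h3⟩ := ev_log' (D + 3) 1
  refine ⟨X0 + n1 + n2 + n3 + 3, fun N hN x s hsb hE Ln hLn 𝒜 h𝒜 𝒮 hSx hS => ?_⟩
  have b1 := hc N (by omega)
  have b2 := h2 N (by omega)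
  have b3 := h3 N (by omega)
  obtain ⟨L, hL⟩ : ∃ L, L = Real.log (N : ℝ) := ⟨_, rfl⟩
  rw [← hL] at b1 b2 b3 hE hLn hS ⊢
  rw [one_mul] at b3
  have hB0 : (0 : ℝ) ≤ B := Nat.cast_nonneg _
  have hBD : 0 ≤ (B : ℝ) * 2 ^ D := by positivity
  have hBB : (0 : ℝ) ≤ 2 ^ (B0 + 1) := by positivity
  have hL10 : 10 ≤ L := by linarith
  have hL1 : 1 ≤ L := by linarith
  have hL0 : 0 < L := by linarith
  have hNr : (3 : ℝ) ≤ N := by exact_mod_cast (by omega : 3 ≤ N)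
  have hN0 : (0 : ℝ) < N := by linarith
  obtain ⟨X, hX⟩ : ∃ X : ℕ, X = N * ⌈L ^ (D + 2)⌉₊ := ⟨_, rfl⟩
  have hc1 : L ^ (D + 2) ≤ (⌈L ^ (D + 2)⌉₊ : ℝ) := Nat.le_ceil _
  have hc2 : (⌈L ^ (D + 2)⌉₊ : ℝ) ≤ L ^ (D + 3) := by
    have h5 : (⌈L ^ (D + 2)⌉₊ : ℝ) < L ^ (D + 2) + 1 := Nat.ceil_lt_add_one (by positivity)
    have h6 : 1 ≤ L ^ (D + 2) := one_le_pow₀ hL1
    rw [show D + 3 = (D + 2) + 1 by ring, pow_succ L (D + 2)]
    nlinarith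
  have hXr : (X : ℝ) = N * (⌈L ^ (D + 2)⌉₊ : ℝ) := by rw [hX]; push_cast; rfl
  have hX1 : (N : ℝ) * L ^ (D + 2) ≤ X := by rw [hXr]; exact mul_le_mul_of_nonneg_left hc1 hN0.le
  have hX2 : (X : ℝ) ≤ N * L ^ (D + 3) := by rw [hXr]; exact mul_le_mul_of_nonneg_left hc2 hN0.le
  have hNX : (N : ℝ) ≤ X := (le_mul_of_one_le_right hN0.le (one_le_pow₀ hL1)).trans hX1
  have hNXn : N ≤ X := by exact_mod_cast hNX
  have hX0 : (0 : ℝ) < X := by linarith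
  obtain ⟨LX, hLX⟩ : ∃ LX, LX = Real.log (X : ℝ) := ⟨_, rfl⟩
  have hLLX : L ≤ LX := by rw [hL, hLX]; exact Real.log_le_log hN0 hNX
  have hLX0 : 0 < LX := by linarith
  have hLX1 : 1 ≤ LX := by linarith
  have hLX2 : LX ≤ 2 * L := by
    have e1 : (X : ℝ) ≤ N ^ 2 := by
      refine hX2.trans ?_
      rw [sq]
      apply mul_le_mul_of_nonneg_left _ hN0.le
      refine b3.trans ?_
      rw [Real.sqrt_le_left hN0.le]
      nlinarith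
    have e2 := Real.log_le_log hX0 e1
    rw [Real.log_pow, ← hL, ← hLX] at e2
    exact_mod_cast e2
  have hBL : (B : ℝ) ≤ L ^ (D + 2) := by
    have : L ≤ L ^ (D + 2) := le_self_pow₀ hL1 (by omega)
    linarith
  have hBX : (B : ℝ) * N ≤ X := by
    refine le_trans ?_ hX1
    rw [mul_comm]
    exact mul_le_mul_of_nonneg_left hBL hN0.le
  have hBXn : B * N ≤ X := by exact_mod_cast hBX
  have hsX : ∀ i, ∀ j ∈ Icc 1 (x i), |s i j| ≤ X := by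
    intro i j hj
    refine (hsb i j hj).trans ?_
    exact_mod_cast hBXn
  obtain ⟨z, hz⟩ : ∃ z, z = ⌈L ^ (B0 + 1 + e)⌉₊ := ⟨_, rfl⟩
  rw [← hz] at hS
  have hz1 : L ^ (B0 + 1 + e) ≤ z := by rw [hz]; exact Nat.le_ceil _
  have hz2 : (z : ℝ) ≤ L ^ (B0 + 1 + e + 1) := by
    rw [hz]
    have h5 : (⌈L ^ (B0 + 1 + e)⌉₊ : ℝ) < L ^ (B0 + 1 + e) + 1 := Nat.ceil_lt_add_one (by positivity)
    have h6 : 1 ≤ L ^ (B0 + 1 + e) := one_le_pow₀ hL1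
    rw [pow_succ L (B0 + 1 + e)]
    nlinarith
  have hw : ∀ l n, |(if hl : l < Ln then (if n ∈ 𝒜 ⟨l, hl⟩ then (1 : ℝ) else 0) else 0)| ≤ 1 := by
    intro l n
    split_ifs <;> simp
  have hlog2 : L ^ 1 ≤ L := (pow_one L).le
  refine (h1 X (by omega) (B * N) ?_ x s hsX ?_ z ?_ ?_ Ln ?_
    (fun l n => if hl : l < Ln then (if n ∈ 𝒜 ⟨l, hl⟩ then 1 else 0) else 0) hw 𝒮 hSx ?_).trans ?_
  · rw [← hLX]
    push_cast
    calc (B : ℝ) * N * LX ^ D ≤ B * N * (2 * L) ^ D := by gcongr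
      _ = N * ((B * 2 ^ D) * L ^ D) := by rw [mul_pow]; ring
      _ ≤ N * (L * L ^ D) := by
          apply mul_le_mul_of_nonneg_left _ hN0.le
          apply mul_le_mul_of_nonneg_right _ (by positivity)
          linarith
      _ ≤ N * L ^ (D + 2) := by
          apply mul_le_mul_of_nonneg_left _ hN0.le
          rw [← pow_succ']
          exact pow_le_pow_right₀ hL1 (by omega)
      _ ≤ X := hX1
  · intro i
    rw [← hLX]
    have hxx : (0 : ℝ) ≤ (x i : ℝ) ^ (2 * h) := by positivity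
    calc (energy h (x i) (s i) : ℝ) * X ≤ energy h (x i) (s i) * (N * L ^ (D + 3)) := mul_le_mul_of_nonneg_left hX2 (Nat.cast_nonneg _)
      _ = (energy h (x i) (s i) * N) * L ^ (D + 3) := by ring
      _ ≤ (L * (x i : ℝ) ^ (2 * h)) * L ^ (D + 3) := mul_le_mul_of_nonneg_right (hE i) (by positivity)
      _ = L ^ (D + 4) * (x i : ℝ) ^ (2 * h) := by ring
      _ ≤ LX ^ (D + 5) * (x i : ℝ) ^ (2 * h) := by
          apply mul_le_mul_of_nonneg_right _ hxx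
          exact (pow_le_pow_left₀ hL0.le hLLX _).trans (pow_le_pow_right₀ hLX1 (by omega))
  · rw [← hLX]
    refine le_trans ?_ hz1
    calc LX ^ B0 ≤ (2 * L) ^ B0 := pow_le_pow_left₀ hLX0.le hLX2 B0
      _ = 2 ^ B0 * L ^ B0 := mul_pow _ _ _
      _ ≤ L * L ^ B0 := by
          apply mul_le_mul_of_nonneg_right _ (by positivity)
          have : (2 : ℝ) ^ B0 ≤ 2 ^ (B0 + 1) := pow_le_pow_right₀ (by norm_num) (by omega)
          linarith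
      _ = L ^ (B0 + 1) := by ring
      _ ≤ L ^ (B0 + 1 + e) := pow_le_pow_right₀ hL1 (by omega)
  · rw [← hLX]
    exact hz2.trans (pow_le_pow_left₀ hL0.le hLLX _)
  · rw [← hLX]
    exact hLn.trans (pow_le_pow_left₀ hL0.le hLLX _)
  · intro q hq hG
    apply hS q hq
    intro α hα hαL l
    rw [← hL] at hαL ⊢
    have hG1 := hG α hα (fun i => (hαL i).trans (by rw [← hLX]; exact pow_le_pow_left₀ hL0.le hLLX _)) (l : ℕ) l.2
    have hsum : ∀ f : ℕ → ℝ, ∑ n ∈ Icc 1 (B * N), (if hl : (l : ℕ) < Ln then (if n ∈ 𝒜 ⟨(l : ℕ), hl⟩ then (1 : ℝ) else 0) else 0) * f n =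
        ∑ n ∈ 𝒜 l, f n := by
      intro f
      have e1 : ∀ n, (if hl : (l : ℕ) < Ln then (if n ∈ 𝒜 ⟨(l : ℕ), hl⟩ then (1 : ℝ) else 0) else 0) * f n =
          if n ∈ 𝒜 l then f n else 0 := by
        intro n
        rw [dif_pos l.2]
        simp
      rw [sum_congr rfl fun n _ => e1 n, ← sum_filter, filter_mem_eq_inter, inter_eq_right.2 (h𝒜 l)]
    rw [hsum, sum_sub_distrib, ← hLX] at hG1
    have hβ : ∀ i, (s i (q i)).natAbs ≤ B * N := by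
      intro i
      have a1 := hsb i (q i) (Fintype.mem_piFinset.1 (hSx hq) i)
      have : ((s i (q i)).natAbs : ℤ) ≤ B * N := by rw [Int.natCast_natAbs]; exact a1
      exact_mod_cast this
    have hIoc : 𝒜 l ⊆ Ioc 0 (B * N) := by
      intro n hn
      have := mem_Icc.1 (h𝒜 l hn)
      rw [mem_Ioc]
      omega
    refine b1 α (fun i => s i (q i)) hα hαL hβ (𝒜 l) hIoc (MS z α (fun i => s i (q i)) (𝒜 l)) (MS_nonneg _ _ _ _) ?_
    refine hG1.trans ?_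
    calc (X : ℝ) / LX ^ (U + D + 5) ≤ (N * L ^ (D + 3)) / L ^ (U + D + 5) := by
          apply div_le_div₀ (by positivity) hX2 (by positivity)
          exact pow_le_pow_left₀ hL0.le hLLX _
      _ = N / L ^ (U + 2) := by
          rw [show U + D + 5 = (U + 2) + (D + 3) by ring, pow_add L (U + 2)]
          field_simp
      _ ≤ N / L ^ (U + 1) := by
          apply div_le_div_of_nonneg_left hN0.le (by positivity)
          exact pow_le_pow_right₀ hL1 (by omega)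
  · rw [← hLX]
    apply div_le_div_of_nonneg_left (prod_nonneg fun i _ => Nat.cast_nonneg _) (by positivity)
    exact pow_le_pow_left₀ hL0.le hLLX _

/-- almost every vector of constant terms, arbitrary sets -/
theorem sets_ae {k : ℕ} (hk : 1 ≤ k) (μ : Fin k → Measure ℝ) [∀ i, IsProbabilityMeasure (μ i)] (B : ℝ)
    (hμ : ∀ i, ∀ᵐ α ∂(μ i), |α| ≤ B) (C σ : ℝ) (hσ : 0 < σ)
    (hdec : ∀ i, ∀ ξ : ℝ, 1 ≤ |ξ| → ‖charFun (μ i) ξ‖ ≤ C * |ξ| ^ (-σ))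
    (J : Type) (t : J → ℝ) (s : J → Fin k → ℝ) (ht : ∀ j, 2 ≤ t j) (hs : ∀ j i, |s j i| ≤ B * t j)
    (hsum : ∃ V : ℕ, Summable fun j => 1 / Real.log (t j) ^ V) (G T : ℕ) (Ln : J → ℕ)
    (hL : ∀ j, (Ln j : ℝ) ≤ Real.log (t j) ^ T) (𝒜 : (j : J) → Fin (Ln j) → Finset ℕ)
    (h𝒜 : ∀ j l, 𝒜 j l ⊆ Icc 1 (G * ⌈t j⌉₊)) :
    ∀ᵐ θ ∂(Measure.pi μ), ∀ A D U : ℕ, ∃ E₀ : ℕ, ∀ E : ℕ, E₀ ≤ E → ∀ ε : ℝ, 0 < ε →
      {j | ¬ ∀ β : Fin k → ℤ, (∀ i, |(β i : ℝ) - (t j * θ i + s j i)| ≤ Real.log (t j) ^ A) →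
        HS ε D U ⌈Real.log ⌈t j⌉₊ ^ E⌉₊ ⌈t j⌉₊ (𝒜 j) β}.Finite := by
  classical
  obtain ⟨V, hV⟩ := hsum
  obtain ⟨p, hp⟩ := exists_nat_ge (1 / σ)
  obtain ⟨B₁, hB₁⟩ := exists_nat_ge (2 * (|B| + 1) + 16)
  have hpσ : 1 ≤ ((p + 1 : ℕ) : ℝ) * σ := by
    rw [div_le_iff₀ hσ] at hp
    push_cast
    nlinarith
  choose B0 hB0 using fun A D U : ℕ => hs_fam hk (p + 1) (max B₁ G) D T U (V + (A + 1) * k + 1)
  have h := abs_pi' (|B| + 1) C σ (by positivity) hσ μ hdec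
    (fun i => by
      filter_upwards [hμ i] with α hα
      linarith [le_abs_self B]) t s ht V hV (fun j i => (hs j i).trans (by nlinarith [ht j, le_abs_self B])) (p + 1) (by omega) hpσ B₁ hB₁
    (fun A i j β => HS (1 / (((Nat.unpair (Nat.unpair (Nat.unpair i).2).2).2 : ℝ) + 1)) (Nat.unpair i).1 (Nat.unpair (Nat.unpair i).2).1
      ⌈Real.log ⌈t j⌉₊ ^ (B0 A (Nat.unpair i).1 (Nat.unpair (Nat.unpair i).2).1 + (Nat.unpair (Nat.unpair (Nat.unpair i).2).2).1)⌉₊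
      ⌈t j⌉₊ (𝒜 j) β) (by
    intro A i
    obtain ⟨N₀, h0⟩ := hB0 A (Nat.unpair i).1 (Nat.unpair (Nat.unpair i).2).1 (Nat.unpair (Nat.unpair (Nat.unpair i).2).2).1
      (1 / (((Nat.unpair (Nat.unpair (Nat.unpair i).2).2).2 : ℝ) + 1)) (by positivity)
    refine ⟨max N₀ 3, fun j hj x v hv hE 𝒮 h𝒮 hbad => ?_⟩
    have hN1 : t j ≤ (⌈t j⌉₊ : ℝ) := Nat.le_ceil _
    have hN : N₀ ≤ ⌈t j⌉₊ := by
      have : (N₀ : ℝ) ≤ (⌈t j⌉₊ : ℝ) := ((le_max_left _ _).trans hj).trans hN1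
      exact_mod_cast this
    have hlog : Real.log (t j) ≤ Real.log (⌈t j⌉₊ : ℝ) := Real.log_le_log (by linarith [ht j]) hN1
    have hlog0 : 0 ≤ Real.log (t j) := Real.log_nonneg (by linarith [ht j])
    refine h0 ⌈t j⌉₊ hN x v (fun a m hm => (hv a m hm).trans ?_) hE (Ln j)
      ((hL j).trans (pow_le_pow_left₀ hlog0 hlog T)) (𝒜 j) (fun l => (h𝒜 j l).trans ?_) 𝒮 h𝒮 hbad
    · apply mul_le_mul_of_nonneg_right _ (by positivity)
      exact_mod_cast le_max_left _ _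
    · apply Icc_subset_Icc_right
      exact Nat.mul_le_mul_right _ (le_max_right _ _))
  filter_upwards [h] with θ hθ A D U
  refine ⟨B0 A D U, fun E hE ε hε => ?_⟩
  obtain ⟨m, hm⟩ := exists_nat_ge (1 / ε)
  have hε' : 1 / ((m : ℝ) + 1) ≤ ε := by
    rw [div_le_iff₀ hε] at hm
    rw [div_le_iff₀ (by positivity)]
    nlinarith
  refine (hθ A (Nat.pair D (Nat.pair U (Nat.pair (E - B0 A D U) m)))).subset ?_
  intro j hj
  rw [Set.mem_ofPred_eq] at hj ⊢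
  intro hall
  apply hj
  intro β hβ
  have h1 := hall β hβ
  simp only [Nat.unpair_pair] at h1
  rw [Nat.add_sub_cancel' hE] at h1
  intro α hα hαL l
  refine (h1 α hα hαL l).trans ?_
  have := mul_le_mul_of_nonneg_right hε' (MS_nonneg ⌈Real.log ⌈t j⌉₊ ^ E⌉₊ α β (𝒜 j l))
  linarith

end Pool.Agent.V11290.FD.AS
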