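import Pool.Agent.TH935.TF9
import Pool.Agent.V11290.FD.Fam3
import Pool.Agent.V11290.FD.Win

set_option autoImplicit false

/-! Systems of linear forms with constant terms near `t θ + s`. -/

namespace Pool.Agent.V11290.FD
open MeasureTheory Filter
open Pool.Agent.TH935.TF

lemma hw_mono {k m : ℕ} (sA sB : (Fin k → ℤ) → (Fin m → ℤ)) (ε ε' : ℝ) (A A' B B' D D' N : ℕ) (hL : 1 ≤ Real.log N)
    (hε : ε ≤ ε') (hA : A' ≤ A) (hB : B' ≤ B) (hD : D' ≤ D) (β : Fin k → ℤ) (h : HW sA sB ε A B D N β) :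
    HW sA sB ε' A' B' D' N β := by
  intro α hα0 hα hadm hd
  obtain ⟨c, hc, ht, hw⟩ := h α hα0 (fun i => (hα i).trans (pow_le_pow_right₀ hL hD)) hadm hd
  refine ⟨c, hc, ht, fun y₁ y₂ h12 hy hΔ => ?_⟩
  have h0 : (0 : ℝ) ≤ (y₂ : ℝ) - y₁ := by
    have : (y₁ : ℝ) ≤ y₂ := by exact_mod_cast h12
    linarith
  refine (hw y₁ y₂ h12 (hy.trans (Nat.mul_le_mul_right _ hB)) ?_).trans ?_
  · refine le_trans ?_ hΔ
    apply div_le_div_of_nonneg_left (Nat.cast_nonneg _) (by positivity)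
    exact pow_le_pow_right₀ hL hA
  · exact mul_le_mul_of_nonneg_right hε (by positivity)

theorem sys_ae {k m : ℕ} {w : ℕ → ℝ} {sA sB : (Fin k → ℤ) → (Fin m → ℤ)} (hsys : Sys k m w sA sB) (hk : 1 ≤ k)
    (μ : Fin k → Measure ℝ) [∀ i, IsProbabilityMeasure (μ i)] (B : ℝ)
    (hμ : ∀ i, ∀ᵐ α ∂(μ i), |α| ≤ B) (C σ : ℝ) (hσ : 0 < σ)
    (hdec : ∀ i, ∀ ξ : ℝ, 1 ≤ |ξ| → ‖charFun (μ i) ξ‖ ≤ C * |ξ| ^ (-σ))
    (J : Type) (t : J → ℝ) (s : J → Fin k → ℝ) (ht : ∀ j, 2 ≤ t j) (hs : ∀ j i, |s j i| ≤ B * t j)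
    (hsum : ∃ V : ℕ, Summable fun j => 1 / Real.log (t j) ^ V) :
    ∀ᵐ θ ∂(Measure.pi μ), ∀ (A A' B' D : ℕ) (ε : ℝ), 0 < ε →
      {j | ¬ ∀ β : Fin k → ℤ, (∀ i, |(β i : ℝ) - (t j * θ i + s j i)| ≤ Real.log (t j) ^ A) →
        HW sA sB ε A' B' D ⌈t j⌉₊ β}.Finite := by
  classical
  obtain ⟨V, hV⟩ := hsum
  obtain ⟨p, hp⟩ := exists_nat_ge (1 / σ)
  obtain ⟨B₁, hB₁⟩ := exists_nat_ge (2 * (|B| + 1) + 16)
  have hpσ : 1 ≤ ((p + 1 : ℕ) : ℝ) * σ := by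
    rw [div_le_iff₀ hσ] at hp
    push_cast
    nlinarith
  have h := abs_pi (|B| + 1) C σ (by positivity) hσ μ hdec
    (fun i => by
      filter_upwards [hμ i] with α hα
      linarith [le_abs_self B]) t s ht V hV (fun j i => (hs j i).trans (by nlinarith [ht j, le_abs_self B])) (p + 1) (by omega) hpσ B₁ hB₁
    (fun i j β => HW sA sB (1 / ((i : ℝ) + 1)) i i i ⌈t j⌉₊ β) (by
    intro i U
    obtain ⟨N₀, h0⟩ := fam_sys hsys hk (p + 1) i (max B₁ i) 1 i U (1 / ((i : ℝ) + 1)) (by positivity)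
    refine ⟨max N₀ 3, fun j hj x v hv hE 𝒮 h𝒮 hbad => ?_⟩
    have hN1 : t j ≤ (⌈t j⌉₊ : ℝ) := Nat.le_ceil _
    have hN : N₀ ≤ ⌈t j⌉₊ := by
      have : (N₀ : ℝ) ≤ (⌈t j⌉₊ : ℝ) := ((le_max_left _ _).trans hj).trans hN1
      exact_mod_cast this
    have h3 : (3 : ℝ) ≤ (⌈t j⌉₊ : ℝ) := ((le_max_right _ _).trans hj).trans hN1
    have hL : 1 ≤ Real.log (⌈t j⌉₊ : ℝ) := by
      rw [Real.le_log_iff_exp_le (by linarith)]
      linarith [Real.exp_one_lt_d9]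
    refine h0 ⌈t j⌉₊ hN x v (fun a m hm => (hv a m hm).trans ?_) (fun a => by rw [pow_one]; exact hE a) 𝒮 h𝒮 (fun q hq hG => ?_)
    · apply mul_le_mul_of_nonneg_right _ (by positivity)
      exact_mod_cast le_max_left _ _
    · exact hbad q hq (hw_mono sA sB _ _ i i (max B₁ i) i i i _ hL le_rfl le_rfl (le_max_right _ _) le_rfl _ hG))
  filter_upwards [h] with θ hθ A A' B' D ε hε
  obtain ⟨i, hi⟩ := exists_nat_ge (max (max (A' : ℝ) B') (max (D : ℝ) (1 / ε)))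
  have i1 : A' ≤ i := by exact_mod_cast ((le_max_left _ _).trans (le_max_left _ _)).trans hi
  have i2 : B' ≤ i := by exact_mod_cast ((le_max_right _ _).trans (le_max_left _ _)).trans hi
  have i3 : D ≤ i := by exact_mod_cast ((le_max_left _ _).trans (le_max_right _ _)).trans hi
  have i4 : 1 / ε ≤ i := ((le_max_right _ _).trans (le_max_right _ _)).trans hi
  have hε' : 1 / ((i : ℝ) + 1) ≤ ε := by
    rw [div_le_iff₀ hε] at i4
    rw [div_le_iff₀ (by positivity)]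
    nlinarith
  have hsmall := small_fin t ht V hV 3
  refine ((hθ A i).union hsmall).subset ?_
  intro j hj
  rw [Set.mem_ofPred_eq] at hj
  by_cases h3 : t j < 3
  · right
    exact h3
  left
  rw [Set.mem_ofPred_eq]
  intro hall
  apply hj
  intro β hβ
  have hL : 1 ≤ Real.log (⌈t j⌉₊ : ℝ) := by
    have h4 : (3 : ℝ) ≤ (⌈t j⌉₊ : ℝ) := (not_lt.1 h3).trans (Nat.le_ceil _)
    rw [Real.le_log_iff_exp_le (by linarith)]
    linarith [Real.exp_one_lt_d9]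
  exact hw_mono sA sB _ _ i A' i B' i D _ hL hε' i1 i2 i3 _ (hall β hβ)

end Pool.Agent.V11290.FD
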