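import Pool.Agent.V11290.FD.Lev
import Pool.Agent.TH890.AutTup2

set_option autoImplicit false

/-! The random rounding of `t α`: no concentration, and the one shift estimate. -/

namespace Pool.Agent.V11290.FD
open MeasureTheory Filter

lemma pp_le_aux (μ : Measure ℝ) [IsProbabilityMeasure μ] (t : ℝ) (R : ℤ) (hR : ∀ᵐ α ∂μ, |t * α| + 1 ≤ R) (P : ℕ) (hP : 1 ≤ P)
    (δ : ℝ) (hδ : ∀ r ∈ Finset.range P, r ≠ 0 → ‖∫ α, L ((r : ℝ) / P) (t * α) ∂μ‖ ≤ δ) (hδ0 : 0 ≤ δ) (y : ℤ)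
    (hy : y ∈ Finset.Icc (-R) R) : P * pp μ t y ≤ 1 + P * δ := by
  classical
  obtain ⟨Z, hZ⟩ : ∃ Z : ℂ, Z = ∑ r ∈ Finset.range P, e (-((r : ℝ) / P * y)) * ∫ α, L ((r : ℝ) / P) (t * α) ∂μ := ⟨_, rfl⟩
  have h1 : Z = ((∑ y' ∈ Finset.Icc (-R) R, pp μ t y' * (if (P : ℤ) ∣ y' - y then (P : ℝ) else 0) : ℝ) : ℂ) := by
    rw [hZ]
    have h2 : ∀ r ∈ Finset.range P, e (-((r : ℝ) / P * y)) * ∫ α, L ((r : ℝ) / P) (t * α) ∂μ =
        ∑ y' ∈ Finset.Icc (-R) R, ((pp μ t y' : ℝ) : ℂ) *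
          Pool.Agent.H807R2.Dav.ee ((r : ℝ) * (((y' - y : ℤ) : ℝ) / P)) := by
      intro r _
      rw [← char_eq μ t R hR, Finset.mul_sum]
      apply Finset.sum_congr rfl
      intro y' _
      have h3 : Pool.Agent.H807R2.Dav.ee ((r : ℝ) * (((y' - y : ℤ) : ℝ) / P)) = e (-((r : ℝ) / P * y)) * e ((r : ℝ) / P * y') := by
        rw [← e_add]
        unfold Pool.Agent.H807R2.Dav.ee e
        congr 2
        push_cast
        ring
      rw [h3]
      ring
    rw [Finset.sum_congr rfl h2, Finset.sum_comm, Complex.ofReal_sum]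
    apply Finset.sum_congr rfl
    intro y' _
    rw [← Finset.mul_sum, Pool.Agent.H373R2.T7.orth P hP (y' - y), Complex.ofReal_mul]
    split_ifs <;> simp
  have h2 : ‖Z‖ ≤ 1 + P * δ := by
    rw [hZ]
    refine (norm_sum_le _ _).trans ?_
    have h3 : ∀ r ∈ Finset.range P, ‖e (-((r : ℝ) / P * y)) * ∫ α, L ((r : ℝ) / P) (t * α) ∂μ‖ ≤ (if r = 0 then 1 else 0) + δ := by
      intro r hr
      rw [norm_mul, norm_e, one_mul]
      split_ifs with h0
      · have h4 : ‖∫ α, L ((r : ℝ) / P) (t * α) ∂μ‖ ≤ 1 := by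
          rw [← char_eq μ t R hR]
          refine (norm_sum_le _ _).trans ?_
          have h5 : ∀ y' ∈ Finset.Icc (-R) R, ‖((pp μ t y' : ℝ) : ℂ) * e ((r : ℝ) / P * y')‖ = pp μ t y' := by
            intro y' _
            rw [norm_mul, norm_e, mul_one, Complex.norm_real, Real.norm_of_nonneg (pp_nonneg μ t y')]
          rw [Finset.sum_congr rfl h5, pp_sum_one μ t R hR]
        linarith
      · have := hδ r hr h0
        linarith
    refine (Finset.sum_le_sum h3).trans ?_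
    rw [Finset.sum_add_distrib, Finset.sum_const, Finset.card_range, nsmul_eq_mul, Finset.sum_ite_eq' (Finset.range P) 0]
    have : (if 0 ∈ Finset.range P then (1 : ℝ) else 0) ≤ 1 := by split_ifs <;> norm_num
    linarith
  rw [h1, Complex.norm_real] at h2
  refine le_trans ?_ ((le_abs_self _).trans h2)
  have h3 := Finset.single_le_sum (f := fun y' => pp μ t y' * (if (P : ℤ) ∣ y' - y then (P : ℝ) else 0)) (fun y' _ => by
    apply mul_nonneg (pp_nonneg μ t y')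
    split_ifs
    · exact Nat.cast_nonneg P
    · exact le_rfl) hy
  refine le_trans (le_of_eq ?_) h3
  simp only [sub_self, dvd_zero, if_true]
  ring

lemma pp_out' (μ : Measure ℝ) (B t : ℝ) (ht : 0 ≤ t) (hsup : ∀ᵐ α ∂μ, |α| ≤ B) (y : ℤ) (hy : y ∉ Finset.Icc (-(RR B t)) (RR B t)) :
    pp μ t y = 0 := by
  have hRge : B * t + 1 ≤ (RR B t : ℝ) := by
    unfold RR
    exact Int.le_ceil _
  have hy2 : B * t + 1 ≤ |(y : ℝ)| := by
    rw [Finset.mem_Icc, not_and_or, not_le, not_le] at hy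
    rcases hy with h | h
    · have h' : (y : ℝ) < -(RR B t : ℝ) := by exact_mod_cast h
      have := neg_le_abs (y : ℝ)
      linarith
    · have h' : (RR B t : ℝ) < y := by exact_mod_cast h
      have := le_abs_self (y : ℝ)
      linarith
  unfold pp
  have h : (fun α => tent (t * α - y)) =ᵐ[μ] fun _ => (0 : ℝ) := by
    filter_upwards [hsup] with α hα
    unfold tent
    apply max_eq_left
    have h1 : |t * α| ≤ B * t := by
      rw [abs_mul, abs_of_nonneg ht, mul_comm]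
      exact mul_le_mul_of_nonneg_right hα ht
    have h2 : |(y : ℝ)| ≤ |t * α - y| + |t * α| := by
      have := abs_sub (t * α) (t * α - y)
      rw [sub_sub_cancel] at this
      linarith
    linarith
  rw [integral_congr_ae h]
  simp

lemma log_pow_rpow (U : ℕ) (r η : ℝ) (hr : 0 < r) (hη : 0 < η) : ∃ t₀ : ℝ, 1 ≤ t₀ ∧ ∀ t : ℝ, t₀ ≤ t → Real.log t ^ U ≤ η * t ^ r := by
  obtain ⟨x, hx⟩ := log_pow_le U (η * r ^ U) (by positivity)
  refine ⟨max (max x 1 ^ (1 / r)) 1, le_max_right _ _, fun t ht => ?_⟩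
  have ht1 : 1 ≤ t := (le_max_right _ _).trans ht
  have ht0 : 0 < t := by linarith
  have h1 : max x 1 ^ (1 / r) ≤ t := (le_max_left _ _).trans ht
  have h2 : x ≤ t ^ r := by
    have h3 : (max x 1 ^ (1 / r)) ^ r ≤ t ^ r := Real.rpow_le_rpow (by positivity) h1 hr.le
    rw [← Real.rpow_mul (by positivity), one_div, inv_mul_cancel₀ hr.ne', Real.rpow_one] at h3
    exact (le_max_left _ _).trans h3
  have h3 := hx (t ^ r) h2
  rw [Real.log_rpow ht0, mul_pow] at h3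
  have h4 : 0 < r ^ U := by positivity
  have h5 : r ^ U * Real.log t ^ U ≤ r ^ U * (η * t ^ r) := by linarith
  exact le_of_mul_le_mul_left h5 h4

lemma pp_small (B C σ : ℝ) (hB : 0 < B) (hσ : 0 < σ) (U : ℕ) : ∃ t₀ : ℝ, ∀ (μ : Measure ℝ) [IsProbabilityMeasure μ],
    (∀ ξ : ℝ, 1 ≤ |ξ| → ‖charFun μ ξ‖ ≤ C * |ξ| ^ (-σ)) → (∀ᵐ α ∂μ, |α| ≤ B) → ∀ t : ℝ, t₀ ≤ t → ∀ y : ℤ,
    pp μ t y ≤ 1 / Real.log t ^ U := by
  obtain ⟨t1, ht11, ht1⟩ := log_pow_rpow U (1 / 2) (1 / 4) (by norm_num) (by norm_num)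
  obtain ⟨t2, ht21, ht2⟩ := log_pow_rpow U (σ / 2) (1 / (2 * (|C| + 1))) (by positivity) (by positivity)
  refine ⟨max (max t1 t2) 16, fun μ _ hdec hsup t ht y => ?_⟩
  have q1 : t1 ≤ t := ((le_max_left _ _).trans (le_max_left _ _)).trans ht
  have q2 : t2 ≤ t := ((le_max_right _ _).trans (le_max_left _ _)).trans ht
  have q3 : 16 ≤ t := (le_max_right _ _).trans ht
  have ht0 : 0 < t := by linarith
  have hR := RR_ae μ B t ht0.le hsup
  obtain ⟨Lg, hLg⟩ : ∃ Lg, Lg = Real.log t ^ U := ⟨_, rfl⟩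
  have hlog1 : 1 ≤ Real.log t := by
    rw [Real.le_log_iff_exp_le ht0]
    linarith [Real.exp_one_lt_d9]
  have hLg1 : 1 ≤ Lg := by rw [hLg]; exact one_le_pow₀ hlog1
  have a1 := ht1 t q1
  have a2 := ht2 t q2
  rw [← hLg] at a1 a2 ⊢
  by_cases hy : y ∈ Finset.Icc (-(RR B t)) (RR B t)
  swap
  · have : pp μ t y = 0 := by
      apply pp_out' μ B t ht0.le hsup y hy
    rw [this]
    positivity
  obtain ⟨P, hP⟩ : ∃ P, P = ⌈2 * Lg⌉₊ := ⟨_, rfl⟩
  have hP1 : 2 * Lg ≤ P := by rw [hP]; exact Nat.le_ceil _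
  have hP2 : (P : ℝ) ≤ 2 * Lg + 1 := by
    rw [hP]
    exact (Nat.ceil_lt_add_one (by linarith)).le
  have hsq : t ^ (1 / 2 : ℝ) * t ^ (1 / 2 : ℝ) = t := by
    rw [← Real.rpow_add ht0]
    norm_num
  have hsq0 : 0 < t ^ (1 / 2 : ℝ) := Real.rpow_pos_of_pos ht0 _
  have hsq4 : 4 ≤ t ^ (1 / 2 : ℝ) := by
    by_contra hcon
    push Not at hcon
    nlinarith
  have hP3 : (P : ℝ) ≤ t ^ (1 / 2 : ℝ) := by linarith
  have hPn : 1 ≤ P := by
    have : (1 : ℝ) ≤ P := by linarith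
    exact_mod_cast this
  have hP0 : (0 : ℝ) < P := by linarith
  obtain ⟨δ, hδd⟩ : ∃ δ, δ = |C| * (t ^ (1 / 2 : ℝ)) ^ (-σ) := ⟨_, rfl⟩
  have hδ0 : 0 ≤ δ := by rw [hδd]; positivity
  have h1 := pp_le_aux μ t (RR B t) hR P hPn δ (by
    intro r hr hr0
    rw [Finset.mem_range] at hr
    have hfar : ∀ m : ℤ, 1 / (P : ℝ) ≤ |(r : ℝ) / P + m| := by
      intro m
      have e1 : (r : ℝ) / P + m = (((r : ℤ) + m * P : ℤ) : ℝ) / P := by
        push_cast
        field_simp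
      rw [e1, abs_div, abs_of_pos hP0]
      apply div_le_div_of_nonneg_right _ hP0.le
      have e2 : (r : ℤ) + m * P ≠ 0 := by
        intro h
        have e3 : (P : ℤ) ∣ r := ⟨-m, by linarith⟩
        rw [Int.natCast_dvd_natCast] at e3
        have := Nat.le_of_dvd (Nat.pos_of_ne_zero hr0) e3
        omega
      have e3 : 1 ≤ |(r : ℤ) + m * P| := Int.one_le_abs e2
      exact_mod_cast e3
    have hP10 : 0 < 1 / (P : ℝ) := by positivity
    apply key μ ((r : ℝ) / P) (fun m h => by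
      have := hfar m
      rw [h, abs_zero] at this
      linarith)
    intro m
    obtain ⟨x, hx⟩ : ∃ x, x = 2 * Real.pi * ((r : ℝ) / P + m) * t := ⟨_, rfl⟩
    have hpi := Real.pi_gt_three
    have h3 : t ^ (1 / 2 : ℝ) ≤ |x| := by
      rw [hx, abs_mul, abs_mul, abs_of_pos (by positivity : 0 < 2 * Real.pi), abs_of_pos ht0]
      have h4 : 1 * (1 / (P : ℝ)) * t ≤ 2 * Real.pi * |(r : ℝ) / P + m| * t := by
        apply mul_le_mul_of_nonneg_right _ ht0.le
        apply mul_le_mul (by linarith) (hfar m) hP10.le (by positivity)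
      refine le_trans ?_ h4
      have h5 : 1 * (1 / (P : ℝ)) * t = t / P := by ring
      rw [h5, le_div_iff₀ hP0]
      calc t ^ (1 / 2 : ℝ) * P ≤ t ^ (1 / 2 : ℝ) * t ^ (1 / 2 : ℝ) := mul_le_mul_of_nonneg_left hP3 hsq0.le
        _ = t := hsq
    have h4 := hdec x (by linarith)
    rw [← hx, hδd]
    refine h4.trans ?_
    have hx0 : 0 < |x| := by linarith
    calc C * |x| ^ (-σ) ≤ |C| * |x| ^ (-σ) := mul_le_mul_of_nonneg_right (le_abs_self C) (Real.rpow_nonneg hx0.le _)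
      _ ≤ _ := mul_le_mul_of_nonneg_left (Real.rpow_le_rpow_of_nonpos hsq0 h3 (by linarith)) (abs_nonneg C)) hδ0 y hy
  have h2 : pp μ t y ≤ 1 / P + δ := by
    have h3 : P * pp μ t y ≤ P * (1 / P + δ) := by
      have : (P : ℝ) * (1 / P + δ) = 1 + P * δ := by field_simp
      rw [this]
      exact h1
    exact le_of_mul_le_mul_left h3 hP0
  have h3 : 1 / (P : ℝ) ≤ 1 / (2 * Lg) := one_div_le_one_div_of_le (by linarith) hP1
  have h4 : δ ≤ 1 / (2 * Lg) := by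
    have e1 : (t ^ (1 / 2 : ℝ)) ^ (-σ) = (t ^ (σ / 2))⁻¹ := by
      rw [← Real.rpow_mul ht0.le, ← Real.rpow_neg ht0.le]
      congr 1
      ring
    rw [hδd, e1]
    have ht2 : 0 < t ^ (σ / 2) := Real.rpow_pos_of_pos ht0 _
    rw [← div_eq_mul_inv, div_le_div_iff₀ ht2 (by linarith)]
    have e2 : 1 / (2 * (|C| + 1)) * t ^ (σ / 2) = t ^ (σ / 2) / (2 * (|C| + 1)) := by ring
    rw [e2, le_div_iff₀ (by positivity)] at a2
    have e3 : |C| * (2 * Lg) ≤ Lg * (2 * (|C| + 1)) := by nlinarith [abs_nonneg C]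
    linarith
  have h5 : 1 / (2 * Lg) + 1 / (2 * Lg) = 1 / Lg := by
    field_simp
    norm_num
  linarith

end Pool.Agent.V11290.FD
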